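import Pool.Agent.U991.Car.Upper

/-!
Averages over maps and their limits along an ultrafilter.
-/

namespace Pool.Agent.U991.Car

open Finset Filter Topology

set_option linter.unusedSectionVars false

/-- Labelled patterns. -/
abbrev Pt (k : ℕ) := Fin k → Fin k → Bool

open Classical in
/-- The pattern of a map. -/
noncomputable def pull {k N : ℕ} (U : Tournament N) (x : Fin k → Fin N) : Pt k :=
  fun i j => decide (U.adj (x i) (x j))

/-- Average over all maps. -/
noncomputable def av {k N : ℕ} (U : Tournament N) (g : Pt k → ℝ) : ℝ :=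
  (∑ x : Fin k → Fin N, g (pull U x)) / (N : ℝ) ^ k

/-- Relabelling. -/
def Pt.perm {k l : ℕ} (σ : Fin l → Fin k) (M : Pt k) : Pt l := fun i j => M (σ i) (σ j)

theorem pull_perm {k l N : ℕ} (U : Tournament N) (x : Fin k → Fin N) (σ : Fin l → Fin k) :
    Pt.perm σ (pull U x) = pull U (fun i => x (σ i)) := rfl

/-- A bound for a function on patterns. -/
noncomputable def bd {k : ℕ} (g : Pt k → ℝ) : ℝ := ∑ M, |g M|

theorem le_bd {k : ℕ} (g : Pt k → ℝ) (M : Pt k) : |g M| ≤ bd g :=
  Finset.single_le_sum (f := fun M => |g M|) (fun _ _ => abs_nonneg _) (Finset.mem_univ M)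

theorem bd_nonneg {k : ℕ} (g : Pt k → ℝ) : 0 ≤ bd g := Finset.sum_nonneg fun _ _ => abs_nonneg _

theorem av_abs_le {k N : ℕ} (U : Tournament N) (g : Pt k → ℝ) : |av U g| ≤ bd g := by
  unfold av
  rw [abs_div, abs_of_nonneg (by positivity : (0 : ℝ) ≤ (N : ℝ) ^ k)]
  have h1 : |∑ x : Fin k → Fin N, g (pull U x)| ≤ (N : ℝ) ^ k * bd g := by
    calc |∑ x : Fin k → Fin N, g (pull U x)| ≤ ∑ x : Fin k → Fin N, |g (pull U x)| :=
          Finset.abs_sum_le_sum_abs _ _
      _ ≤ ∑ _x : Fin k → Fin N, bd g := Finset.sum_le_sum fun x _ => le_bd g _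
      _ = (N : ℝ) ^ k * bd g := by
          rw [Finset.sum_const, Finset.card_univ, Fintype.card_fun, Fintype.card_fin,
            Fintype.card_fin, nsmul_eq_mul]
          push_cast
          ring
  rcases eq_or_lt_of_le (by positivity : (0 : ℝ) ≤ (N : ℝ) ^ k) with h | h
  · rw [← h, div_zero]
    exact bd_nonneg g
  · rw [div_le_iff₀ h]
    linarith

theorem av_add {k N : ℕ} (U : Tournament N) (f g : Pt k → ℝ) :
    av U (fun M => f M + g M) = av U f + av U g := by
  unfold av
  rw [Finset.sum_add_distrib, add_div]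

theorem av_smul {k N : ℕ} (U : Tournament N) (c : ℝ) (f : Pt k → ℝ) :
    av U (fun M => c * f M) = c * av U f := by
  unfold av
  rw [← Finset.mul_sum, mul_div_assoc]

theorem av_perm {k N : ℕ} (U : Tournament N) (σ : Equiv.Perm (Fin k)) (g : Pt k → ℝ) :
    av U (fun M => g (Pt.perm σ M)) = av U g := by
  unfold av
  congr 1
  refine Fintype.sum_equiv (Equiv.arrowCongr σ.symm (Equiv.refl _)) _ _ fun x => ?_
  rfl

theorem av_cons {k N : ℕ} (U : Tournament N) (G : (Fin (k + 1) → Fin N) → ℝ) :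
    ∑ x : Fin (k + 1) → Fin N, G x = ∑ x : Fin k → Fin N, ∑ z : Fin N, G (Fin.cons z x) := by
  rw [Finset.sum_comm, ← Fintype.sum_prod_type (f := fun p : Fin N × (Fin k → Fin N) =>
    G (Fin.cons p.1 p.2))]
  exact (Equiv.sum_comp (Fin.consEquiv fun _ => Fin N) G).symm

/-- The ultrafilter. -/
noncomputable def 𝒰 : Ultrafilter ℕ := hyperfilter ℕ

theorem 𝒰_le : (𝒰 : Filter ℕ) ≤ atTop := Nat.hyperfilter_le_atTop

section
variable {N : ℕ → ℕ} (U : (m : ℕ) → Tournament (N m))

/-- Limit of the averages. -/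
noncomputable def E {k : ℕ} (g : Pt k → ℝ) : ℝ := limUnder (𝒰 : Filter ℕ) fun m => av (U m) g

theorem tendsto_E {k : ℕ} (g : Pt k → ℝ) :
    Tendsto (fun m => av (U m) g) (𝒰 : Filter ℕ) (𝓝 (E U g)) := by
  have hc : IsCompact (Set.Icc (-bd g) (bd g)) := isCompact_Icc
  have hle : ((𝒰.map fun m => av (U m) g : Ultrafilter ℝ) : Filter ℝ) ≤
      𝓟 (Set.Icc (-bd g) (bd g)) := by
    rw [Filter.le_principal_iff]
    show (fun m => av (U m) g) ⁻¹' Set.Icc (-bd g) (bd g) ∈ (𝒰 : Filter ℕ)
    have : (fun m => av (U m) g) ⁻¹' Set.Icc (-bd g) (bd g) = Set.univ := by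
      ext m
      simp only [Set.mem_preimage, Set.mem_Icc, Set.mem_univ, iff_true]
      exact abs_le.mp (av_abs_le (U m) g)
    rw [this]
    exact Filter.univ_mem
  obtain ⟨y, _, hy⟩ := hc.ultrafilter_le_nhds _ hle
  have h1 : Tendsto (fun m => av (U m) g) (𝒰 : Filter ℕ) (𝓝 y) := hy
  have h2 : E U g = y := h1.limUnder_eq
  rw [h2]
  exact h1

theorem E_add {k : ℕ} (f g : Pt k → ℝ) : E U (fun M => f M + g M) = E U f + E U g :=
  tendsto_nhds_unique (tendsto_E U _) (by
    simp_rw [av_add]
    exact (tendsto_E U f).add (tendsto_E U g))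

theorem E_smul {k : ℕ} (c : ℝ) (f : Pt k → ℝ) : E U (fun M => c * f M) = c * E U f :=
  tendsto_nhds_unique (tendsto_E U _) (by
    simp_rw [av_smul]
    exact (tendsto_E U f).const_mul c)

theorem E_perm {k : ℕ} (σ : Equiv.Perm (Fin k)) (g : Pt k → ℝ) :
    E U (fun M => g (Pt.perm σ M)) = E U g :=
  tendsto_nhds_unique (tendsto_E U _) (by
    simp_rw [av_perm]
    exact tendsto_E U g)

theorem E_zero {k : ℕ} : E U (fun _ : Pt k => 0) = 0 := by
  have := E_smul U 0 (fun _ : Pt k => (0 : ℝ))
  simpa using this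

theorem E_sum {k : ℕ} {ι : Type*} (S : Finset ι) (f : ι → Pt k → ℝ) :
    E U (fun M => ∑ i ∈ S, f i M) = ∑ i ∈ S, E U (f i) := by
  classical
  induction S using Finset.induction_on with
  | empty => simp [E_zero]
  | insert a S ha ih =>
    simp_rw [Finset.sum_insert ha]
    rw [E_add, ih]

/-- `M` is the pattern of a tournament. -/
def IsT {k : ℕ} (M : Pt k) : Prop := (∀ i, M i i = false) ∧ ∀ i j, i ≠ j → M i j = !M j i

theorem pull_isT {k n : ℕ} (V : Tournament n) (x : Fin k → Fin n) (hx : Function.Injective x) :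
    IsT (pull V x) := by
  classical
  constructor
  · intro i
    simp only [pull, decide_eq_false_iff_not]
    exact V.irrefl _
  · intro i j hij
    have h := V.one_arc (x i) (x j) (fun e => hij (hx e))
    simp only [pull]
    by_cases h1 : V.adj (x j) (x i)
    · have h2 : ¬ V.adj (x i) (x j) := fun h3 => (h.mp h3) h1
      simp [h1, h2]
    · have h2 : V.adj (x i) (x j) := h.mpr h1
      simp [h1, h2]

variable (hN : StrictMono N)
include hN

theorem ninj_tendsto (k : ℕ) :
    Tendsto (fun m => 1 - ((N m).descFactorial k : ℝ) / ((N m : ℕ) : ℝ) ^ k) (𝒰 : Filter ℕ)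
      (𝓝 0) := by
  have h1 := ((desc_tendsto k).comp hN.tendsto_atTop).mono_left 𝒰_le
  have h2 := h1.const_sub 1
  rw [sub_self] at h2
  exact h2

/-- Only injective maps matter. -/
theorem E_le {k : ℕ} (f g : Pt k → ℝ) (h : ∀ M, IsT M → f M ≤ g M) : E U f ≤ E U g := by
  classical
  set C : ℝ := bd f + bd g with hC
  have hfin : ∀ m, av (U m) f ≤ av (U m) g +
      C * (((N m : ℝ) ^ k - ((N m).descFactorial k : ℝ)) / ((N m : ℕ) : ℝ) ^ k) := by
    intro m
    unfold av
    rw [← mul_div_assoc, ← add_div]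
    apply div_le_div_of_nonneg_right _ (by positivity)
    have hinj : (univ.filter fun x : Fin k → Fin (N m) => Function.Injective x).card
        = (N m).descFactorial k := by
      rw [← Fintype.card_subtype, Fintype.card_congr (Equiv.subtypeInjectiveEquivEmbedding _ _),
        Fintype.card_embedding_eq, Fintype.card_fin, Fintype.card_fin]
    have hall : (univ : Finset (Fin k → Fin (N m))).card = (N m) ^ k := by
      rw [Finset.card_univ, Fintype.card_fun, Fintype.card_fin, Fintype.card_fin]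
    have hnot : ((univ.filter fun x : Fin k → Fin (N m) => ¬ Function.Injective x).card : ℝ)
        = (N m : ℝ) ^ k - ((N m).descFactorial k : ℝ) := by
      have := Finset.card_filter_add_card_filter_not (s := (univ : Finset (Fin k → Fin (N m))))
        (fun x => Function.Injective x)
      rw [hinj, hall] at this
      have h2 : (((N m).descFactorial k : ℕ) : ℝ) +
        ((univ.filter fun x : Fin k → Fin (N m) => ¬ Function.Injective x).card : ℝ)
          = (N m : ℝ) ^ k := by exact_mod_cast this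
      linarith
    rw [← hnot]
    rw [← Finset.sum_filter_add_sum_filter_not univ
      (fun x : Fin k → Fin (N m) => Function.Injective x) (fun x => f (pull (U m) x)),
      ← Finset.sum_filter_add_sum_filter_not univ
      (fun x : Fin k → Fin (N m) => Function.Injective x) (fun x => g (pull (U m) x)), add_assoc]
    apply add_le_add
    · exact Finset.sum_le_sum fun x hx => h _ (pull_isT (U m) x (Finset.mem_filter.mp hx).2)
    · rw [mul_comm C, ← nsmul_eq_mul, ← Finset.sum_const, ← Finset.sum_add_distrib]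
      refine Finset.sum_le_sum fun x _ => ?_
      have h1 := abs_le.mp (le_bd f (pull (U m) x))
      have h2 := abs_le.mp (le_bd g (pull (U m) x))
      rw [hC]
      linarith
  have h1 : Tendsto (fun m => av (U m) g +
      C * (((N m : ℝ) ^ k - ((N m).descFactorial k : ℝ)) / ((N m : ℕ) : ℝ) ^ k))
      (𝒰 : Filter ℕ) (𝓝 (E U g + C * 0)) := by
    refine (tendsto_E U g).add (Tendsto.const_mul C ?_)
    refine (ninj_tendsto hN k).congr' ?_
    have : ∀ᶠ m in (𝒰 : Filter ℕ), 1 ≤ N m :=
      (hN.tendsto_atTop.eventually_ge_atTop 1).filter_mono 𝒰_le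
    filter_upwards [this] with m hm
    have h0 : ((N m : ℕ) : ℝ) ^ k ≠ 0 := by
      have : (0 : ℝ) < (N m : ℝ) := by exact_mod_cast hm
      positivity
    rw [sub_div, div_self h0]
  rw [mul_zero, add_zero] at h1
  exact le_of_tendsto_of_tendsto' (tendsto_E U f) h1 hfin

theorem E_congr {k : ℕ} (f g : Pt k → ℝ) (h : ∀ M, IsT M → f M = g M) : E U f = E U g :=
  le_antisymm (E_le U hN f g fun M hM => (h M hM).le) (E_le U hN g f fun M hM => (h M hM).ge)

theorem E_nonneg {k : ℕ} (f : Pt k → ℝ) (h : ∀ M, IsT M → 0 ≤ f M) : 0 ≤ E U f := by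
  rw [← E_zero U (k := k)]
  exact E_le U hN _ _ h

theorem E_one {k : ℕ} : E U (fun _ : Pt k => (1 : ℝ)) = 1 := by
  refine tendsto_nhds_unique (tendsto_E U _) (tendsto_const_nhds.congr' ?_)
  have : ∀ᶠ m in (𝒰 : Filter ℕ), 1 ≤ N m :=
    (hN.tendsto_atTop.eventually_ge_atTop 1).filter_mono 𝒰_le
  filter_upwards [this] with m hm
  have h0 : ((N m : ℕ) : ℝ) ^ k ≠ 0 := by
    have : (0 : ℝ) < (N m : ℝ) := by exact_mod_cast hm
    positivity
  unfold av
  rw [Finset.sum_const, Finset.card_univ, Fintype.card_fun, Fintype.card_fin, Fintype.card_fin,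
    nsmul_eq_mul, mul_one]
  push_cast
  rw [div_self h0]

end

end Pool.Agent.U991.Car
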