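import Pool.Agent.U991.Car.Link

/-!
Limits maximising the density of a carousel tournament are balanced.
-/

namespace Pool.Agent.U991.Car

open Finset Filter Topology

set_option linter.unusedSectionVars false

theorem pos_single {V : Type*} [DecidableEq V] [Fintype V] {s : V → V → ℤ} (hs : IsSgn s) (v : V) :
    Pos s {v} := by
  refine ⟨⟨v, Finset.mem_singleton_self v⟩, fun _ => 1, fun _ _ => one_pos, fun u hu => ?_⟩
  rw [Finset.mem_singleton] at hu
  subst hu
  rw [Finset.sum_singleton]
  have h := hs.1 u u
  have h2 : s u u = 0 := by omega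
  rw [h2]
  norm_num

theorem fs_single {V : Type*} [DecidableEq V] [Fintype V] {s : V → V → ℤ} (hs : IsSgn s)
    (u v : V) : ((fs s {v} u : SignType) : ℤ) = s u v := by
  rw [fs_eq hs (pos_single hs v) (fun _ => 1) (fun _ _ => one_pos) (by
    intro w hw
    rw [Finset.mem_singleton] at hw
    subst hw
    rw [Finset.sum_singleton]
    have h := hs.1 w w
    have h2 : s w w = 0 := by omega
    rw [h2]
    norm_num) u]
  rw [Finset.sum_singleton, mul_one]
  by_cases huv : u = v
  · subst huv
    have h := hs.1 u u
    have h2 : s u u = 0 := by omega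
    rw [h2]
    simp
  · rcases hs.2 u v huv with h | h <;> rw [h] <;> simp

theorem sum_consZ {V : Type*} [Fintype V] {k : ℕ} (G : (Fin (k + 1) → V) → ℤ) :
    ∑ x : Fin (k + 1) → V, G x = ∑ z : V, ∑ y : Fin k → V, G (Fin.cons z y) := by
  rw [← Fintype.sum_prod_type (f := fun p : V × (Fin k → V) => G (Fin.cons p.1 p.2))]
  exact (Equiv.sum_comp (Fin.consEquiv fun _ => V) G).symm

theorem sum_term_single {V : Type*} [DecidableEq V] [Fintype V] {s : V → V → ℤ} (hs : IsSgn s)
    (k : ℕ) : ∑ x : Fin (k + 1) → V, term s x {0} = 2 * ∑ v, (∑ u, s u v) ^ k := by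
  rw [sum_consZ, Finset.mul_sum]
  refine Finset.sum_congr rfl fun v _ => ?_
  rw [Fintype.sum_pow, Finset.mul_sum]
  refine Finset.sum_congr rfl fun y _ => ?_
  unfold term
  have h0 : ({0} : Finset (Fin (k + 1))).image (Fin.cons v y : Fin (k + 1) → V) = {v} := by
    simp
  rw [if_pos ⟨by simp, by rw [h0]; exact pos_single hs v⟩, h0, Finset.card_singleton, pow_one,
    ← Fin.image_succ_univ, Finset.prod_image (fun a _ b _ h => Fin.succ_injective _ h)]
  congr 1
  refine Finset.prod_congr rfl fun j _ => ?_
  rw [fs_single hs, Fin.cons_succ]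

open Classical in
theorem count_maps' {V : Type*} [DecidableEq V] [Fintype V] {s : V → V → ℤ} (hs : IsSgn s)
    {k : ℕ} (hk : 1 ≤ k) (hm : Odd (k + 1)) :
    (2 : ℤ) ^ (k + 1) * (univ.filter fun x : Fin (k + 1) → V =>
        Function.Injective x ∧ Pos s (univ.image x)).card + 2 * ∑ v, (∑ u, s u v) ^ k ≤
      2 * ((Fintype.card V).descFactorial (k + 1) : ℤ) +
        3 ^ (k + 1) * ((Fintype.card V : ℤ) ^ (k + 1) -
          ((Fintype.card V).descFactorial (k + 1) : ℤ)) := by
  have hinj : (univ.filter fun x : Fin (k + 1) → V => Function.Injective x).card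
      = (Fintype.card V).descFactorial (k + 1) := by
    rw [← Fintype.card_subtype, Fintype.card_congr (Equiv.subtypeInjectiveEquivEmbedding _ _),
      Fintype.card_embedding_eq, Fintype.card_fin]
  have hall : (univ : Finset (Fin (k + 1) → V)).card = (Fintype.card V) ^ (k + 1) := by
    rw [Finset.card_univ, Fintype.card_fun, Fintype.card_fin]
  have hnot : ((univ.filter fun x : Fin (k + 1) → V => ¬ Function.Injective x).card : ℤ)
      = (Fintype.card V : ℤ) ^ (k + 1) - ((Fintype.card V).descFactorial (k + 1) : ℤ) := by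
    have := Finset.card_filter_add_card_filter_not (s := (univ : Finset (Fin (k + 1) → V)))
      (fun x => Function.Injective x)
    rw [hinj, hall] at this
    have h2 : (((Fintype.card V).descFactorial (k + 1) : ℕ) : ℤ) +
      ((univ.filter fun x : Fin (k + 1) → V => ¬ Function.Injective x).card : ℤ)
        = (Fintype.card V : ℤ) ^ (k + 1) := by exact_mod_cast this
    linarith
  have hup : ∑ x : Fin (k + 1) → V, ∑ I, term s x I ≤
      2 * ((Fintype.card V).descFactorial (k + 1) : ℤ) +
        3 ^ (k + 1) * ((Fintype.card V : ℤ) ^ (k + 1) -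
          ((Fintype.card V).descFactorial (k + 1) : ℤ)) := by
    rw [← Finset.sum_filter_add_sum_filter_not univ
      (fun x : Fin (k + 1) → V => Function.Injective x)]
    apply add_le_add
    · rw [Finset.sum_congr rfl (fun x hx => sum_term_inj hs hm x (Finset.mem_filter.mp hx).2),
        Finset.sum_const, hinj]
      simp [mul_comm]
    · calc ∑ x ∈ univ.filter (fun x : Fin (k + 1) → V => ¬ Function.Injective x),
            ∑ I, term s x I
          ≤ ∑ x ∈ univ.filter (fun x : Fin (k + 1) → V => ¬ Function.Injective x),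
            (3 : ℤ) ^ (k + 1) := Finset.sum_le_sum fun x _ => sum_term_le x
        _ = 3 ^ (k + 1) * ((Fintype.card V : ℤ) ^ (k + 1) -
              ((Fintype.card V).descFactorial (k + 1) : ℤ)) := by
            rw [Finset.sum_const, nsmul_eq_mul, hnot, mul_comm]
  refine le_trans ?_ hup
  rw [Finset.sum_comm]
  have hne : (univ : Finset (Fin (k + 1))) ≠ {0} := by
    intro h
    have := congrArg Finset.card h
    rw [Finset.card_univ, Fintype.card_fin, Finset.card_singleton] at this
    omega
  have h1 : ∑ x : Fin (k + 1) → V, term s x univ =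
      (2 : ℤ) ^ (k + 1) * (univ.filter fun x : Fin (k + 1) → V =>
        Function.Injective x ∧ Pos s (univ.image x)).card := by
    rw [Finset.card_filter]
    push_cast
    rw [Finset.mul_sum]
    refine Finset.sum_congr rfl fun x _ => ?_
    unfold term
    simp only [Finset.coe_univ, Set.injOn_univ, Finset.card_univ, Fintype.card_fin,
      Finset.compl_univ, Finset.prod_empty, mul_one]
    split_ifs <;> simp
  rw [← h1, ← sum_term_single hs k]
  have h2 : ∑ I ∈ ({univ, {0}} : Finset (Finset (Fin (k + 1)))),
      ∑ x : Fin (k + 1) → V, term s x I ≤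
      ∑ I : Finset (Fin (k + 1)), ∑ x : Fin (k + 1) → V, term s x I :=
    Finset.sum_le_sum_of_subset_of_nonneg (Finset.subset_univ _)
      fun I _ _ => sum_x_nonneg hs hm I
  rw [Finset.sum_pair hne] at h2
  exact h2

theorem count_sets' {V : Type*} [DecidableEq V] [Fintype V] {s : V → V → ℤ} (hs : IsSgn s)
    {k : ℕ} (hk : 1 ≤ k) (hm : Odd (k + 1)) (F : Finset (Finset V))
    (hF : ∀ S ∈ F, S.card = k + 1 ∧ Pos s S) :
    (2 : ℤ) ^ (k + 1) * ((k + 1).factorial * F.card) + 2 * ∑ v, (∑ u, s u v) ^ k ≤
      2 * ((Fintype.card V).descFactorial (k + 1) : ℤ) +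
        3 ^ (k + 1) * ((Fintype.card V : ℤ) ^ (k + 1) -
          ((Fintype.card V).descFactorial (k + 1) : ℤ)) := by
  classical
  refine le_trans ?_ (count_maps' hs hk hm)
  apply add_le_add_left
  apply mul_le_mul_of_nonneg_left _ (by positivity)
  have h1 : (k + 1).factorial * F.card ≤ (univ.filter fun x : Fin (k + 1) → V =>
        Function.Injective x ∧ Pos s (univ.image x)).card := by
    calc (k + 1).factorial * F.card = ∑ S ∈ F, (k + 1).factorial := by
          rw [Finset.sum_const, smul_eq_mul, mul_comm]
      _ ≤ ∑ S ∈ F, (univ.filter fun x : Fin (k + 1) → V =>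
            Function.Injective x ∧ univ.image x = S).card :=
          Finset.sum_le_sum fun S hS => fiber_card S (hF S hS).1
      _ = (F.biUnion fun S => univ.filter fun x : Fin (k + 1) → V =>
            Function.Injective x ∧ univ.image x = S).card := by
          rw [Finset.card_biUnion]
          intro S _ T _ hST
          refine Finset.disjoint_left.mpr ?_
          intro x hx hx2
          exact hST ((Finset.mem_filter.mp hx).2.2.symm.trans (Finset.mem_filter.mp hx2).2.2)
      _ ≤ _ := by
          apply Finset.card_le_card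
          intro x hx
          obtain ⟨S, hS, hx⟩ := Finset.mem_biUnion.mp hx
          obtain ⟨_, hx1, hx2⟩ := Finset.mem_filter.mp hx
          refine Finset.mem_filter.mpr ⟨Finset.mem_univ _, hx1, ?_⟩
          rw [hx2]
          exact (hF S hS).2
  exact_mod_cast h1

end Pool.Agent.U991.Car
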