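import Pool.Agent.U991.Car.Bal

/-!
Limits maximising the density of a carousel tournament are balanced: the limit argument.
-/

namespace Pool.Agent.U991.Car

open Finset Filter Topology

set_option linter.unusedSectionVars false

theorem hs_eq {n : ℕ} (V : Tournament n) (z v : Fin n) : hs V z v = ((sg V z v : ℤ) : ℝ) := by
  classical
  unfold hs sg
  by_cases h : z = v
  · subst h
    simp [V.irrefl z]
  · have h1 := V.one_arc z v h
    by_cases h2 : V.adj z v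
    · simp [h, h2]
    · have h3 : V.adj v z := by
        by_contra h4
        exact h2 (h1.mpr h4)
      simp [h, h2, h3]

theorem real_bound {n N : ℕ} (U : Tournament N) (hn : 1 ≤ n) (hN : 2 * n + 1 ≤ N) :
    2 * ((∑ v, (∑ z, hs U z v) ^ (2 * n)) / (N : ℝ) ^ (2 * n + 1)) ≤
      2 * ((N.descFactorial (2 * n + 1) : ℝ) / (N : ℝ) ^ (2 * n + 1)) +
      3 ^ (2 * n + 1) * (1 - (N.descFactorial (2 * n + 1) : ℝ) / (N : ℝ) ^ (2 * n + 1)) -
      2 ^ (2 * n + 1) * (density (carousel n) U *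
        ((N.descFactorial (2 * n + 1) : ℝ) / (N : ℝ) ^ (2 * n + 1))) := by
  classical
  set F := (univ.powersetCard (2 * n + 1)).filter fun S : Finset (Fin N) =>
    Induces (carousel n) U S with hF
  have h1 := count_sets' (sg_isSgn U) (k := 2 * n) (by omega) ⟨n, rfl⟩ F (fun S hS => by
    rw [hF, Finset.mem_filter, Finset.mem_powersetCard] at hS
    exact ⟨hS.1.2, pos_of_induces U S hS.2⟩)
  rw [Fintype.card_fin] at h1
  have hDc : (N.descFactorial (2 * n + 1) : ℝ) = (2 * n + 1).factorial * N.choose (2 * n + 1) := by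
    exact_mod_cast Nat.descFactorial_eq_factorial_mul_choose N (2 * n + 1)
  have h2 : (2 : ℝ) ^ (2 * n + 1) * ((2 * n + 1).factorial * F.card) +
      2 * ∑ v, (∑ z, hs U z v) ^ (2 * n) ≤
      2 * (N.descFactorial (2 * n + 1) : ℝ) +
        3 ^ (2 * n + 1) * ((N : ℝ) ^ (2 * n + 1) - (N.descFactorial (2 * n + 1) : ℝ)) := by
    simp_rw [hs_eq]
    exact_mod_cast h1
  have hch : (0 : ℝ) < (N.choose (2 * n + 1) : ℝ) := by
    have : 0 < N.choose (2 * n + 1) := Nat.choose_pos hN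
    exact_mod_cast this
  have hP : (0 : ℝ) < (N : ℝ) ^ (2 * n + 1) := by
    have : (0 : ℝ) < (N : ℝ) := by
      have : 0 < N := by omega
      exact_mod_cast this
    positivity
  have h3 : density (carousel n) U *
      ((N.descFactorial (2 * n + 1) : ℝ) / (N : ℝ) ^ (2 * n + 1)) =
      ((2 * n + 1).factorial * F.card) / (N : ℝ) ^ (2 * n + 1) := by
    unfold density
    rw [hDc, ← hF]
    field_simp
  rw [h3]
  set P : ℝ := (N : ℝ) ^ (2 * n + 1) with hPdef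
  set D : ℝ := (N.descFactorial (2 * n + 1) : ℝ) with hD
  set A : ℝ := ∑ v, (∑ z, hs U z v) ^ (2 * n) with hA
  set G : ℝ := ((2 * n + 1).factorial * F.card : ℝ) with hG
  have e : 2 * (D / P) + 3 ^ (2 * n + 1) * (1 - D / P) - 2 ^ (2 * n + 1) * (G / P) =
      (2 * D + 3 ^ (2 * n + 1) * (P - D) - 2 ^ (2 * n + 1) * G) / P := by
    field_simp
  rw [e, ← mul_div_assoc]
  apply div_le_div_of_nonneg_right _ hP.le
  linarith

section
variable {N : ℕ → ℕ} (U : (m : ℕ) → Tournament (N m)) (hN : StrictMono N)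
include hN

theorem bal_of_max {n : ℕ} (hn : 1 ≤ n) {c : ℝ} (hc : (1 / 4 : ℝ) ^ n ≤ c)
    (h : Tendsto (fun m => density (carousel n) (U m)) atTop (𝓝 c)) :
    E U (fun M : Pt 3 => ((sM M 0 2 : ℤ) : ℝ) * ((sM M 1 2 : ℤ) : ℝ)) = 0 := by
  have hL := tendsto_E U (fun M : Pt 3 => ((sM M 0 2 : ℤ) : ℝ) * ((sM M 1 2 : ℤ) : ℝ))
  set L := E U (fun M : Pt 3 => ((sM M 0 2 : ℤ) : ℝ) * ((sM M 1 2 : ℤ) : ℝ)) with hLdef
  have e1 : ∀ m, av (U m) (fun M : Pt 3 => ((sM M 0 2 : ℤ) : ℝ) * ((sM M 1 2 : ℤ) : ℝ)) =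
      (∑ v, (∑ z, hs (U m) z v) ^ 2) / (N m : ℝ) ^ 3 := by
    intro m
    unfold av
    congr 1
    simp_rw [sM_pull]
    rw [sum_cons, sum_cons, sum_cons, Fintype.sum_unique]
    refine Finset.sum_congr rfl fun v _ => ?_
    rw [sq, Finset.sum_mul_sum, Finset.sum_comm]
    rfl
  have hL0 : 0 ≤ L := by
    refine ge_of_tendsto' hL fun m => ?_
    rw [e1]
    exact div_nonneg (Finset.sum_nonneg fun _ _ => sq_nonneg _) (by positivity)
  have hr : Tendsto (fun m => ((N m).descFactorial (2 * n + 1) : ℝ) /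
      ((N m : ℕ) : ℝ) ^ (2 * n + 1)) (𝒰 : Filter ℕ) (𝓝 1) :=
    ((desc_tendsto (2 * n + 1)).comp hN.tendsto_atTop).mono_left 𝒰_le
  have hd := (h.mono_left 𝒰_le).mul hr
  have hB := ((hr.const_mul 2).add ((hr.const_sub 1).const_mul ((3 : ℝ) ^ (2 * n + 1)))).sub
    (hd.const_mul ((2 : ℝ) ^ (2 * n + 1)))
  have hLn := (hL.pow n).const_mul 2
  have hle := le_of_tendsto_of_tendsto hLn hB (by
    have h3 : ∀ᶠ m in (𝒰 : Filter ℕ), 2 * n + 1 ≤ N m :=
      (hN.tendsto_atTop.eventually_ge_atTop (2 * n + 1)).filter_mono 𝒰_le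
    filter_upwards [h3] with m hm
    refine le_trans ?_ (real_bound (U m) hn hm)
    apply mul_le_mul_of_nonneg_left _ (by norm_num)
    rw [e1]
    obtain ⟨j, rfl⟩ : ∃ j, n = j + 1 := ⟨n - 1, by omega⟩
    have hj := pow_sum_div_card_le_sum_pow (s := (univ : Finset (Fin (N m))))
      (f := fun v => (∑ z, hs (U m) z v) ^ 2) (fun _ _ => sq_nonneg _) j
    rw [Finset.card_univ, Fintype.card_fin] at hj
    have hNpos : (0 : ℝ) < (N m : ℝ) := by
      have : 0 < N m := by omega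
      exact_mod_cast this
    have e2 : ((∑ v, (∑ z, hs (U m) z v) ^ 2) / (N m : ℝ) ^ 3) ^ (j + 1) =
        ((∑ v, (∑ z, hs (U m) z v) ^ 2) ^ (j + 1) / (N m : ℝ) ^ j) /
          (N m : ℝ) ^ (2 * (j + 1) + 1) := by
      rw [div_pow, div_div, ← pow_mul, ← pow_add]
      congr 2
      ring
    rw [e2]
    apply div_le_div_of_nonneg_right _ (by positivity)
    refine hj.trans (le_of_eq ?_)
    refine Finset.sum_congr rfl fun v _ => ?_
    rw [← pow_mul])
  have h4 : (1 / 4 : ℝ) ^ n * 2 ^ (2 * n + 1) = 2 := by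
    rw [pow_succ, pow_mul, ← mul_assoc, ← mul_pow]
    norm_num
  have h5 : (0 : ℝ) < 2 ^ (2 * n + 1) := by positivity
  have h6 : L ^ n ≤ 0 := by nlinarith
  rcases eq_or_lt_of_le hL0 with h7 | h7
  · exact h7.symm
  · exact absurd h6 (not_le.mpr (pow_pos h7 n))

end

theorem cyc_iso (M : Pt 3) (hM : IsT M) (h01 : M 0 1 = true) (h12 : M 1 2 = true)
    (h02 : M 0 2 = false) : ∃ σ : Equiv.Perm (Fin 3), ∀ i j : Fin 3, M (σ i) (σ j) =
      decide (((i : ℕ) < j ∧ (j : ℕ) - i ≤ 1) ∨ ((j : ℕ) < i ∧ 1 + 1 ≤ (i : ℕ) - j)) := by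
  have h10 : M 1 0 = false := by rw [hM.2 1 0 (by decide), h01]; rfl
  have h21 : M 2 1 = false := by rw [hM.2 2 1 (by decide), h12]; rfl
  have h20 : M 2 0 = true := by rw [hM.2 2 0 (by decide), h02]; rfl
  have h00 := hM.1 0
  have h11 := hM.1 1
  have h22 := hM.1 2
  refine ⟨Equiv.refl _, fun i j => ?_⟩
  fin_cases i <;> fin_cases j <;> simp [h00, h01, h02, h10, h11, h12, h20, h21, h22]

theorem isoI_one (M : Pt 3) (h : ∃ σ : Equiv.Perm (Fin 3), ∀ i j : Fin 3, M (σ i) (σ j) =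
      decide (((i : ℕ) < j ∧ (j : ℕ) - i ≤ 1) ∨ ((j : ℕ) < i ∧ 1 + 1 ≤ (i : ℕ) - j))) :
    isoI (carousel 1) M = 1 := by
  classical
  unfold isoI
  rw [if_pos]
  obtain ⟨σ, hσ⟩ := h
  refine ⟨σ, fun i j => ?_⟩
  refine (hσ i j).trans ?_
  rw [decide_eq_decide]
  exact (carousel_adj (n := 1) i j).symm

theorem isoI_nonneg {k : ℕ} (T : Tournament k) (M : Pt k) : 0 ≤ isoI T M := by
  unfold isoI
  split_ifs <;> norm_num

/-- The centred product. -/
noncomputable def gg (M : Pt 3) : ℝ := ((sM M 0 2 : ℤ) : ℝ) * ((sM M 1 2 : ℤ) : ℝ)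

theorem cyc_le (M : Pt 3) (hM : IsT M) :
    (1 / 4 : ℝ) * (1 + (-1) * (gg M + (gg (Pt.perm (Equiv.swap 1 2) M) +
      gg (Pt.perm (Equiv.swap 0 2) M)))) ≤ isoI (carousel 1) M := by
  have p0 : (Equiv.swap (1 : Fin 3) 2) 0 = 0 := by decide
  have p1 : (Equiv.swap (1 : Fin 3) 2) 1 = 2 := by decide
  have p2 : (Equiv.swap (1 : Fin 3) 2) 2 = 1 := by decide
  have q0 : (Equiv.swap (0 : Fin 3) 2) 0 = 2 := by decide
  have q1 : (Equiv.swap (0 : Fin 3) 2) 1 = 1 := by decide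
  have q2 : (Equiv.swap (0 : Fin 3) 2) 2 = 0 := by decide
  have e : gg M + (gg (Pt.perm (Equiv.swap 1 2) M) + gg (Pt.perm (Equiv.swap 0 2) M)) =
      ((sM M 0 2 * sM M 1 2 + (sM M 0 1 * sM M 2 1 + sM M 2 0 * sM M 1 0) : ℤ) : ℝ) := by
    unfold gg
    simp only [sM, Pt.perm, p0, p1, p2, q0, q1, q2]
    push_cast
    rfl
  rw [e]
  rcases Bool.eq_false_or_eq_true (M 0 1) with h01 | h01 <;>
    rcases Bool.eq_false_or_eq_true (M 1 2) with h12 | h12 <;>
    rcases Bool.eq_false_or_eq_true (M 0 2) with h02 | h02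
  all_goals
    have h10 := hM.2 1 0 (by decide)
    have h21 := hM.2 2 1 (by decide)
    have h20 := hM.2 2 0 (by decide)
    rw [h01] at h10
    rw [h12] at h21
    rw [h02] at h20
  · refine le_trans (le_of_eq ?_) (isoI_nonneg _ _)
    simp [sM, h01, h12, h02, h10, h21, h20]
  · rw [isoI_one M (cyc_iso M hM h01 h12 h02)]
    simp [sM, h01, h12, h02, h10, h21, h20]
    norm_num
  · refine le_trans (le_of_eq ?_) (isoI_nonneg _ _)
    simp [sM, h01, h12, h02, h10, h21, h20]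
  · refine le_trans (le_of_eq ?_) (isoI_nonneg _ _)
    simp [sM, h01, h12, h02, h10, h21, h20]
  · refine le_trans (le_of_eq ?_) (isoI_nonneg _ _)
    simp [sM, h01, h12, h02, h10, h21, h20]
  · refine le_trans (le_of_eq ?_) (isoI_nonneg _ _)
    simp [sM, h01, h12, h02, h10, h21, h20]
  · have hcyc : ∃ σ : Equiv.Perm (Fin 3), ∀ i j : Fin 3, M (σ i) (σ j) =
        decide (((i : ℕ) < j ∧ (j : ℕ) - i ≤ 1) ∨ ((j : ℕ) < i ∧ 1 + 1 ≤ (i : ℕ) - j)) := by
      obtain ⟨σ, hσ⟩ := cyc_iso (Pt.perm (Equiv.swap 1 2) M)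
        ⟨fun i => hM.1 _, fun i j hij => hM.2 _ _ fun e => hij ((Equiv.swap 1 2).injective e)⟩
        (by simp only [Pt.perm, p0, p1]; exact h02)
        (by simp only [Pt.perm, p1, p2]; exact h21)
        (by simp only [Pt.perm, p0, p2]; exact h01)
      exact ⟨σ.trans (Equiv.swap 1 2), hσ⟩
    rw [isoI_one M hcyc]
    simp [sM, h01, h12, h02, h10, h21, h20]
    norm_num
  · refine le_trans (le_of_eq ?_) (isoI_nonneg _ _)
    simp [sM, h01, h12, h02, h10, h21, h20]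

/-- Every limit that maximises the density of some carousel tournament on at least three
vertices is balanced. -/
theorem max_balanced (φ : (k : ℕ) → Tournament k → ℝ) (hφ : IsLimit φ) {n : ℕ} (hn : 1 ≤ n)
    (h : (1 / 4 : ℝ) ^ n ≤ φ (2 * n + 1) (carousel n)) : φ 3 (carousel 1) = 1 / 4 := by
  have hup : φ 3 (carousel 1) ≤ 1 / 4 := by
    have := limit_bound φ hφ 1
    rw [pow_one] at this
    exact this
  obtain ⟨N, U, hN, hlim⟩ := hφ
  have hb : E U gg = 0 := bal_of_max U hN hn h (hlim (2 * n + 1) (carousel n))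
  have h1 : E U (isoI (carousel 1)) = φ 3 (carousel 1) := E_isoI U hN (carousel 1) (hlim 3 _)
  have h2 : E U (fun M : Pt 3 => (1 / 4 : ℝ) * (1 + (-1) * (gg M +
      (gg (Pt.perm (Equiv.swap 1 2) M) + gg (Pt.perm (Equiv.swap 0 2) M))))) ≤
      E U (isoI (carousel 1)) := E_le U hN _ _ fun M hM => cyc_le M hM
  have h3 : E U (fun M : Pt 3 => (1 / 4 : ℝ) * (1 + (-1) * (gg M +
      (gg (Pt.perm (Equiv.swap 1 2) M) + gg (Pt.perm (Equiv.swap 0 2) M))))) = 1 / 4 := by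
    rw [E_smul, E_add, E_smul, E_add, E_add, E_perm U (Equiv.swap 1 2) gg,
      E_perm U (Equiv.swap 0 2) gg, hb, E_one U hN]
    norm_num
  rw [h3, h1] at h2
  exact le_antisymm hup h2

end Pool.Agent.U991.Car
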