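import Pool.Agent.U991.Car.Lin

/-!
The bipartisan set of a finite tournament: every nonempty `S` has exactly one subset `K` with a
positive kernel vector which is dominated by nobody in `S` outside `K`.
-/

namespace Pool.Agent.U991.Car

open Finset Matrix

set_option linter.unusedSectionVars false

/-- The quadratic form of a skew matrix vanishes. -/
theorem skew_form {W : Type*} [Fintype W] (A : W → W → ℝ) (hA : ∀ u v, A u v = - A v u)
    (y : W → ℝ) : ∑ u, y u * ∑ v, A u v * y v = 0 := by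
  have h : ∑ u, y u * ∑ v, A u v * y v = - ∑ u, y u * ∑ v, A u v * y v := by
    calc ∑ u, y u * ∑ v, A u v * y v = ∑ u, ∑ v, y u * (A u v * y v) := by
          simp_rw [Finset.mul_sum]
      _ = ∑ v, ∑ u, y u * (A u v * y v) := Finset.sum_comm
      _ = ∑ v, ∑ u, -(y v * (A v u * y u)) := by
          refine Finset.sum_congr rfl fun v _ => Finset.sum_congr rfl fun u _ => ?_
          rw [hA u v]; ring
      _ = - ∑ u, y u * ∑ v, A u v * y v := by
          simp_rw [Finset.sum_neg_distrib, Finset.mul_sum]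
  linarith

/-- Optimal strategy of a symmetric game. -/
theorem exists_opt {W : Type*} [Fintype W] [Nonempty W] (A : W → W → ℝ)
    (hA : ∀ u v, A u v = - A v u) :
    ∃ x ∈ stdSimplex ℝ W, ∀ u, ∑ v, A u v * x v ≤ 0 := by
  classical
  by_contra hcon
  push Not at hcon
  let L : (W → ℝ) →ₗ[ℝ] (W → ℝ) := Matrix.mulVecLin (Matrix.of A)
  have hLap : ∀ x u, L x u = ∑ v, A u v * x v := fun x u => by
    simp [L, Matrix.mulVecLin, Matrix.mulVec, dotProduct]
  have hcont : Continuous L := L.continuous_of_finiteDimensional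
  have hs1 : Convex ℝ (L '' stdSimplex ℝ W) := (convex_stdSimplex ℝ W).linear_image L
  have hs2 : IsCompact (L '' stdSimplex ℝ W) := (isCompact_stdSimplex ℝ W).image hcont
  let t : Set (W → ℝ) := {z | ∀ u, z u ≤ 0}
  have ht1 : Convex ℝ t := by
    intro z hz w hw a b ha hb hab u
    have h1 := hz u
    have h2 := hw u
    simp only [Pi.add_apply, Pi.smul_apply, smul_eq_mul]
    nlinarith
  have ht2 : IsClosed t := by
    have : t = ⋂ u, {z : W → ℝ | z u ≤ 0} := by
      ext z; simp [t]
    rw [this]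
    exact isClosed_iInter fun u => isClosed_le (continuous_apply u) continuous_const
  have hdisj : Disjoint (L '' stdSimplex ℝ W) t := by
    rw [Set.disjoint_left]
    rintro _ ⟨x, hx, rfl⟩ hxt
    obtain ⟨u, hu⟩ := hcon x hx
    have := hxt u
    rw [hLap] at this
    linarith
  obtain ⟨f, a, b, hfa, hab, hfb⟩ := geometric_hahn_banach_compact_closed hs1 hs2 ht1 ht2 hdisj
  have hb0 : b < 0 := by
    have := hfb 0 (by intro u; simp)
    simpa using this
  -- coefficients
  let c : W → ℝ := fun u => f (Pi.single u 1)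
  have hfc : ∀ z : W → ℝ, f z = ∑ u, z u * c u := by
    intro z
    have hz : z = ∑ u, z u • (Pi.single u (1 : ℝ) : W → ℝ) := by
      ext w
      simp [Finset.sum_apply, Pi.single_apply]
    conv_lhs => rw [hz]
    rw [map_sum]
    refine Finset.sum_congr rfl fun u _ => ?_
    rw [map_smul, smul_eq_mul]
  have hc : ∀ u, c u ≤ 0 := by
    intro u
    by_contra hpos
    push Not at hpos
    have h1 := hfb (fun w => if w = u then b / c u else 0) (by
      intro w
      by_cases hw : w = u
      · simp only [hw, if_true]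
        exact (div_neg_of_neg_of_pos hb0 hpos).le
      · simp [hw])
    rw [hfc] at h1
    simp only [ite_mul, zero_mul, Finset.sum_ite_eq', Finset.mem_univ, if_true] at h1
    rw [div_mul_cancel₀ _ hpos.ne'] at h1
    exact lt_irrefl _ h1
  -- normalise
  set C : ℝ := ∑ u, -c u with hC
  have hCpos : 0 < C := by
    have h0 : 0 ≤ C := Finset.sum_nonneg fun u _ => by linarith [hc u]
    rcases h0.lt_or_eq with h | h
    · exact h
    · exfalso
      have hz : ∀ u, c u = 0 := by
        intro u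
        have := (Finset.sum_eq_zero_iff_of_nonneg (fun u _ => by linarith [hc u])).mp h.symm u
          (Finset.mem_univ u)
        linarith
      obtain ⟨w⟩ := ‹Nonempty W›
      have hsing : (Pi.single w (1 : ℝ) : W → ℝ) ∈ stdSimplex ℝ W := by
        constructor
        · intro u
          by_cases h : u = w
          · subst h; simp
          · simp [h]
        · simp
      have h1 := hfa (L (Pi.single w 1)) ⟨_, hsing, rfl⟩
      rw [hfc] at h1
      simp only [hz, mul_zero, Finset.sum_const_zero] at h1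
      linarith
  let x : W → ℝ := fun u => -c u / C
  have hx : x ∈ stdSimplex ℝ W := by
    constructor
    · intro u
      exact div_nonneg (by linarith [hc u]) hCpos.le
    · simp only [x]
      rw [← Finset.sum_div, ← hC]
      exact div_self hCpos.ne'
  have h1 := hfa (L x) ⟨x, hx, rfl⟩
  have h2 : f (L x) = -C * ∑ u, x u * ∑ v, A u v * x v := by
    rw [hfc, Finset.mul_sum]
    refine Finset.sum_congr rfl fun u _ => ?_
    rw [hLap]
    have : c u = -C * x u := by
      simp only [x]
      field_simp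
    rw [this]
    ring
  rw [h2, skew_form A hA, mul_zero] at h1
  linarith

variable {V : Type*} [DecidableEq V] {s : V → V → ℤ}

theorem skew_form_fin (hs : IsSgn s) (S : Finset V) (y : V → ℝ) :
    ∑ u ∈ S, y u * ∑ v ∈ S, (s u v : ℝ) * y v = 0 := by
  have := skew_form (W := S) (fun u v => (s u v : ℝ)) (fun u v => by
    rw [hs.skew u v]; push_cast; ring) (fun u => y u)
  rw [← Finset.sum_coe_sort S]
  rw [← this]
  refine Finset.sum_congr rfl fun u _ => ?_
  rw [← Finset.sum_coe_sort S]

theorem skew_pair (hs : IsSgn s) (S : Finset V) (x y : V → ℝ) :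
    ∑ u ∈ S, y u * ∑ v ∈ S, (s u v : ℝ) * x v
      = - ∑ u ∈ S, x u * ∑ v ∈ S, (s u v : ℝ) * y v := by
  calc ∑ u ∈ S, y u * ∑ v ∈ S, (s u v : ℝ) * x v
      = ∑ u ∈ S, ∑ v ∈ S, y u * ((s u v : ℝ) * x v) := by simp_rw [Finset.mul_sum]
    _ = ∑ v ∈ S, ∑ u ∈ S, y u * ((s u v : ℝ) * x v) := Finset.sum_comm
    _ = ∑ v ∈ S, ∑ u ∈ S, -(x v * ((s v u : ℝ) * y u)) := by
        refine Finset.sum_congr rfl fun v _ => Finset.sum_congr rfl fun u _ => ?_
        rw [hs.skew u v]; push_cast; ring
    _ = - ∑ u ∈ S, x u * ∑ v ∈ S, (s u v : ℝ) * y v := by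
        simp_rw [Finset.sum_neg_distrib, Finset.mul_sum]

/-- Existence of the bipartisan set. -/
theorem exists_bip (hs : IsSgn s) (S : Finset V) (hS : S.Nonempty) :
    ∃ K ⊆ S, Pos s K ∧ ∀ u ∈ S \ K, fs s K u = -1 := by
  have : Nonempty S := hS.to_subtype
  obtain ⟨x, hx, hx2⟩ := exists_opt (W := S) (fun u v => (s u v : ℝ)) (fun u v => by
    rw [hs.skew u v]; push_cast; ring)
  -- extension by zero
  let y : V → ℝ := fun v => if h : v ∈ S then x ⟨v, h⟩ else 0
  have hyx : ∀ v : S, y v = x v := fun v => by simp [y]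
  have hy0 : ∀ v ∈ S, 0 ≤ y v := fun v hv => by
    have := hx.1 ⟨v, hv⟩
    rw [hyx ⟨v, hv⟩]
    exact this
  have hysum : ∑ v ∈ S, y v = 1 := by
    rw [← Finset.sum_coe_sort S, ← hx.2]
    exact Finset.sum_congr rfl fun v _ => hyx v
  have hyA : ∀ u ∈ S, ∑ v ∈ S, (s u v : ℝ) * y v ≤ 0 := fun u hu => by
    have := hx2 ⟨u, hu⟩
    rw [← Finset.sum_coe_sort S]
    refine le_trans (le_of_eq ?_) this
    exact Finset.sum_congr rfl fun v _ => by rw [hyx v]
  have hform := skew_form_fin hs S y
  have hterm : ∀ u ∈ S, y u * ∑ v ∈ S, (s u v : ℝ) * y v = 0 := by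
    have h1 : ∀ u ∈ S, y u * ∑ v ∈ S, (s u v : ℝ) * y v ≤ 0 := fun u hu =>
      mul_nonpos_of_nonneg_of_nonpos (hy0 u hu) (hyA u hu)
    exact (Finset.sum_eq_zero_iff_of_nonpos h1).mp hform
  let K : Finset V := S.filter fun v => 0 < y v
  have hKS : K ⊆ S := Finset.filter_subset _ _
  have hsumK : ∀ u, ∑ v ∈ K, (s u v : ℝ) * y v = ∑ v ∈ S, (s u v : ℝ) * y v := by
    intro u
    refine Finset.sum_subset hKS fun v hv hvK => ?_
    have : y v = 0 := by
      by_contra hne
      exact hvK (Finset.mem_filter.mpr ⟨hv, lt_of_le_of_ne (hy0 v hv) (Ne.symm hne)⟩)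
    rw [this, mul_zero]
  have hposK : ∀ v ∈ K, 0 < y v := fun v hv => (Finset.mem_filter.mp hv).2
  have hkerK : ∀ u ∈ K, ∑ v ∈ K, (s u v : ℝ) * y v = 0 := by
    intro u hu
    rw [hsumK]
    have := hterm u (hKS hu)
    rcases mul_eq_zero.mp this with h | h
    · exact absurd h (hposK u hu).ne'
    · exact h
  have hne : K.Nonempty := by
    by_contra hemp
    rw [Finset.not_nonempty_iff_eq_empty] at hemp
    have : ∑ v ∈ S, y v = 0 := Finset.sum_eq_zero fun v hv => by
      by_contra hne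
      have : v ∈ K := Finset.mem_filter.mpr ⟨hv, lt_of_le_of_ne (hy0 v hv) (Ne.symm hne)⟩
      rw [hemp] at this
      simp at this
    linarith
  have hPos : Pos s K := ⟨hne, y, hposK, hkerK⟩
  refine ⟨K, hKS, hPos, fun u hu => ?_⟩
  obtain ⟨huS, huK⟩ := Finset.mem_sdiff.mp hu
  rw [fs_eq hs hPos y hposK hkerK]
  apply sign_neg
  refine lt_of_le_of_ne ?_ (out_ne_zero hs hPos y hposK hkerK huK)
  rw [hsumK]
  exact hyA u huS

/-- Uniqueness of the bipartisan set. -/
theorem bip_unique (hs : IsSgn s) (S K K' : Finset V) (hK : K ⊆ S) (hK' : K' ⊆ S)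
    (hP : Pos s K) (hP' : Pos s K') (hf : ∀ u ∈ S \ K, fs s K u = -1)
    (hf' : ∀ u ∈ S \ K', fs s K' u = -1) : K = K' := by
  -- extend kernel vectors by zero
  have key : ∀ (K K' : Finset V), K ⊆ S → K' ⊆ S → Pos s K → Pos s K' →
      (∀ u ∈ S \ K, fs s K u = -1) →
      ∑ u ∈ S, (if u ∈ K' then kv s K' u else 0) *
        ∑ v ∈ S, (s u v : ℝ) * (if v ∈ K then kv s K v else 0) ≤ 0 ∧
      (∑ u ∈ S, (if u ∈ K' then kv s K' u else 0) *
        ∑ v ∈ S, (s u v : ℝ) * (if v ∈ K then kv s K v else 0) = 0 → K' ⊆ K) := by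
    intro K K' hK hK' hP hP' hf
    have hin : ∀ u, ∑ v ∈ S, (s u v : ℝ) * (if v ∈ K then kv s K v else 0)
        = ∑ v ∈ K, (s u v : ℝ) * kv s K v := by
      intro u
      rw [← Finset.sum_subset hK]
      · exact Finset.sum_congr rfl fun v hv => by rw [if_pos hv]
      · intro v _ hv
        rw [if_neg hv, mul_zero]
    have hterm : ∀ u ∈ S, (if u ∈ K' then kv s K' u else 0) *
        ∑ v ∈ S, (s u v : ℝ) * (if v ∈ K then kv s K v else 0) ≤ 0 := by
      intro u hu
      rw [hin]
      by_cases huK : u ∈ K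
      · rw [kv_ker hP u huK, mul_zero]
      · have h1 := hf u (Finset.mem_sdiff.mpr ⟨hu, huK⟩)
        unfold fs at h1
        rw [sign_eq_neg_one_iff] at h1
        split_ifs with h
        · exact mul_nonpos_of_nonneg_of_nonpos (kv_pos hP' u h).le h1.le
        · simp
    refine ⟨Finset.sum_nonpos hterm, fun h0 u hu => ?_⟩
    by_contra huK
    have h2 := (Finset.sum_eq_zero_iff_of_nonpos hterm).mp h0 u (hK' hu)
    rw [hin, if_pos hu] at h2
    have h1 := hf u (Finset.mem_sdiff.mpr ⟨hK' hu, huK⟩)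
    unfold fs at h1
    rw [sign_eq_neg_one_iff] at h1
    have h3 := kv_pos hP' u hu
    rcases mul_eq_zero.mp h2 with h | h
    · linarith
    · linarith
  obtain ⟨a1, a2⟩ := key K K' hK hK' hP hP' hf
  obtain ⟨b1, b2⟩ := key K' K hK' hK hP' hP hf'
  have h := skew_pair hs S (fun v => if v ∈ K then kv s K v else 0)
    (fun v => if v ∈ K' then kv s K' v else 0)
  have e1 : ∑ u ∈ S, (if u ∈ K' then kv s K' u else 0) *
        ∑ v ∈ S, (s u v : ℝ) * (if v ∈ K then kv s K v else 0) = 0 := by linarith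
  have e2 : ∑ u ∈ S, (if u ∈ K then kv s K u else 0) *
        ∑ v ∈ S, (s u v : ℝ) * (if v ∈ K' then kv s K' v else 0) = 0 := by linarith
  exact Finset.Subset.antisymm (b2 e2) (a2 e1)

end Pool.Agent.U991.Car
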