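import Pool.Agent.U991.Car.Fin5

/-!
Cauchy-Schwarz consequences.
-/

namespace Pool.Agent.U991.Car

open Finset Filter Topology

set_option linter.unusedSectionVars false

/-- Remove the first vertex. -/
def Pt.tail {k : ℕ} (M : Pt (k + 1)) : Pt k := Pt.perm Fin.succ M

/-- Remove the second vertex of five. -/
def d1 : Fin 4 → Fin 5
  | 0 => 0
  | 1 => 2
  | 2 => 3
  | 3 => 4

theorem sum_cons {k n : ℕ} (G : (Fin (k + 1) → Fin n) → ℝ) :
    ∑ x : Fin (k + 1) → Fin n, G x = ∑ x : Fin k → Fin n, ∑ z : Fin n, G (Fin.cons z x) := by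
  rw [Finset.sum_comm, ← Fintype.sum_prod_type (f := fun p : Fin n × (Fin k → Fin n) =>
    G (Fin.cons p.1 p.2))]
  exact (Equiv.sum_comp (Fin.consEquiv fun _ => Fin n) G).symm

theorem sq_le_of_tendsto {a b : ℕ → ℝ} {x C : ℝ} (ha : Tendsto a (𝒰 : Filter ℕ) (𝓝 x))
    (hb : Tendsto b (𝒰 : Filter ℕ) (𝓝 0)) (h : ∀ᶠ m in (𝒰 : Filter ℕ), (a m) ^ 2 ≤ C * b m) :
    x = 0 := by
  have h1 : x ^ 2 ≤ C * 0 := le_of_tendsto_of_tendsto (ha.pow 2) (hb.const_mul C) h
  rw [mul_zero] at h1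
  nlinarith [sq_nonneg x]

/-- The real sign. -/
noncomputable def hs {n : ℕ} (V : Tournament n) (z v : Fin n) : ℝ := by
  classical
  exact if V.adj z v then 1 else if V.adj v z then -1 else 0

theorem sM_pull {k n : ℕ} (V : Tournament n) (x : Fin k → Fin n) (i j : Fin k) :
    ((sM (pull V x) i j : ℤ) : ℝ) = hs V (x i) (x j) := by
  classical
  unfold sM pull hs
  by_cases h1 : V.adj (x i) (x j)
  · simp [h1]
  · by_cases h2 : V.adj (x j) (x i)
    · simp [h1, h2]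
    · simp [h1, h2]

section
variable {N : ℕ → ℕ} (U : (m : ℕ) → Tournament (N m)) (hN : StrictMono N)
include hN

theorem ev_pos : ∀ᶠ m in (𝒰 : Filter ℕ), (0 : ℝ) < (N m : ℝ) := by
  have : ∀ᶠ m in (𝒰 : Filter ℕ), 1 ≤ N m :=
    (hN.tendsto_atTop.eventually_ge_atTop 1).filter_mono 𝒰_le
  filter_upwards [this] with m hm
  exact_mod_cast hm

/-- Two extra vertices over three. -/
theorem cs3 (f g : Pt 4 → ℝ)
    (h0 : E U (fun M : Pt 5 => f (Pt.perm d1 M) * f (Pt.tail M)) = 0) :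
    E U (fun M : Pt 5 => g (Pt.tail M) * f (Pt.perm d1 M)) = 0 := by
  have hb := tendsto_E U (fun M : Pt 5 => f (Pt.perm d1 M) * f (Pt.tail M))
  rw [h0] at hb
  refine sq_le_of_tendsto (C := (bd g) ^ 2) (tendsto_E U _) hb ?_
  filter_upwards [ev_pos hN] with m hm
  set V := U m
  have hpt : ∀ (z y : Fin (N m)) (K : Fin 3 → Fin (N m)),
      Pt.perm d1 (pull V (Fin.cons z (Fin.cons y K) : Fin 5 → Fin (N m))) =
        pull V (Fin.cons z K : Fin 4 → Fin (N m)) := by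
    intro z y K
    rw [pull_perm]
    congr 1
    funext i
    fin_cases i <;> rfl
  have htl : ∀ (z y : Fin (N m)) (K : Fin 3 → Fin (N m)),
      Pt.tail (pull V (Fin.cons z (Fin.cons y K) : Fin 5 → Fin (N m))) =
        pull V (Fin.cons y K : Fin 4 → Fin (N m)) := by
    intro z y K
    rw [Pt.tail, pull_perm]
    congr 1
  set F : (Fin 3 → Fin (N m)) → ℝ := fun K => ∑ z, f (pull V (Fin.cons z K : Fin 4 → Fin (N m)))
    with hF
  set G : (Fin 3 → Fin (N m)) → ℝ := fun K => ∑ z, g (pull V (Fin.cons z K : Fin 4 → Fin (N m)))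
    with hG
  have e1 : av V (fun M : Pt 5 => f (Pt.perm d1 M) * f (Pt.tail M)) =
      (∑ K, F K ^ 2) / (N m : ℝ) ^ 5 := by
    unfold av
    rw [sum_cons, sum_cons]
    congr 1
    refine Finset.sum_congr rfl fun K _ => ?_
    simp_rw [hpt, htl]
    rw [hF]
    simp only
    rw [sq, Finset.sum_mul_sum]
    rw [Finset.sum_comm]
  have e2 : av V (fun M : Pt 5 => g (Pt.tail M) * f (Pt.perm d1 M)) =
      (∑ K, G K * F K) / (N m : ℝ) ^ 5 := by
    unfold av
    rw [sum_cons, sum_cons]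
    congr 1
    refine Finset.sum_congr rfl fun K _ => ?_
    simp_rw [hpt, htl]
    rw [hF, hG]
    simp only
    rw [Finset.sum_mul_sum]
  have hGb : ∑ K, G K ^ 2 ≤ (N m : ℝ) ^ 5 * (bd g) ^ 2 := by
    have h1 : ∀ K, G K ^ 2 ≤ ((N m : ℝ) * bd g) ^ 2 := by
      intro K
      have : |G K| ≤ (N m : ℝ) * bd g := by
        calc |G K| ≤ ∑ z, |g (pull V (Fin.cons z K : Fin 4 → Fin (N m)))| :=
              Finset.abs_sum_le_sum_abs _ _
          _ ≤ ∑ _z : Fin (N m), bd g := Finset.sum_le_sum fun _ _ => le_bd g _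
          _ = (N m : ℝ) * bd g := by
              rw [Finset.sum_const, Finset.card_univ, Fintype.card_fin, nsmul_eq_mul]
      rw [← sq_abs (G K)]
      exact pow_le_pow_left₀ (abs_nonneg _) this 2
    calc ∑ K, G K ^ 2 ≤ ∑ _K : Fin 3 → Fin (N m), ((N m : ℝ) * bd g) ^ 2 :=
          Finset.sum_le_sum fun K _ => h1 K
      _ = (N m : ℝ) ^ 5 * (bd g) ^ 2 := by
          rw [Finset.sum_const, Finset.card_univ, Fintype.card_fun, Fintype.card_fin,
            Fintype.card_fin, nsmul_eq_mul]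
          push_cast
          ring
  have hcs := Finset.sum_mul_sq_le_sq_mul_sq univ G F
  rw [e1, e2, div_pow, ← mul_div_assoc, div_le_div_iff₀ (by positivity) (by positivity)]
  have hF0 : 0 ≤ ∑ K, F K ^ 2 := Finset.sum_nonneg fun _ _ => sq_nonneg _
  have h5 : (0 : ℝ) < (N m : ℝ) ^ 5 := by positivity
  calc (∑ K, G K * F K) ^ 2 * (N m : ℝ) ^ 5
      ≤ ((∑ K, G K ^ 2) * ∑ K, F K ^ 2) * (N m : ℝ) ^ 5 :=
        mul_le_mul_of_nonneg_right hcs h5.le
    _ ≤ (((N m : ℝ) ^ 5 * (bd g) ^ 2) * ∑ K, F K ^ 2) * (N m : ℝ) ^ 5 :=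
        mul_le_mul_of_nonneg_right (mul_le_mul_of_nonneg_right hGb hF0) h5.le
    _ = (bd g) ^ 2 * (∑ K, F K ^ 2) * ((N m : ℝ) ^ 5) ^ 2 := by ring

theorem bal_of_P1 (h0 : E U (fun M : Pt 5 => ((P1v M 0 1 2 3 4 : ℤ) : ℝ)) = 0) :
    E U (fun M : Pt 3 => ((sM M 0 2 : ℤ) : ℝ) * ((sM M 1 2 : ℤ) : ℝ)) = 0 := by
  have hb := tendsto_E U (fun M : Pt 5 => ((P1v M 0 1 2 3 4 : ℤ) : ℝ))
  rw [h0] at hb
  refine sq_le_of_tendsto (C := 1) (tendsto_E U _) hb ?_
  filter_upwards [ev_pos hN] with m hm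
  set V := U m
  set H : Fin (N m) → ℝ := fun v => ∑ z, hs V z v with hH
  have e1 : av V (fun M : Pt 3 => ((sM M 0 2 : ℤ) : ℝ) * ((sM M 1 2 : ℤ) : ℝ)) =
      (∑ v, H v ^ 2) / (N m : ℝ) ^ 3 := by
    unfold av
    congr 1
    simp_rw [sM_pull]
    rw [sum_cons, sum_cons, sum_cons, Fintype.sum_unique]
    refine Finset.sum_congr rfl fun v _ => ?_
    rw [hH]
    simp only
    rw [sq, Finset.sum_mul_sum, Finset.sum_comm]
    rfl
  have e2 : av V (fun M : Pt 5 => ((P1v M 0 1 2 3 4 : ℤ) : ℝ)) =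
      (∑ v, H v ^ 4) / (N m : ℝ) ^ 5 := by
    unfold av
    congr 1
    have : ∀ x : Fin 5 → Fin (N m), ((P1v (pull V x) 0 1 2 3 4 : ℤ) : ℝ) =
        hs V (x 0) (x 4) * hs V (x 1) (x 4) * hs V (x 2) (x 4) * hs V (x 3) (x 4) := by
      intro x
      unfold P1v
      push_cast
      simp_rw [sM_pull]
    simp_rw [this]
    rw [sum_cons, sum_cons, sum_cons, sum_cons, sum_cons, Fintype.sum_unique]
    refine Finset.sum_congr rfl fun v _ => ?_
    have h4 : H v ^ 4 = ∑ a, ∑ b, ∑ c, ∑ d, hs V d v * hs V c v * hs V b v * hs V a v := by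
      have : H v ^ 4 = H v * H v * H v * H v := by ring
      rw [this, hH]
      simp only
      rw [Finset.sum_mul_sum, Finset.sum_mul_sum]
      simp_rw [Finset.sum_mul, Finset.mul_sum]
      refine Finset.sum_congr rfl fun a _ => Finset.sum_congr rfl fun b _ =>
        Finset.sum_congr rfl fun c _ => Finset.sum_congr rfl fun d _ => ?_
      ring
    rw [h4]
    rfl
  have hcs := Finset.sum_mul_sq_le_sq_mul_sq univ (fun _ : Fin (N m) => (1 : ℝ))
    (fun v => H v ^ 2)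
  simp only [one_mul, one_pow, Finset.sum_const, Finset.card_univ, Fintype.card_fin,
    nsmul_eq_mul, mul_one] at hcs
  have h2 : ∀ v, (H v ^ 2) ^ 2 = H v ^ 4 := fun v => by ring
  simp_rw [h2] at hcs
  rw [e1, e2, one_mul, div_pow, div_le_div_iff₀ (by positivity) (by positivity)]
  calc (∑ v, H v ^ 2) ^ 2 * (N m : ℝ) ^ 5 ≤ ((N m : ℝ) * ∑ v, H v ^ 4) * (N m : ℝ) ^ 5 :=
        mul_le_mul_of_nonneg_right hcs (by positivity)
    _ = (∑ v, H v ^ 4) * ((N m : ℝ) ^ 3) ^ 2 := by ring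

/-- Consequence of balancedness. -/
theorem cs1 (h0 : E U (fun M : Pt 3 => ((sM M 0 2 : ℤ) : ℝ) * ((sM M 1 2 : ℤ) : ℝ)) = 0)
    {l : ℕ} (g : Pt l → ℝ) (i : Fin l) :
    E U (fun M : Pt (l + 1) => g (Pt.tail M) * ((sM M 0 i.succ : ℤ) : ℝ)) = 0 := by
  have hb := tendsto_E U (fun M : Pt 3 => ((sM M 0 2 : ℤ) : ℝ) * ((sM M 1 2 : ℤ) : ℝ))
  rw [h0] at hb
  refine sq_le_of_tendsto (C := (bd g) ^ 2) (tendsto_E U _) hb ?_
  filter_upwards [ev_pos hN] with m hm
  set V := U m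
  set H : Fin (N m) → ℝ := fun v => ∑ z, hs V z v with hH
  have e1 : av V (fun M : Pt 3 => ((sM M 0 2 : ℤ) : ℝ) * ((sM M 1 2 : ℤ) : ℝ)) =
      (∑ v, H v ^ 2) / (N m : ℝ) ^ 3 := by
    unfold av
    congr 1
    simp_rw [sM_pull]
    rw [sum_cons, sum_cons, sum_cons, Fintype.sum_unique]
    refine Finset.sum_congr rfl fun v _ => ?_
    rw [hH]
    simp only
    rw [sq, Finset.sum_mul_sum, Finset.sum_comm]
    rfl
  have e2 : av V (fun M : Pt (l + 1) => g (Pt.tail M) * ((sM M 0 i.succ : ℤ) : ℝ)) =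
      (∑ x : Fin l → Fin (N m), g (pull V x) * H (x i)) / (N m : ℝ) ^ (l + 1) := by
    unfold av
    congr 1
    simp_rw [sM_pull]
    rw [sum_cons]
    refine Finset.sum_congr rfl fun x _ => ?_
    rw [hH]
    simp only
    rw [Finset.mul_sum]
    rfl
  have hfib : ∑ x : Fin l → Fin (N m), H (x i) ^ 2 = (N m : ℝ) ^ (l - 1) * ∑ v, H v ^ 2 := by
    rw [← Equiv.sum_comp (Equiv.funSplitAt i (Fin (N m))).symm, Fintype.sum_prod_type]
    rw [Finset.mul_sum]
    refine Finset.sum_congr rfl fun v _ => ?_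
    have : ∀ y, ((Equiv.funSplitAt i (Fin (N m))).symm (v, y)) i = v := fun y => by
      simp [Equiv.funSplitAt, Equiv.piSplitAt]
    simp_rw [this]
    rw [Finset.sum_const, Finset.card_univ, Fintype.card_fun, Fintype.card_fin, nsmul_eq_mul]
    have hc : Fintype.card {j : Fin l // j ≠ i} = l - 1 := by
      rw [Fintype.card_subtype_compl, Fintype.card_fin, Fintype.card_subtype_eq]
    rw [hc]
    push_cast
    ring
  have hg : ∑ x : Fin l → Fin (N m), g (pull V x) ^ 2 ≤ (N m : ℝ) ^ l * (bd g) ^ 2 := by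
    calc ∑ x : Fin l → Fin (N m), g (pull V x) ^ 2
        ≤ ∑ _x : Fin l → Fin (N m), (bd g) ^ 2 := by
          refine Finset.sum_le_sum fun x _ => ?_
          rw [← sq_abs]
          exact pow_le_pow_left₀ (abs_nonneg _) (le_bd g _) 2
      _ = (N m : ℝ) ^ l * (bd g) ^ 2 := by
          rw [Finset.sum_const, Finset.card_univ, Fintype.card_fun, Fintype.card_fin,
            Fintype.card_fin, nsmul_eq_mul]
          push_cast
          ring
  have hcs := Finset.sum_mul_sq_le_sq_mul_sq univ (fun x : Fin l → Fin (N m) => g (pull V x))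
    (fun x => H (x i))
  have hH0 : 0 ≤ ∑ v, H v ^ 2 := Finset.sum_nonneg fun _ _ => sq_nonneg _
  have hl : 1 ≤ l := by have := i.2; omega
  rw [e1, e2, div_pow, ← mul_div_assoc, div_le_div_iff₀ (by positivity) (by positivity)]
  have hpow : (N m : ℝ) ^ l * (N m : ℝ) ^ (l - 1) * (N m : ℝ) ^ 3 =
      ((N m : ℝ) ^ (l + 1)) ^ 2 := by
    rw [← pow_add, ← pow_add, ← pow_mul]
    congr 1
    omega
  calc (∑ x : Fin l → Fin (N m), g (pull V x) * H (x i)) ^ 2 * (N m : ℝ) ^ 3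
      ≤ ((∑ x : Fin l → Fin (N m), g (pull V x) ^ 2) *
          ∑ x : Fin l → Fin (N m), H (x i) ^ 2) * (N m : ℝ) ^ 3 :=
        mul_le_mul_of_nonneg_right hcs (by positivity)
    _ = ((∑ x : Fin l → Fin (N m), g (pull V x) ^ 2) *
          ((N m : ℝ) ^ (l - 1) * ∑ v, H v ^ 2)) * (N m : ℝ) ^ 3 := by rw [hfib]
    _ ≤ (((N m : ℝ) ^ l * (bd g) ^ 2) *
          ((N m : ℝ) ^ (l - 1) * ∑ v, H v ^ 2)) * (N m : ℝ) ^ 3 := by
        apply mul_le_mul_of_nonneg_right _ (by positivity)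
        exact mul_le_mul_of_nonneg_right hg (by positivity)
    _ = (bd g) ^ 2 * (∑ v, H v ^ 2) *
          ((N m : ℝ) ^ l * (N m : ℝ) ^ (l - 1) * (N m : ℝ) ^ 3) := by ring
    _ = (bd g) ^ 2 * (∑ v, H v ^ 2) * ((N m : ℝ) ^ (l + 1)) ^ 2 := by rw [hpow]

end

end Pool.Agent.U991.Car
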