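import Pool.Agent.U991.Car.Fin5

namespace Pool.Agent.U991.Car

open Finset

theorem mat_surj (M : Pt 5) (h : IsT M) : ∃ n < 1024, mat n = M := by
  set f : Fin 10 → Bool := ![M 0 1, M 0 2, M 1 2, M 0 3, M 1 3, M 2 3, M 0 4, M 1 4, M 2 4, M 3 4]
    with hf
  refine ⟨Nat.ofBits f, Nat.ofBits_lt_two_pow f, ?_⟩
  have hb : ∀ (e : ℕ) (he : e < 10), (Nat.ofBits f).testBit e = f ⟨e, he⟩ :=
    fun e he => Nat.testBit_ofBits_lt f e he
  have hd := h.1
  have ho := h.2
  funext i j
  by_cases hij : i = j
  · subst hij
    simp [mat, hd]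
  · by_cases hlt : i < j
    · simp only [mat, if_neg hij, if_pos hlt]
      fin_cases i <;> fin_cases j <;> (first
        | exact absurd rfl hij
        | exact absurd hlt (by decide)
        | exact hb 0 (by decide)
        | exact hb 1 (by decide)
        | exact hb 2 (by decide)
        | exact hb 3 (by decide)
        | exact hb 4 (by decide)
        | exact hb 5 (by decide)
        | exact hb 6 (by decide)
        | exact hb 7 (by decide)
        | exact hb 8 (by decide)
        | exact hb 9 (by decide))
    · simp only [mat, if_neg hij, if_neg hlt]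
      rw [ho i j hij]
      congr 1
      fin_cases i <;> fin_cases j <;> (first
        | exact absurd rfl hij
        | exact absurd (by decide) hlt
        | exact hb 0 (by decide)
        | exact hb 1 (by decide)
        | exact hb 2 (by decide)
        | exact hb 3 (by decide)
        | exact hb 4 (by decide)
        | exact hb 5 (by decide)
        | exact hb 6 (by decide)
        | exact hb 7 (by decide)
        | exact hb 8 (by decide)
        | exact hb 9 (by decide))

theorem k1 (M : Pt 5) (h : IsT M) :
    2 * sumP1 M + 8 * sumK (P3v M) + 32 * R5v M + 32 * G4v M = 2 := by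
  obtain ⟨n, hn, rfl⟩ := mat_surj M h
  have := List.all_eq_true.mp c1 n (List.mem_range.mpr hn)
  exact of_decide_eq_true this

theorem k2 (M : Pt 5) (h : IsT M) :
    sumK (PAv M) + 32 * R5v M + 32 * G4v M ≤
      2 - 2 * (sumK (Yv M) + sumK' (Yv M)) + 8 * G4v M := by
  obtain ⟨n, hn, rfl⟩ := mat_surj M h
  have := List.all_eq_true.mp c2 n (List.mem_range.mpr hn)
  exact of_decide_eq_true this

theorem k3 (M : Pt 5) (h : IsT M) (hn : nlt M 1 2 3 4 = true) :
    ∃ c < 16, G4b (sw (fun i : Fin 5 => Nat.testBit c i.val) M) = true := by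
  obtain ⟨n, hn', rfl⟩ := mat_surj M h
  have := List.all_eq_true.mp c3 n (List.mem_range.mpr hn')
  unfold chk3 at this
  rw [hn] at this
  simp only [Bool.not_true, Bool.false_or, List.any_eq_true, List.mem_range] at this
  obtain ⟨c, hc, h2⟩ := this
  exact ⟨c, hc, h2⟩

end Pool.Agent.U991.Car
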