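import Pool.Agent.U991.Car.Ident

/-!
Counting: the number of positive `m`-sets (`m` odd) of a tournament on `N` vertices.
-/

namespace Pool.Agent.U991.Car

open Finset

set_option linter.unusedSectionVars false

variable {V : Type*} [DecidableEq V] [Fintype V] {s : V → V → ℤ} {m : ℕ}

open Classical in
/-- The term of `x` at `I`. -/
noncomputable def term (s : V → V → ℤ) {m : ℕ} (x : Fin m → V) (I : Finset (Fin m)) : ℤ :=
  if Set.InjOn x I ∧ Pos s (I.image x) then
    2 ^ I.card * ∏ i ∈ Iᶜ, (fs s (I.image x) (x i) : ℤ) else 0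

theorem abs_fs_le (K : Finset V) (u : V) : |(fs s K u : ℤ)| ≤ 1 := by
  rcases SignType.trichotomy (fs s K u) with h | h | h <;> rw [h] <;> simp

theorem term_abs_le (x : Fin m → V) (I : Finset (Fin m)) : term s x I ≤ 2 ^ I.card := by
  unfold term
  split_ifs with h
  · have h1 : |∏ i ∈ Iᶜ, (fs s (I.image x) (x i) : ℤ)| ≤ 1 := by
      rw [Finset.abs_prod]
      exact Finset.prod_le_one (fun _ _ => abs_nonneg _) (fun i _ => abs_fs_le _ _)
    have h2 := le_trans (le_abs_self _) h1
    calc (2 : ℤ) ^ I.card * ∏ i ∈ Iᶜ, (fs s (I.image x) (x i) : ℤ) ≤ 2 ^ I.card * 1 :=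
          mul_le_mul_of_nonneg_left h2 (by positivity)
      _ = _ := mul_one _
  · positivity

theorem sum_term_le (x : Fin m → V) : ∑ I, term s x I ≤ 3 ^ m := by
  calc ∑ I, term s x I ≤ ∑ I : Finset (Fin m), (2 : ℤ) ^ I.card :=
        Finset.sum_le_sum fun I _ => term_abs_le x I
    _ = ∑ I : Finset (Fin m), (2 : ℤ) ^ I.card * 1 ^ (Fintype.card (Fin m) - I.card) := by
        simp
    _ = (2 + 1) ^ Fintype.card (Fin m) := Fintype.sum_pow_mul_eq_add_pow (Fin m) (2 : ℤ) 1
    _ = 3 ^ m := by rw [Fintype.card_fin]; norm_num

theorem sum_term_inj (hs : IsSgn s) (hm : Odd m) (x : Fin m → V) (hx : Function.Injective x) :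
    ∑ I, term s x I = 2 := by
  classical
  set S : Finset V := Finset.univ.image x with hS
  have hcard : S.card = m := by
    rw [hS, Finset.card_image_of_injective _ hx, Finset.card_univ, Fintype.card_fin]
  rw [← ident hs S (by rw [hcard]; exact hm)]
  refine Finset.sum_nbij (fun I => I.image x) ?_ ?_ ?_ ?_
  · intro I _
    exact Finset.mem_powerset.mpr (Finset.image_subset_image (Finset.subset_univ I))
  · intro I _ J _ h
    exact Finset.image_injective hx h
  · intro K hK
    have hK' := Finset.mem_powerset.mp (Finset.mem_coe.mp hK)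
    obtain ⟨I, _, hI⟩ := Finset.subset_image_iff.mp hK'
    exact ⟨I, by simp, hI⟩
  · intro I _
    unfold term
    have hinj : Set.InjOn x I := hx.injOn
    by_cases hP : Pos s (I.image x)
    · rw [if_pos ⟨hinj, hP⟩, if_pos hP, Finset.card_image_of_injective _ hx]
      congr 1
      have : S \ I.image x = Iᶜ.image x := by
        rw [hS, Finset.compl_eq_univ_sdiff, Finset.image_sdiff _ _ hx]
      rw [this, Finset.prod_image (fun a _ b _ h => hx h)]
    · rw [if_neg hP, if_neg (fun h => hP h.2)]

/-- For each `I` the total is nonnegative. -/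
theorem sum_x_nonneg (hs : IsSgn s) (hm : Odd m) (I : Finset (Fin m)) :
    0 ≤ ∑ x : Fin m → V, term s x I := by
  classical
  let e := Equiv.piEquivPiSubtypeProd (fun i : Fin m => i ∈ I) (fun _ => V)
  rw [← Equiv.sum_comp e.symm, Fintype.sum_prod_type]
  refine Finset.sum_nonneg fun y _ => ?_
  have himg : ∀ z, I.image (e.symm (y, z)) = Finset.univ.image y := by
    intro z
    ext v
    simp only [Finset.mem_image, Finset.mem_univ, true_and]
    constructor
    · rintro ⟨i, hi, rfl⟩
      exact ⟨⟨i, hi⟩, by simp [e, Equiv.piEquivPiSubtypeProd, hi]⟩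
    · rintro ⟨⟨i, hi⟩, rfl⟩
      exact ⟨i, hi, by simp [e, Equiv.piEquivPiSubtypeProd, hi]⟩
  by_cases hP : Pos s (Finset.univ.image y) ∧ Function.Injective y
  · obtain ⟨hP, hy⟩ := hP
    have hodd := hP.odd hs
    rw [Finset.card_image_of_injective _ hy, Finset.card_univ, Fintype.card_coe] at hodd
    have hinj : ∀ z, Set.InjOn (e.symm (y, z)) I := by
      intro z i hi j hj hij
      have hi' : i ∈ I := hi
      have hj' : j ∈ I := hj
      simp only [e, Equiv.piEquivPiSubtypeProd, Equiv.coe_fn_symm_mk, hi', hj', dif_pos] at hij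
      have := hy hij
      exact congrArg Subtype.val this
    have hterm : ∀ z, term s (e.symm (y, z)) I
        = 2 ^ I.card * ∏ j, (fs s (Finset.univ.image y) (z j) : ℤ) := by
      intro z
      unfold term
      rw [himg z, if_pos ⟨hinj z, hP⟩]
      congr 1
      rw [Finset.prod_subtype (Iᶜ) (p := fun i => ¬ i ∈ I) (fun i => by simp)
        (f := fun i => (fs s (Finset.univ.image y) (e.symm (y, z) i) : ℤ))]
      refine Finset.prod_congr rfl fun j _ => ?_
      congr 2
      simp [e, Equiv.piEquivPiSubtypeProd, j.2]
    rw [Finset.sum_congr rfl (fun z _ => hterm z), ← Finset.mul_sum,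
      ← Fintype.prod_sum (fun (_ : {i : Fin m // ¬ i ∈ I}) (u : V) =>
        (fs s (Finset.univ.image y) u : ℤ))]
    rw [Finset.prod_const, Finset.card_univ]
    have hcard : Even (Fintype.card {i : Fin m // ¬ i ∈ I}) := by
      have h1 : Fintype.card {i : Fin m // ¬ i ∈ I} = Iᶜ.card := by
        rw [Fintype.card_subtype]
        congr 1
        ext i; simp
      rw [h1, Finset.card_compl, Fintype.card_fin]
      exact Nat.Odd.sub_odd hm hodd
    exact mul_nonneg (by positivity) (hcard.pow_nonneg _)
  · refine le_of_eq (Finset.sum_eq_zero fun z _ => ?_).symm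
    unfold term
    rw [if_neg]
    rintro ⟨h1, h2⟩
    rw [himg z] at h2
    refine hP ⟨h2, ?_⟩
    intro i j hij
    have := h1 (x₁ := i) i.2 (x₂ := j) j.2 (by
      simp only [e, Equiv.piEquivPiSubtypeProd, Equiv.coe_fn_symm_mk, i.2, j.2, dif_pos]
      exact hij)
    exact Subtype.ext this

open Classical in
/-- Main counting inequality over maps. -/
theorem count_maps (hs : IsSgn s) (hm : Odd m) :
    (2 : ℤ) ^ m * (univ.filter fun x : Fin m → V =>
        Function.Injective x ∧ Pos s (univ.image x)).card ≤
      2 * ((Fintype.card V).descFactorial m : ℤ) +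
        3 ^ m * ((Fintype.card V : ℤ) ^ m - ((Fintype.card V).descFactorial m : ℤ)) := by
  have hinj : (univ.filter fun x : Fin m → V => Function.Injective x).card
      = (Fintype.card V).descFactorial m := by
    rw [← Fintype.card_subtype, Fintype.card_congr (Equiv.subtypeInjectiveEquivEmbedding _ _),
      Fintype.card_embedding_eq, Fintype.card_fin]
  have hall : (univ : Finset (Fin m → V)).card = (Fintype.card V) ^ m := by
    rw [Finset.card_univ, Fintype.card_fun, Fintype.card_fin]
  have hnot : ((univ.filter fun x : Fin m → V => ¬ Function.Injective x).card : ℤ)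
      = (Fintype.card V : ℤ) ^ m - ((Fintype.card V).descFactorial m : ℤ) := by
    have := Finset.card_filter_add_card_filter_not (s := (univ : Finset (Fin m → V)))
      (fun x => Function.Injective x)
    rw [hinj, hall] at this
    have h2 : (((Fintype.card V).descFactorial m : ℕ) : ℤ) +
      ((univ.filter fun x : Fin m → V => ¬ Function.Injective x).card : ℤ)
        = (Fintype.card V : ℤ) ^ m := by exact_mod_cast this
    linarith
  -- upper bound
  have hup : ∑ x : Fin m → V, ∑ I, term s x I ≤
      2 * ((Fintype.card V).descFactorial m : ℤ) +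
        3 ^ m * ((Fintype.card V : ℤ) ^ m - ((Fintype.card V).descFactorial m : ℤ)) := by
    rw [← Finset.sum_filter_add_sum_filter_not univ (fun x : Fin m → V => Function.Injective x)]
    apply add_le_add
    · rw [Finset.sum_congr rfl (fun x hx => sum_term_inj hs hm x (Finset.mem_filter.mp hx).2),
        Finset.sum_const, hinj]
      simp [mul_comm]
    · calc ∑ x ∈ univ.filter (fun x : Fin m → V => ¬ Function.Injective x), ∑ I, term s x I
          ≤ ∑ x ∈ univ.filter (fun x : Fin m → V => ¬ Function.Injective x), (3 : ℤ) ^ m :=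
            Finset.sum_le_sum fun x _ => sum_term_le x
        _ = 3 ^ m * ((Fintype.card V : ℤ) ^ m - ((Fintype.card V).descFactorial m : ℤ)) := by
            rw [Finset.sum_const, nsmul_eq_mul, hnot, mul_comm]
  refine le_trans ?_ hup
  rw [Finset.sum_comm]
  rw [← Finset.add_sum_erase univ _ (Finset.mem_univ (univ : Finset (Fin m)))]
  have h1 : ∑ x : Fin m → V, term s x univ = (2 : ℤ) ^ m * (univ.filter fun x : Fin m → V =>
        Function.Injective x ∧ Pos s (univ.image x)).card := by
    rw [Finset.card_filter]
    push_cast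
    rw [Finset.mul_sum]
    refine Finset.sum_congr rfl fun x _ => ?_
    unfold term
    simp only [Finset.coe_univ, Set.injOn_univ, Finset.card_univ, Fintype.card_fin,
      Finset.compl_univ, Finset.prod_empty, mul_one]
    split_ifs <;> simp
  rw [h1]
  have h2 : 0 ≤ ∑ I ∈ (univ : Finset (Finset (Fin m))).erase univ,
      ∑ x : Fin m → V, term s x I := Finset.sum_nonneg fun I _ => sum_x_nonneg hs hm I
  linarith

theorem fiber_card (S : Finset V) (hS : S.card = m) :
    m.factorial ≤ (univ.filter fun x : Fin m → V =>
      Function.Injective x ∧ univ.image x = S).card := by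
  classical
  let e := Finset.equivFinOfCardEq hS
  have h0 : m.factorial = (univ : Finset (Equiv.Perm (Fin m))).card := by
    rw [Finset.card_univ, Fintype.card_perm, Fintype.card_fin]
  rw [h0]
  refine Finset.card_le_card_of_injOn (fun σ i => ((e.symm (σ i) : S) : V)) ?_ ?_
  · intro σ _
    have hinj : Function.Injective (fun i => ((e.symm (σ i) : S) : V)) := by
      intro i j hij
      exact σ.injective (e.symm.injective (Subtype.ext hij))
    refine Finset.mem_coe.mpr (Finset.mem_filter.mpr ⟨Finset.mem_univ _, hinj, ?_⟩)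
    apply Finset.eq_of_subset_of_card_le
    · intro v hv
      obtain ⟨i, _, rfl⟩ := Finset.mem_image.mp hv
      exact (e.symm (σ i)).2
    · rw [Finset.card_image_of_injective _ hinj, Finset.card_univ, Fintype.card_fin, hS]
  · intro σ _ τ _ h
    ext i
    have := congrFun h i
    have h2 := e.symm.injective (Subtype.ext this)
    rw [h2]

/-- The number of positive `m`-sets. -/
theorem count_sets (hs : IsSgn s) (hm : Odd m) (F : Finset (Finset V))
    (hF : ∀ S ∈ F, S.card = m ∧ Pos s S) :
    (2 : ℤ) ^ m * (m.factorial * F.card) ≤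
      2 * ((Fintype.card V).descFactorial m : ℤ) +
        3 ^ m * ((Fintype.card V : ℤ) ^ m - ((Fintype.card V).descFactorial m : ℤ)) := by
  classical
  refine le_trans ?_ (count_maps hs hm)
  apply mul_le_mul_of_nonneg_left _ (by positivity)
  have h1 : m.factorial * F.card ≤ (univ.filter fun x : Fin m → V =>
        Function.Injective x ∧ Pos s (univ.image x)).card := by
    calc m.factorial * F.card = ∑ S ∈ F, m.factorial := by
          rw [Finset.sum_const, smul_eq_mul, mul_comm]
      _ ≤ ∑ S ∈ F, (univ.filter fun x : Fin m → V =>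
            Function.Injective x ∧ univ.image x = S).card :=
          Finset.sum_le_sum fun S hS => fiber_card S (hF S hS).1
      _ = (F.biUnion fun S => univ.filter fun x : Fin m → V =>
            Function.Injective x ∧ univ.image x = S).card := by
          rw [Finset.card_biUnion]
          intro S _ T _ hST
          refine Finset.disjoint_left.mpr ?_
          intro x hx hx2
          exact hST ((Finset.mem_filter.mp hx).2.2.symm.trans (Finset.mem_filter.mp hx2).2.2)
      _ ≤ _ := by
          apply Finset.card_le_card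
          intro x hx
          obtain ⟨S, hS, hx⟩ := Finset.mem_biUnion.mp hx
          obtain ⟨_, hx1, hx2⟩ := Finset.mem_filter.mp hx
          refine Finset.mem_filter.mpr ⟨Finset.mem_univ _, hx1, ?_⟩
          rw [hx2]
          exact (hF S hS).2
  exact_mod_cast h1

end Pool.Agent.U991.Car
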