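import Mathlib

/-!
Tournaments, unlabelled induced densities, limits of tournaments, carousel tournaments.
-/

namespace Pool.Agent.U991.Car

open Finset Filter Topology

/-- A tournament on the vertex set `Fin n`: `adj x y` means that there is an arc from `x` to `y`;
every two distinct vertices are joined by exactly one arc. -/
structure Tournament (n : ℕ) where
  /-- There is an arc from the first vertex to the second. -/
  adj : Fin n → Fin n → Prop
  irrefl : ∀ x, ¬ adj x x
  one_arc : ∀ x y, x ≠ y → (adj x y ↔ ¬ adj y x)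

/-- The vertex set `S` of `U` induces a subtournament isomorphic to `T`. -/
def Induces {k n : ℕ} (T : Tournament k) (U : Tournament n) (S : Finset (Fin n)) : Prop :=
  ∃ f : Fin k → Fin n, Function.Injective f ∧ Finset.univ.image f = S ∧
    ∀ x y, T.adj x y ↔ U.adj (f x) (f y)

open Classical in
/-- The unlabelled induced density `p(T,U)`: the proportion of the `k`-subsets of the vertex set
of `U` that induce a subtournament isomorphic to `T` (it is `0` if `n < k`). -/
noncomputable def density {k n : ℕ} (T : Tournament k) (U : Tournament n) : ℝ :=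
  (((univ.powersetCard k).filter fun S : Finset (Fin n) => Induces T U S).card : ℝ)
    / (n.choose k : ℝ)

/-- `φ` is the limit of a convergent sequence of tournaments of increasing orders. -/
def IsLimit (φ : (k : ℕ) → Tournament k → ℝ) : Prop :=
  ∃ (N : ℕ → ℕ) (U : (m : ℕ) → Tournament (N m)), StrictMono N ∧
    ∀ (k : ℕ) (T : Tournament k), Tendsto (fun m => density T (U m)) atTop (𝓝 (φ k T))

theorem car_iff {n x y : ℕ} (hx : x < 2 * n + 1) (hy : y < 2 * n + 1) :
    (∃ i : ℕ, 1 ≤ i ∧ i ≤ n ∧ y = (x + i) % (2 * n + 1)) ↔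
      (x < y ∧ y - x ≤ n) ∨ (y < x ∧ n + 1 ≤ x - y) := by
  constructor
  · rintro ⟨i, h1, h2, h3⟩
    by_cases h : x + i < 2 * n + 1
    · rw [Nat.mod_eq_of_lt h] at h3
      left; omega
    · push Not at h
      rw [Nat.mod_eq_sub_mod h, Nat.mod_eq_of_lt (by omega)] at h3
      right; omega
  · rintro (⟨h1, h2⟩ | ⟨h1, h2⟩)
    · refine ⟨y - x, by omega, h2, ?_⟩
      rw [Nat.mod_eq_of_lt (by omega)]
      omega
    · refine ⟨2 * n + 1 - (x - y), by omega, by omega, ?_⟩
      have : x + (2 * n + 1 - (x - y)) = (2 * n + 1) + y := by omega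
      rw [this, Nat.add_mod_left, Nat.mod_eq_of_lt hy]

/-- The carousel tournament `R_{2n+1}`: arcs from `x` to `x + i` modulo `2n+1`,
`1 ≤ i ≤ n`. -/
def carousel (n : ℕ) : Tournament (2 * n + 1) where
  adj x y := ∃ i : ℕ, 1 ≤ i ∧ i ≤ n ∧ (y : ℕ) = (x + i) % (2 * n + 1)
  irrefl x := by
    rw [car_iff x.2 x.2]
    omega
  one_arc x y hxy := by
    have h : (x : ℕ) ≠ y := fun h => hxy (Fin.ext h)
    have hx := x.2
    have hy := y.2
    rw [car_iff x.2 y.2, car_iff y.2 x.2]
    omega

theorem carousel_adj {n : ℕ} (x y : Fin (2 * n + 1)) :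
    (carousel n).adj x y ↔ ((x : ℕ) < y ∧ (y : ℕ) - x ≤ n) ∨ ((y : ℕ) < x ∧ n + 1 ≤ (x : ℕ) - y) :=
  car_iff x.2 y.2

end Pool.Agent.U991.Car
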