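import Pool.Agent.U991.Car.Chk
import Pool.Agent.U991.Car.CS

/-!
The extremal case: all non locally transitive quadruples have density zero.
-/

namespace Pool.Agent.U991.Car

open Finset Filter Topology

set_option linter.unusedSectionVars false

theorem sM_pm {k : ℕ} {M : Pt k} (h : IsT M) {i j : Fin k} (hij : i ≠ j) :
    sM M i j = 1 ∨ sM M i j = -1 := by
  have := h.2 i j hij
  unfold sM
  rcases Bool.eq_false_or_eq_true (M i j) with h1 | h1
  · left; rw [if_pos h1]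
  · right
    have h2 : M j i = true := by
      rw [h1] at this
      simpa using this.symm
    rw [h1, h2]
    simp

theorem sM_bool {k : ℕ} {M : Pt k} (h : IsT M) {i j : Fin k} (hij : i ≠ j) :
    sM M i j = if M i j then 1 else -1 := by
  have := h.2 i j hij
  unfold sM
  rcases Bool.eq_false_or_eq_true (M i j) with h1 | h1
  · rw [if_pos h1, if_pos h1]
  · have h2 : M j i = true := by
      rw [h1] at this
      simpa using this.symm
    rw [h1, h2]
    simp

/-- A permutation of five points given by its values. -/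
def pv (a b c d e : Fin 5) : Fin 5 → Fin 5
  | 0 => a
  | 1 => b
  | 2 => c
  | 3 => d
  | 4 => e

/-- The function of `cs3` for cyclic triangles. -/
noncomputable def fC (M : Pt 4) : ℝ := ((cycI M 1 2 3 * sig M 0 1 2 3 : ℤ) : ℝ)
/-- The function of `cs3` for all triangles. -/
noncomputable def fA (M : Pt 4) : ℝ := ((sig M 0 1 2 3 : ℤ) : ℝ)

section
variable {N : ℕ → ℕ} (U : (m : ℕ) → Tournament (N m)) (hN : StrictMono N)
include hN

theorem E_pv (F : Fin 5 → Fin 5 → Fin 5 → Fin 5 → Fin 5 → Pt 5 → ℝ)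
    (hF : ∀ (σ : Fin 5 → Fin 5) (M : Pt 5), F (σ 0) (σ 1) (σ 2) (σ 3) (σ 4) M =
      F 0 1 2 3 4 (Pt.perm σ M)) (a b c d e : Fin 5)
    (hb : Function.Bijective (pv a b c d e)) :
    E U (F a b c d e) = E U (F 0 1 2 3 4) := by
  have h1 : (F a b c d e) = fun M => F 0 1 2 3 4 (Pt.perm (Equiv.ofBijective _ hb) M) := by
    funext M
    exact hF (pv a b c d e) M
  rw [h1]
  exact E_perm U (Equiv.ofBijective _ hb) (F 0 1 2 3 4)

theorem sq3_nonneg (f : Pt 4 → ℝ) :
    0 ≤ E U (fun M : Pt 5 => f (Pt.perm d1 M) * f (Pt.tail M)) := by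
  refine ge_of_tendsto (tendsto_E U _) ?_
  filter_upwards with m
  set V := U m
  have hpt : ∀ (z y : Fin (N m)) (K : Fin 3 → Fin (N m)),
      Pt.perm d1 (pull V (Fin.cons z (Fin.cons y K) : Fin 5 → Fin (N m))) =
        pull V (Fin.cons z K : Fin 4 → Fin (N m)) := by
    intro z y K
    rw [pull_perm]
    congr 1
    funext i
    fin_cases i <;> rfl
  have htl : ∀ (z y : Fin (N m)) (K : Fin 3 → Fin (N m)),
      Pt.tail (pull V (Fin.cons z (Fin.cons y K) : Fin 5 → Fin (N m))) =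
        pull V (Fin.cons y K : Fin 4 → Fin (N m)) := by
    intro z y K
    rw [Pt.tail, pull_perm]
    congr 1
  unfold av
  apply div_nonneg _ (by positivity)
  rw [sum_cons, sum_cons]
  refine Finset.sum_nonneg fun K _ => ?_
  simp_rw [hpt, htl]
  rw [Finset.sum_comm, ← Finset.sum_mul_sum]
  exact mul_self_nonneg _

theorem P1_nonneg : 0 ≤ E U (fun M : Pt 5 => ((P1v M 0 1 2 3 4 : ℤ) : ℝ)) := by
  refine ge_of_tendsto (tendsto_E U _) ?_
  filter_upwards with m
  set V := U m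
  set H : Fin (N m) → ℝ := fun v => ∑ z, hs V z v with hH
  unfold av
  apply div_nonneg _ (by positivity)
  have : ∀ x : Fin 5 → Fin (N m), ((P1v (pull V x) 0 1 2 3 4 : ℤ) : ℝ) =
      hs V (x 0) (x 4) * hs V (x 1) (x 4) * hs V (x 2) (x 4) * hs V (x 3) (x 4) := by
    intro x
    unfold P1v
    push_cast
    simp_rw [sM_pull]
  simp_rw [this]
  rw [sum_cons, sum_cons, sum_cons, sum_cons, sum_cons, Fintype.sum_unique]
  refine Finset.sum_nonneg fun v _ => ?_
  have h4 : H v ^ 4 = ∑ a, ∑ b, ∑ c, ∑ d, hs V d v * hs V c v * hs V b v * hs V a v := by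
    have : H v ^ 4 = H v * H v * H v * H v := by ring
    rw [this, hH]
    simp only
    rw [Finset.sum_mul_sum, Finset.sum_mul_sum]
    simp_rw [Finset.sum_mul, Finset.mul_sum]
    refine Finset.sum_congr rfl fun a _ => Finset.sum_congr rfl fun b _ =>
      Finset.sum_congr rfl fun c _ => Finset.sum_congr rfl fun d _ => ?_
    ring
  have h5 : 0 ≤ H v ^ 4 := by positivity
  rw [h4] at h5
  exact h5

theorem E_sumK (F : Fin 5 → Fin 5 → Fin 5 → Fin 5 → Fin 5 → Pt 5 → ℤ)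
    (hF : ∀ (σ : Fin 5 → Fin 5) (M : Pt 5), F (σ 0) (σ 1) (σ 2) (σ 3) (σ 4) M =
      F 0 1 2 3 4 (Pt.perm σ M)) :
    E U (fun M => ((sumK (fun a b c d e => F a b c d e M) : ℤ) : ℝ)) =
      10 * E U (fun M => ((F 0 1 2 3 4 M : ℤ) : ℝ)) := by
  have h := fun a b c d e hb => E_pv U hN (fun a b c d e M => ((F a b c d e M : ℤ) : ℝ))
    (fun σ M => by rw [hF σ M]) a b c d e hb
  unfold sumK
  push_cast
  simp only [E_add]
  rw [h 3 4 0 1 2 (by decide), h 2 4 0 1 3 (by decide), h 2 3 0 1 4 (by decide),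
    h 1 4 0 2 3 (by decide), h 1 3 0 2 4 (by decide), h 1 2 0 3 4 (by decide),
    h 0 4 1 2 3 (by decide), h 0 3 1 2 4 (by decide), h 0 2 1 3 4 (by decide)]
  ring

theorem E_sumK' (F : Fin 5 → Fin 5 → Fin 5 → Fin 5 → Fin 5 → Pt 5 → ℤ)
    (hF : ∀ (σ : Fin 5 → Fin 5) (M : Pt 5), F (σ 0) (σ 1) (σ 2) (σ 3) (σ 4) M =
      F 0 1 2 3 4 (Pt.perm σ M)) :
    E U (fun M => ((sumK' (fun a b c d e => F a b c d e M) : ℤ) : ℝ)) =
      10 * E U (fun M => ((F 0 1 2 3 4 M : ℤ) : ℝ)) := by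
  have h := fun a b c d e hb => E_pv U hN (fun a b c d e M => ((F a b c d e M : ℤ) : ℝ))
    (fun σ M => by rw [hF σ M]) a b c d e hb
  unfold sumK'
  push_cast
  simp only [E_add]
  rw [h 4 3 0 1 2 (by decide), h 4 2 0 1 3 (by decide), h 3 2 0 1 4 (by decide),
    h 4 1 0 2 3 (by decide), h 3 1 0 2 4 (by decide), h 2 1 0 3 4 (by decide),
    h 4 0 1 2 3 (by decide), h 3 0 1 2 4 (by decide), h 2 0 1 3 4 (by decide),
    h 1 0 2 3 4 (by decide)]
  ring

theorem E_sumP1 :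
    E U (fun M => ((sumP1 M : ℤ) : ℝ)) =
      5 * E U (fun M : Pt 5 => ((P1v M 0 1 2 3 4 : ℤ) : ℝ)) := by
  have h := fun a b c d e hb => E_pv U hN (fun a b c d e M => ((P1v M a b c d e : ℤ) : ℝ))
    (fun σ M => rfl) a b c d e hb
  unfold sumP1
  push_cast
  simp only [E_add]
  rw [h 1 2 3 4 0 (by decide), h 0 2 3 4 1 (by decide), h 0 1 3 4 2 (by decide),
    h 0 1 2 4 3 (by decide)]
  ring

/-- The four consequences of extremality. -/
theorem extremal (hR : 1 / 16 ≤ E U (fun M : Pt 5 => ((R5v M : ℤ) : ℝ))) :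
    E U (fun M : Pt 5 => ((P1v M 0 1 2 3 4 : ℤ) : ℝ)) = 0 ∧
    E U (fun M : Pt 5 => ((G4v M : ℤ) : ℝ)) = 0 ∧
    E U (fun M : Pt 5 => fA (Pt.perm d1 M) * fA (Pt.tail M)) = 0 := by
  set p1 := E U (fun M : Pt 5 => ((P1v M 0 1 2 3 4 : ℤ) : ℝ)) with hp1
  set p3 := E U (fun M : Pt 5 => ((P3v M 0 1 2 3 4 : ℤ) : ℝ)) with hp3
  set pA := E U (fun M : Pt 5 => ((PAv M 0 1 2 3 4 : ℤ) : ℝ)) with hpA
  set pY := E U (fun M : Pt 5 => ((Yv M 0 1 2 3 4 : ℤ) : ℝ)) with hpY
  set r := E U (fun M : Pt 5 => ((R5v M : ℤ) : ℝ)) with hr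
  set q := E U (fun M : Pt 5 => ((G4v M : ℤ) : ℝ)) with hq
  have hp3' : p3 = E U (fun M : Pt 5 => fC (Pt.perm d1 M) * fC (Pt.tail M)) := by
    rw [hp3]
    congr 1
    funext M
    unfold fC
    rw [← Int.cast_mul]
    rfl
  have hpA' : pA = E U (fun M : Pt 5 => fA (Pt.perm d1 M) * fA (Pt.tail M)) := by
    rw [hpA]
    congr 1
    funext M
    unfold fA
    rw [← Int.cast_mul]
    rfl
  have n1 : 0 ≤ p1 := P1_nonneg U hN
  have n3 : 0 ≤ p3 := by rw [hp3']; exact sq3_nonneg U hN fC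
  have nA : 0 ≤ pA := by rw [hpA']; exact sq3_nonneg U hN fA
  have nq : 0 ≤ q := E_nonneg U hN _ fun M _ => by
    unfold G4v
    split_ifs <;> simp
  have e1 : 2 * (5 * p1) + 8 * (10 * p3) + 32 * r + 32 * q = 2 := by
    have h0 : E U (fun M : Pt 5 => ((2 * sumP1 M + 8 * sumK (P3v M) + 32 * R5v M + 32 * G4v M
        : ℤ) : ℝ)) = 2 := by
      have h00 : E U (fun M : Pt 5 => ((2 * sumP1 M + 8 * sumK (P3v M) + 32 * R5v M + 32 * G4v M
        : ℤ) : ℝ)) = E U (fun _ : Pt 5 => (2 : ℝ) * 1) :=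
        E_congr U hN _ _ fun M hM => by rw [k1 M hM]; norm_num
      rw [h00, E_smul, E_one U hN, mul_one]
    push_cast at h0
    simp only [E_add, E_smul] at h0
    rw [E_sumP1 U hN, E_sumK U hN (fun a b c d e M => P3v M a b c d e) (fun σ M => rfl)] at h0
    linarith
  have z1 : p1 = 0 := by linarith
  have z3 : p3 = 0 := by linarith
  have zq : q = 0 := by linarith
  have zr : r = 1 / 16 := by linarith
  have zY : pY = 0 := by
    have := cs3 U hN fC (fun M => ((mix M 0 1 2 3 * (cycI M 1 2 3 * sig M 0 1 2 3) : ℤ) : ℝ))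
      (by rw [← hp3', z3])
    rw [← this, hpY]
    congr 1
    funext M
    unfold fC
    rw [← Int.cast_mul]
    rfl
  have e2 : 10 * pA + 32 * r + 32 * q ≤ 2 - 2 * (10 * pY + 10 * pY) + 8 * q := by
    have h0 : E U (fun M : Pt 5 => ((sumK (PAv M) + 32 * R5v M + 32 * G4v M : ℤ) : ℝ)) ≤
        E U (fun M : Pt 5 => ((2 * 1 + (-2) * (sumK (Yv M) + sumK' (Yv M)) + 8 * G4v M : ℤ) : ℝ)) :=
      E_le U hN _ _ fun M hM => by
        have := k2 M hM
        have h' : sumK (PAv M) + 32 * R5v M + 32 * G4v M ≤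
          2 * 1 + (-2) * (sumK (Yv M) + sumK' (Yv M)) + 8 * G4v M := by linarith
        exact_mod_cast h'
    push_cast at h0
    simp only [E_add, E_smul] at h0
    rw [E_sumK U hN (fun a b c d e M => PAv M a b c d e) (fun σ M => rfl),
      E_sumK U hN (fun a b c d e M => Yv M a b c d e) (fun σ M => rfl),
      E_sumK' U hN (fun a b c d e M => Yv M a b c d e) (fun σ M => rfl)] at h0
    have h2 : E U (fun _ : Pt 5 => (2 : ℝ)) = 2 := by
      have := E_smul U 2 (fun _ : Pt 5 => (1 : ℝ))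
      rw [E_one U hN] at this
      simpa using this
    rw [h2] at h0
    linarith
  have zA : pA = 0 := by linarith
  exact ⟨z1, zq, by rw [← hpA', zA]⟩

end

end Pool.Agent.U991.Car
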