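import Pool.Agent.U991.Car.Avg

/-!
Five-vertex identities, checked by the kernel.
-/

namespace Pool.Agent.U991.Car

open Finset

/-- Sign of an arc. -/
def sM {k : ℕ} (M : Pt k) (i j : Fin k) : ℤ := if M i j then 1 else if M j i then -1 else 0

/-- Sign of a number. -/
def sg3 (x : ℤ) : ℤ := if 0 < x then 1 else -1

/-- Sign of the Pfaffian of four vertices. -/
def sig {l : ℕ} (M : Pt l) (z i j k : Fin l) : ℤ :=
  sg3 (sM M z i * sM M j k + sM M z j * sM M k i + sM M z k * sM M i j)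

/-- Indicator of a cyclic triangle. -/
def cycI {l : ℕ} (M : Pt l) (i j k : Fin l) : ℤ :=
  if sM M i j = sM M j k ∧ sM M j k = sM M k i then 1 else 0

def P1v {l : ℕ} (M : Pt l) (a b c d v : Fin l) : ℤ := sM M a v * sM M b v * sM M c v * sM M d v
def P3v {l : ℕ} (M : Pt l) (a b i j k : Fin l) : ℤ :=
  (cycI M i j k * sig M a i j k) * (cycI M i j k * sig M b i j k)
def PAv {l : ℕ} (M : Pt l) (a b i j k : Fin l) : ℤ := sig M a i j k * sig M b i j k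
def mix {l : ℕ} (M : Pt l) (y i j k : Fin l) : ℤ :=
  if sM M y i = sM M y j ∧ sM M y j = sM M y k then 0 else 1
def Yv {l : ℕ} (M : Pt l) (z y i j k : Fin l) : ℤ :=
  (mix M y i j k * (cycI M i j k * sig M y i j k)) * (cycI M i j k * sig M z i j k)

/-- Out-degree. -/
def cnt (M : Pt 5) (i : Fin 5) : ℕ :=
  (M i 0).toNat + (M i 1).toNat + (M i 2).toNat + (M i 3).toNat + (M i 4).toNat

def R5v (M : Pt 5) : ℤ :=
  if cnt M 0 = 2 ∧ cnt M 1 = 2 ∧ cnt M 2 = 2 ∧ cnt M 3 = 2 ∧ cnt M 4 = 2 then 1 else 0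

/-- Positive but not regular. -/
def G4b (M : Pt 5) : Bool :=
  let c := [cnt M 0, cnt M 1, cnt M 2, cnt M 3, cnt M 4]
  c.count 3 == 1 && c.count 1 == 1 && c.count 2 == 3 &&
    [(0, 1), (0, 2), (0, 3), (0, 4), (1, 0), (1, 2), (1, 3), (1, 4), (2, 0), (2, 1), (2, 3), (2, 4),
      (3, 0), (3, 1), (3, 2), (3, 4), (4, 0), (4, 1), (4, 2), (4, 3)].any fun p : Fin 5 × Fin 5 =>
        M p.1 p.2 && cnt M p.1 == 1 && cnt M p.2 == 3

def G4v (M : Pt 5) : ℤ := if G4b M then 1 else 0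

def sumP1 (M : Pt 5) : ℤ :=
  P1v M 1 2 3 4 0 + P1v M 0 2 3 4 1 + P1v M 0 1 3 4 2 + P1v M 0 1 2 4 3 + P1v M 0 1 2 3 4

def sumK (F : Fin 5 → Fin 5 → Fin 5 → Fin 5 → Fin 5 → ℤ) : ℤ :=
  F 3 4 0 1 2 + F 2 4 0 1 3 + F 2 3 0 1 4 + F 1 4 0 2 3 + F 1 3 0 2 4 + F 1 2 0 3 4 +
    F 0 4 1 2 3 + F 0 3 1 2 4 + F 0 2 1 3 4 + F 0 1 2 3 4

def sumK' (F : Fin 5 → Fin 5 → Fin 5 → Fin 5 → Fin 5 → ℤ) : ℤ :=
  F 4 3 0 1 2 + F 4 2 0 1 3 + F 3 2 0 1 4 + F 4 1 0 2 3 + F 3 1 0 2 4 + F 2 1 0 3 4 +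
    F 4 0 1 2 3 + F 3 0 1 2 4 + F 2 0 1 3 4 + F 1 0 2 3 4

/-- Tournament from ten bits. -/
def mat (n : ℕ) : Pt 5 := fun i j =>
  if i = j then false else if i < j then n.testBit (j.val * (j.val - 1) / 2 + i.val)
    else !n.testBit (i.val * (i.val - 1) / 2 + j.val)

def chk1 (M : Pt 5) : Bool :=
  decide (2 * sumP1 M + 8 * sumK (P3v M) + 32 * R5v M + 32 * G4v M = 2)

def chk2 (M : Pt 5) : Bool :=
  decide (sumK (PAv M) + 32 * R5v M + 32 * G4v M ≤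
    2 - 2 * (sumK (Yv M) + sumK' (Yv M)) + 8 * G4v M)

/-- Switching. -/
def sw {k : ℕ} (A : Fin k → Bool) (M : Pt k) : Pt k := fun i j => xor (M i j) (xor (A i) (A j))

/-- Not locally transitive. -/
def nlt {k : ℕ} (M : Pt k) (a b c d : Fin k) : Bool :=
  decide (sM M a b * sM M c d = sM M a c * sM M d b ∧ sM M a c * sM M d b = sM M a d * sM M b c)

def chk3 (M : Pt 5) : Bool :=
  !(nlt M 1 2 3 4) || (List.range 16).any fun c => G4b (sw (fun i => c.testBit i.val) M)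

theorem c1 : (List.range 1024).all (fun n => chk1 (mat n)) = true := by decide +kernel
theorem c2 : (List.range 1024).all (fun n => chk2 (mat n)) = true := by decide +kernel
theorem c3 : (List.range 1024).all (fun n => chk3 (mat n)) = true := by decide +kernel

end Pool.Agent.U991.Car
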