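import Pool.Agent.U991.Car.Bip

/-!
The alternating identity: for a tournament on an odd set `S` the sum of `2^|K| ∏ f_K(u)` over the
positive sets `K ⊆ S` is two.
-/

namespace Pool.Agent.U991.Car

open Finset

set_option linter.unusedSectionVars false

variable {V : Type*} [DecidableEq V] {s : V → V → ℤ}

open Classical in
/-- Indicator of `K` being the bipartisan set of `S'`. -/
noncomputable def cI (s : V → V → ℤ) (K S' : Finset V) : ℤ :=
  if Pos s K then ∏ u ∈ S' \ K, (if fs s K u = -1 then 1 else 0) else 0

theorem cI_sum (hs : IsSgn s) (S' : Finset V) :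
    ∑ K ∈ S'.powerset, cI s K S' = if S' = ∅ then 0 else 1 := by
  classical
  split_ifs with h
  · subst h
    rw [Finset.powerset_empty, Finset.sum_singleton]
    unfold cI
    rw [if_neg]
    rintro ⟨hne, _⟩
    exact Finset.not_nonempty_empty hne
  · obtain ⟨K, hKS, hP, hf⟩ := exists_bip hs S' (Finset.nonempty_iff_ne_empty.mpr h)
    rw [Finset.sum_eq_single_of_mem K (Finset.mem_powerset.mpr hKS)]
    · unfold cI
      rw [if_pos hP]
      exact Finset.prod_eq_one fun u hu => if_pos (hf u hu)
    · intro K' hK' hne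
      unfold cI
      split_ifs with hP'
      · by_contra hprod
        apply hne
        refine bip_unique hs S' K' K (Finset.mem_powerset.mp hK') hKS hP' hP (fun u hu => ?_) hf
        by_contra hu2
        exact hprod (Finset.prod_eq_zero hu (if_neg hu2))
      · rfl

open Classical in
theorem ident (hs : IsSgn s) (S : Finset V) (hS : Odd S.card) :
    ∑ K ∈ S.powerset, (if Pos s K then (2 : ℤ) ^ K.card * ∏ u ∈ S \ K, (fs s K u : ℤ) else 0)
      = 2 := by
  have h1 : ∑ S' ∈ S.powerset, ((2 : ℤ) ^ S'.card * (-1) ^ (S \ S').card) = 1 := by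
    have := Finset.prod_add (fun _ : V => (2 : ℤ)) (fun _ => (-1)) S
    simp only [Finset.prod_const] at this
    rw [← this]
    norm_num
  have h2 : ∑ S' ∈ S.powerset, ((2 : ℤ) ^ S'.card * (-1) ^ (S \ S').card *
      ∑ K ∈ S'.powerset, cI s K S') = 2 := by
    have h3 : ∀ S' ∈ S.powerset, ((2 : ℤ) ^ S'.card * (-1) ^ (S \ S').card *
      ∑ K ∈ S'.powerset, cI s K S') = ((2 : ℤ) ^ S'.card * (-1) ^ (S \ S').card) -
        (if S' = ∅ then -1 else 0) := by
      intro S' _
      rw [cI_sum hs]
      split_ifs with h
      · subst h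
        simp [hS.neg_one_pow]
      · ring
    rw [Finset.sum_congr rfl h3, Finset.sum_sub_distrib, h1]
    simp
  refine Eq.trans ?_ h2
  have h4 : ∑ S' ∈ S.powerset, ((2 : ℤ) ^ S'.card * (-1) ^ (S \ S').card *
      ∑ K ∈ S'.powerset, cI s K S') =
      ∑ K ∈ S.powerset, ∑ S' ∈ Finset.Icc K S,
        ((2 : ℤ) ^ S'.card * (-1) ^ (S \ S').card * cI s K S') := by
    simp_rw [Finset.mul_sum]
    apply Finset.sum_comm'
    intro S' K
    simp only [Finset.mem_powerset, Finset.mem_Icc]
    constructor
    · rintro ⟨a, b⟩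
      exact ⟨⟨b, a⟩, b.trans a⟩
    · rintro ⟨⟨a, b⟩, _⟩
      exact ⟨b, a⟩
  rw [h4]
  refine Finset.sum_congr rfl fun K hK => ?_
  have hKS := Finset.mem_powerset.mp hK
  rw [Finset.Icc_eq_image_powerset hKS, Finset.sum_image]
  · split_ifs with hP
    · have hodd := hP.odd hs
      have heven : Even (S \ K).card := by
        rw [Finset.card_sdiff_of_subset hKS]
        exact Nat.Odd.sub_odd hS hodd
      have h5 : ∀ T ∈ (S \ K).powerset, (2 : ℤ) ^ (K ∪ T).card * (-1) ^ (S \ (K ∪ T)).card *
          cI s K (K ∪ T) = 2 ^ K.card * ((∏ u ∈ T, (2 * if fs s K u = -1 then (1 : ℤ) else 0)) *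
            ∏ u ∈ (S \ K) \ T, (-1 : ℤ)) := by
        intro T hT
        have hT' := Finset.mem_powerset.mp hT
        have hd : Disjoint K T := by
          rw [Finset.disjoint_left]
          intro v hv hv2
          exact (Finset.mem_sdiff.mp (hT' hv2)).2 hv
        rw [Finset.card_union_of_disjoint hd]
        have e1 : S \ (K ∪ T) = (S \ K) \ T := by
          rw [Finset.sdiff_union_distrib, ← Finset.inf_eq_inter, ← sdiff_sup, ]
          ext v; simp [and_assoc]
        have e2 : (K ∪ T) \ K = T := by
          rw [Finset.union_sdiff_left]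
          exact Finset.sdiff_eq_self_of_disjoint hd.symm
        rw [e1]
        unfold cI
        rw [if_pos hP, e2, Finset.prod_mul_distrib, Finset.prod_const, Finset.prod_const, pow_add]
        ring
      rw [Finset.sum_congr rfl h5, ← Finset.mul_sum, ← Finset.prod_add]
      congr 1
      have h6 : ∀ u ∈ S \ K, ((2 * if fs s K u = -1 then (1 : ℤ) else 0) + -1)
          = -1 * (fs s K u : ℤ) := by
        intro u hu
        rcases fs_out hs hP (Finset.mem_sdiff.mp hu).2 with h | h
        · rw [h]; simp
        · rw [h]; simp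
      rw [Finset.prod_congr rfl h6, Finset.prod_mul_distrib, Finset.prod_const, heven.neg_one_pow,
        one_mul]
    · symm
      refine Finset.sum_eq_zero fun T _ => ?_
      unfold cI
      rw [if_neg hP, mul_zero]
  · intro T hT T' hT' h
    have hT1 := Finset.mem_powerset.mp hT
    have hT2 := Finset.mem_powerset.mp hT'
    simp only at h
    ext v
    constructor
    · intro hv
      have : v ∈ K ∪ T' := h ▸ Finset.mem_union_right _ hv
      rcases Finset.mem_union.mp this with h' | h'
      · exact absurd h' (Finset.mem_sdiff.mp (hT1 hv)).2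
      · exact h'
    · intro hv
      have : v ∈ K ∪ T := h ▸ Finset.mem_union_right _ hv
      rcases Finset.mem_union.mp this with h' | h'
      · exact absurd h' (Finset.mem_sdiff.mp (hT2 hv)).2
      · exact h'

end Pool.Agent.U991.Car
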