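import Mathlib

/-!
Linear algebra of sign matrices of tournaments: every principal submatrix of even order is
invertible (it is `J - I` modulo two).
-/

namespace Pool.Agent.U991.Car

open Finset Matrix

/-- Sign matrix of a tournament on `V`: skew, with entries `1` or `-1` off the diagonal. -/
structure IsSgn {V : Type*} (s : V → V → ℤ) : Prop where
  skew : ∀ u v, s u v = - s v u
  one : ∀ u v, u ≠ v → s u v = 1 ∨ s u v = -1

set_option linter.unusedSectionVars false
variable {V : Type*} [DecidableEq V] {s : V → V → ℤ}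

theorem IsSgn.diag (hs : IsSgn s) (u : V) : s u u = 0 := by
  have := hs.skew u u
  omega

theorem IsSgn.cast2 (hs : IsSgn s) (u v : V) :
    ((s u v : ℤ) : ZMod 2) = if u = v then 0 else 1 := by
  split_ifs with h
  · subst h
    rw [hs.diag]
    simp
  · rcases hs.one u v h with h1 | h1 <;> rw [h1] <;> decide

theorem JI_sq (W : Type*) [Fintype W] [DecidableEq W] (hW : Even (Fintype.card W)) :
    (Matrix.of (fun u v : W => (if u = v then (0 : ZMod 2) else 1))) *
      (Matrix.of (fun u v : W => (if u = v then (0 : ZMod 2) else 1))) = 1 := by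
  have hJ : (Matrix.of (fun u v : W => (if u = v then (0 : ZMod 2) else 1)))
      = (Matrix.of (fun _ _ : W => (1 : ZMod 2))) + 1 := by
    ext u v
    simp only [Matrix.of_apply, Matrix.add_apply, Matrix.one_apply]
    split_ifs <;> decide
  have hJJ : (Matrix.of (fun _ _ : W => (1 : ZMod 2))) * (Matrix.of (fun _ _ : W => (1 : ZMod 2)))
      = 0 := by
    ext u v
    simp only [Matrix.mul_apply, Matrix.of_apply, mul_one, Finset.sum_const, Finset.card_univ,
      nsmul_eq_mul, Matrix.zero_apply]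
    obtain ⟨k, hk⟩ := hW
    rw [hk]
    push_cast
    exact CharTwo.add_self_eq_zero _
  rw [hJ, add_mul, mul_add, hJJ]
  simp only [mul_one, one_mul, zero_add]
  rw [← add_assoc]
  have : (Matrix.of (fun _ _ : W => (1 : ZMod 2))) + (Matrix.of (fun _ _ : W => (1 : ZMod 2))) = 0 := by
    ext u v
    simp only [Matrix.add_apply, Matrix.of_apply, Matrix.zero_apply]
    decide
  rw [this, zero_add]

theorem det_ne_zero (hs : IsSgn s) (K : Finset V) (hK : Even K.card) :
    (Matrix.of (fun u v : K => (s u v : ℝ))).det ≠ 0 := by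
  set M : Matrix K K ℤ := Matrix.of (fun u v : K => s u v) with hM
  have h2 : (M.map (Int.castRingHom (ZMod 2))) =
      Matrix.of (fun u v : K => (if u = v then (0 : ZMod 2) else 1)) := by
    ext u v
    simp only [hM, Matrix.map_apply, Matrix.of_apply, Int.coe_castRingHom]
    rw [hs.cast2]
    simp only [Subtype.coe_inj]
  have h3 : (M.map (Int.castRingHom (ZMod 2))).det ≠ 0 := by
    rw [h2]
    intro h
    have := congrArg Matrix.det (JI_sq K (by simpa using hK))
    rw [Matrix.det_mul, h, Matrix.det_one, mul_zero] at this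
    exact zero_ne_one this
  have h4 : M.det ≠ 0 := by
    intro h
    apply h3
    have := RingHom.map_det (Int.castRingHom (ZMod 2)) M
    rw [h] at this
    simpa [RingHom.mapMatrix_apply] using this.symm
  have h5 : (Matrix.of (fun u v : K => (s u v : ℝ))) = M.map (Int.castRingHom ℝ) := by
    ext u v
    simp [hM]
  rw [h5]
  have := RingHom.map_det (Int.castRingHom ℝ) M
  rw [RingHom.mapMatrix_apply] at this
  rw [← this]
  simpa using h4

/-- On a set of even size the kernel is trivial. -/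
theorem even_ker (hs : IsSgn s) (K : Finset V) (hK : Even K.card) (x : V → ℝ)
    (hx : ∀ u ∈ K, ∑ v ∈ K, (s u v : ℝ) * x v = 0) : ∀ v ∈ K, x v = 0 := by
  have h := Matrix.eq_zero_of_mulVec_eq_zero (M := Matrix.of (fun u v : K => (s u v : ℝ)))
    (det_ne_zero hs K hK) (v := fun v : K => x v) (by
      ext u
      simp only [Matrix.mulVec, dotProduct, Matrix.of_apply, Pi.zero_apply]
      rw [← hx u u.2, ← Finset.sum_coe_sort K])
  intro v hv
  have := congrFun h ⟨v, hv⟩
  simpa using this

/-- `K` carries a positive kernel vector. -/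
def Pos (s : V → V → ℤ) (K : Finset V) : Prop :=
  K.Nonempty ∧ ∃ x : V → ℝ, (∀ v ∈ K, 0 < x v) ∧ ∀ u ∈ K, ∑ v ∈ K, (s u v : ℝ) * x v = 0

theorem Pos.odd (hs : IsSgn s) {K : Finset V} (hK : Pos s K) : Odd K.card := by
  obtain ⟨⟨v, hv⟩, x, hx, hx2⟩ := hK
  rw [← Nat.not_even_iff_odd]
  intro h
  have := even_ker hs K h x hx2 v hv
  have := hx v hv
  linarith

/-- Outside `K` the linear forms do not vanish. -/
theorem out_ne_zero (hs : IsSgn s) {K : Finset V} (hK : Pos s K) (x : V → ℝ)
    (hx : ∀ v ∈ K, 0 < x v) (hx2 : ∀ u ∈ K, ∑ v ∈ K, (s u v : ℝ) * x v = 0)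
    {u : V} (hu : u ∉ K) : ∑ v ∈ K, (s u v : ℝ) * x v ≠ 0 := by
  intro h
  obtain ⟨v0, hv0⟩ := hK.1
  have hodd := hK.odd hs
  have hins : Even (insert u K).card := by
    rw [Finset.card_insert_of_notMem hu]
    exact hodd.add_one
  set y : V → ℝ := Function.update x u 0 with hy
  have hyK : ∀ v ∈ K, y v = x v := fun v hv => by
    rw [hy, Function.update_of_ne]
    rintro rfl
    exact hu hv
  have hsum : ∀ w, ∑ v ∈ insert u K, (s w v : ℝ) * y v = ∑ v ∈ K, (s w v : ℝ) * x v := by
    intro w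
    rw [Finset.sum_insert hu]
    have : y u = 0 := by simp [hy]
    rw [this, mul_zero, zero_add]
    exact Finset.sum_congr rfl fun v hv => by rw [hyK v hv]
  have := even_ker hs (insert u K) hins y (by
    intro w hw
    rw [hsum]
    rcases Finset.mem_insert.mp hw with rfl | hw
    · exact h
    · exact hx2 w hw) v0 (Finset.mem_insert_of_mem hv0)
  rw [hyK v0 hv0] at this
  have := hx v0 hv0
  linarith

/-- Two kernel vectors on an odd set are proportional. -/
theorem prop_ker (hs : IsSgn s) {K : Finset V} (hK : Odd K.card) (x y : V → ℝ)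
    (hx2 : ∀ u ∈ K, ∑ v ∈ K, (s u v : ℝ) * x v = 0)
    (hy2 : ∀ u ∈ K, ∑ v ∈ K, (s u v : ℝ) * y v = 0) {v0 : V} (hv0 : v0 ∈ K) :
    ∀ v ∈ K, y v0 * x v = x v0 * y v := by
  set z : V → ℝ := fun v => y v0 * x v - x v0 * y v with hz
  have hz0 : z v0 = 0 := by simp only [hz]; ring
  have hzK : ∀ u ∈ K, ∑ v ∈ K, (s u v : ℝ) * z v = 0 := by
    intro u hu
    have : ∑ v ∈ K, (s u v : ℝ) * z v
        = y v0 * ∑ v ∈ K, (s u v : ℝ) * x v - x v0 * ∑ v ∈ K, (s u v : ℝ) * y v := by
      rw [Finset.mul_sum, Finset.mul_sum, ← Finset.sum_sub_distrib]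
      exact Finset.sum_congr rfl fun v _ => by simp only [hz]; ring
    rw [this, hx2 u hu, hy2 u hu]
    ring
  have hE : Even (K.erase v0).card := by
    rw [Finset.card_erase_of_mem hv0]
    exact hK.tsub_odd odd_one
  have hker := even_ker hs (K.erase v0) hE z (by
    intro u hu
    have h1 := hzK u (Finset.mem_of_mem_erase hu)
    rw [← Finset.add_sum_erase K _ hv0, hz0, mul_zero, zero_add] at h1
    exact h1)
  intro v hv
  by_cases h : v = v0
  · subst h; ring
  · have := hker v (Finset.mem_erase.mpr ⟨h, hv⟩)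
    simp only [hz] at this
    linarith

/-- The sign of the linear form of `u` at a positive kernel vector. -/
theorem sign_eq (hs : IsSgn s) {K : Finset V} (hK : Pos s K) (x y : V → ℝ)
    (hx : ∀ v ∈ K, 0 < x v) (hx2 : ∀ u ∈ K, ∑ v ∈ K, (s u v : ℝ) * x v = 0)
    (hy : ∀ v ∈ K, 0 < y v) (hy2 : ∀ u ∈ K, ∑ v ∈ K, (s u v : ℝ) * y v = 0) (u : V) :
    SignType.sign (∑ v ∈ K, (s u v : ℝ) * x v) = SignType.sign (∑ v ∈ K, (s u v : ℝ) * y v) := by
  obtain ⟨v0, hv0⟩ := hK.1
  have hp := prop_ker hs (hK.odd hs) x y hx2 hy2 hv0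
  have h1 : y v0 * ∑ v ∈ K, (s u v : ℝ) * x v = x v0 * ∑ v ∈ K, (s u v : ℝ) * y v := by
    rw [Finset.mul_sum, Finset.mul_sum]
    refine Finset.sum_congr rfl fun v hv => ?_
    have := hp v hv
    calc y v0 * ((s u v : ℝ) * x v) = (s u v : ℝ) * (y v0 * x v) := by ring
      _ = (s u v : ℝ) * (x v0 * y v) := by rw [this]
      _ = _ := by ring
  have hx0 := hx v0 hv0
  have hy0 := hy v0 hv0
  have h2 := congrArg SignType.sign h1
  rw [sign_mul, sign_mul, sign_pos hx0, sign_pos hy0, one_mul, one_mul] at h2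
  exact h2

/-- A chosen positive kernel vector. -/
noncomputable def kv (s : V → V → ℤ) (K : Finset V) : V → ℝ := by
  classical
  exact if h : Pos s K then Classical.choose h.2 else 0

theorem kv_pos {K : Finset V} (h : Pos s K) : ∀ v ∈ K, 0 < kv s K v := by
  intro v hv
  unfold kv
  rw [dif_pos h]
  exact (Classical.choose_spec h.2).1 v hv

theorem kv_ker {K : Finset V} (h : Pos s K) : ∀ u ∈ K, ∑ v ∈ K, (s u v : ℝ) * kv s K v = 0 := by
  intro v hv
  unfold kv
  rw [dif_pos h]
  exact (Classical.choose_spec h.2).2 v hv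

/-- The domination sign of `u` with respect to `K`. -/
noncomputable def fs (s : V → V → ℤ) (K : Finset V) (u : V) : SignType :=
  SignType.sign (∑ v ∈ K, (s u v : ℝ) * kv s K v)

theorem fs_eq (hs : IsSgn s) {K : Finset V} (hK : Pos s K) (x : V → ℝ)
    (hx : ∀ v ∈ K, 0 < x v) (hx2 : ∀ u ∈ K, ∑ v ∈ K, (s u v : ℝ) * x v = 0) (u : V) :
    fs s K u = SignType.sign (∑ v ∈ K, (s u v : ℝ) * x v) :=
  sign_eq hs hK _ _ (kv_pos hK) (kv_ker hK) hx hx2 u

theorem fs_mem {K : Finset V} (hK : Pos s K) {u : V} (hu : u ∈ K) : fs s K u = 0 := by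
  unfold fs
  rw [kv_ker hK u hu]
  simp

theorem fs_out (hs : IsSgn s) {K : Finset V} (hK : Pos s K) {u : V} (hu : u ∉ K) :
    fs s K u = 1 ∨ fs s K u = -1 := by
  have h := out_ne_zero hs hK _ (kv_pos hK) (kv_ker hK) hu
  unfold fs
  rcases lt_or_gt_of_ne h with h | h
  · right; exact sign_neg h
  · left; exact sign_pos h

end Pool.Agent.U991.Car
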