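import Pool.Agent.U991.Car.Univ

/-!
Unlabelled densities as averages, and the uniqueness of the limit maximising `R_5`.
-/

namespace Pool.Agent.U991.Car

open Finset Filter Topology

set_option linter.unusedSectionVars false

open Classical in
/-- Indicator that a pattern is isomorphic to `T`. -/
noncomputable def isoI {k : ℕ} (T : Tournament k) (M : Pt k) : ℝ :=
  if ∃ σ : Equiv.Perm (Fin k), ∀ i j, M (σ i) (σ j) = decide (T.adj i j) then 1 else 0

open Classical in
theorem isoI_pull {k N : ℕ} (T : Tournament k) (U : Tournament N) (x : Fin k → Fin N) :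
    isoI T (pull U x) = if Function.Injective x ∧ Induces T U (univ.image x) then 1 else 0 := by
  unfold isoI
  refine if_congr ?_ rfl rfl
  constructor
  · rintro ⟨σ, hσ⟩
    have h1 : ∀ i j, T.adj i j ↔ U.adj (x (σ i)) (x (σ j)) := by
      intro i j
      have h := hσ i j
      simp only [pull] at h
      rw [decide_eq_decide] at h
      exact h.symm
    have hinj : Function.Injective x := by
      intro a b hab
      by_contra hne
      have hne' : σ.symm a ≠ σ.symm b := fun e => hne (σ.symm.injective e)
      have h2 := T.one_arc _ _ hne'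
      rw [h1, h1, Equiv.apply_symm_apply, Equiv.apply_symm_apply, hab] at h2
      exact iff_not_self h2
    refine ⟨hinj, fun i => x (σ i), hinj.comp σ.injective, ?_, h1⟩
    ext v
    simp only [mem_image, mem_univ, true_and]
    constructor
    · rintro ⟨i, hi⟩
      exact ⟨σ i, hi⟩
    · rintro ⟨i, hi⟩
      exact ⟨σ.symm i, by rw [Equiv.apply_symm_apply]; exact hi⟩
  · rintro ⟨hx, f, hf, hfi, hadj⟩
    have h1 : ∀ i, ∃ j, x j = f i := by
      intro i
      have h : f i ∈ univ.image f := mem_image_of_mem f (mem_univ i)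
      rw [hfi] at h
      simpa using h
    choose σ hσ using h1
    have hσi : Function.Injective σ := by
      intro a b hab
      apply hf
      rw [← hσ a, ← hσ b, hab]
    refine ⟨Equiv.ofBijective σ (Finite.injective_iff_bijective.mp hσi), fun i j => ?_⟩
    simp only [pull, Equiv.ofBijective_apply, hσ]
    rw [decide_eq_decide]
    exact (hadj i j).symm

theorem fiber_eq {k N : ℕ} (S : Finset (Fin N)) (hS : S.card = k) :
    (univ.filter fun x : Fin k → Fin N => Function.Injective x ∧ univ.image x = S).card =
      k.factorial := by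
  classical
  let e : Fin k ≃ S := (Fintype.equivFinOfCardEq (by simpa using hS)).symm
  let x0 : Fin k → Fin N := fun i => (e i).1
  have hx0 : Function.Injective x0 := Subtype.val_injective.comp e.injective
  have himg : univ.image x0 = S := by
    ext v
    simp only [mem_image, mem_univ, true_and]
    constructor
    · rintro ⟨i, rfl⟩
      exact (e i).2
    · intro hv
      exact ⟨e.symm ⟨v, hv⟩, by simp [x0]⟩
  have hset : (univ.filter fun x : Fin k → Fin N => Function.Injective x ∧ univ.image x = S) =
      univ.image (fun σ : Equiv.Perm (Fin k) => x0 ∘ σ) := by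
    ext x
    simp only [mem_filter, mem_univ, true_and, mem_image]
    constructor
    · rintro ⟨hx, hxi⟩
      have h1 : ∀ i, ∃ j, x0 j = x i := by
        intro i
        have h : x i ∈ univ.image x := mem_image_of_mem x (mem_univ i)
        rw [hxi, ← himg] at h
        simpa using h
      choose σ hσ using h1
      have hσi : Function.Injective σ := by
        intro a b hab
        apply hx
        rw [← hσ a, ← hσ b, hab]
      exact ⟨Equiv.ofBijective σ (Finite.injective_iff_bijective.mp hσi),
        funext fun i => hσ i⟩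
    · rintro ⟨σ, rfl⟩
      refine ⟨hx0.comp σ.injective, ?_⟩
      rw [← himg]
      ext v
      simp only [mem_image, mem_univ, true_and, Function.comp]
      constructor
      · rintro ⟨i, hi⟩
        exact ⟨σ i, hi⟩
      · rintro ⟨i, hi⟩
        exact ⟨σ.symm i, by rw [Equiv.apply_symm_apply]; exact hi⟩
  rw [hset, card_image_of_injective, card_univ, Fintype.card_perm, Fintype.card_fin]
  intro σ τ h
  apply Equiv.ext
  intro i
  exact hx0 (congrFun h i)

theorem av_isoI {k N : ℕ} (T : Tournament k) (U : Tournament N) (hN : k ≤ N) :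
    av U (isoI T) = density T U * ((N.descFactorial k : ℝ) / (N : ℝ) ^ k) := by
  classical
  unfold av density
  set F := (univ.powersetCard k).filter fun S : Finset (Fin N) => Induces T U S with hF
  have h1 : ∑ x : Fin k → Fin N, isoI T (pull U x) = (k.factorial : ℝ) * (F.card : ℝ) := by
    simp_rw [isoI_pull]
    rw [Finset.sum_boole]
    have h2 := Finset.card_eq_sum_card_fiberwise
      (s := univ.filter fun x : Fin k → Fin N =>
        Function.Injective x ∧ Induces T U (univ.image x))
      (t := F) (f := fun x => univ.image x) (by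
        intro x hx
        rw [Finset.mem_coe, mem_filter] at hx
        rw [Finset.mem_coe, hF, mem_filter, mem_powersetCard]
        refine ⟨⟨subset_univ _, ?_⟩, hx.2.2⟩
        rw [card_image_of_injective _ hx.2.1, card_univ, Fintype.card_fin])
    rw [h2]
    have h3 : ∀ S ∈ F, ((univ.filter fun x : Fin k → Fin N =>
        Function.Injective x ∧ Induces T U (univ.image x)).filter
          fun x => univ.image x = S).card = k.factorial := by
      intro S hS
      rw [hF, mem_filter, mem_powersetCard] at hS
      rw [← fiber_eq S hS.1.2, filter_filter]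
      congr 1
      apply filter_congr
      intro x _
      constructor
      · rintro ⟨⟨a, _⟩, c⟩
        exact ⟨a, c⟩
      · rintro ⟨a, c⟩
        exact ⟨⟨a, by rw [c]; exact hS.2⟩, c⟩
    rw [Finset.sum_congr rfl h3, sum_const, smul_eq_mul]
    push_cast
    ring
  rw [h1]
  have hDc : (N.descFactorial k : ℝ) = k.factorial * N.choose k := by
    exact_mod_cast Nat.descFactorial_eq_factorial_mul_choose N k
  have hch : (N.choose k : ℝ) ≠ 0 := by
    have : 0 < N.choose k := Nat.choose_pos hN
    positivity
  rw [hDc]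
  field_simp

theorem E_isoI {N : ℕ → ℕ} (U : (m : ℕ) → Tournament (N m)) (hN : StrictMono N) {k : ℕ}
    (T : Tournament k) {c : ℝ} (h : Tendsto (fun m => density T (U m)) atTop (𝓝 c)) :
    E U (isoI T) = c := by
  refine tendsto_nhds_unique (tendsto_E U _) ?_
  have h1 := ((desc_tendsto k).comp hN.tendsto_atTop).mono_left 𝒰_le
  have h2 := (h.mono_left 𝒰_le).mul h1
  rw [mul_one] at h2
  refine h2.congr' ?_
  have h3 : ∀ᶠ m in (𝒰 : Filter ℕ), k ≤ N m :=
    (hN.tendsto_atTop.eventually_ge_atTop k).filter_mono 𝒰_le
  filter_upwards [h3] with m hm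
  exact (av_isoI T (U m) hm).symm

theorem cnt_sum (M : Pt 5) (i : Fin 5) : cnt M i = ∑ j, (M i j).toNat := by
  rw [Fin.sum_univ_five]
  rfl

theorem isoI_le (M : Pt 5) : isoI (carousel 2) M ≤ ((R5v M : ℤ) : ℝ) := by
  classical
  unfold isoI
  split_ifs with h
  · obtain ⟨σ, hσ⟩ := h
    have hcar : ∀ i : Fin 5, ∑ j : Fin 5,
        (decide (((i : ℕ) < j ∧ (j : ℕ) - i ≤ 2) ∨ ((j : ℕ) < i ∧ 2 + 1 ≤ (i : ℕ) - j))).toNat
          = 2 := by decide
    have h1 : ∀ i, cnt M i = 2 := by
      intro i
      obtain ⟨i, rfl⟩ := σ.surjective i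
      rw [cnt_sum, ← Equiv.sum_comp σ]
      refine Eq.trans ?_ (hcar i)
      refine Finset.sum_congr rfl fun j _ => ?_
      rw [hσ i j]
      congr 1
      rw [decide_eq_decide]
      exact carousel_adj i j
    have h2 : R5v M = 1 := by
      unfold R5v
      rw [if_pos ⟨h1 0, h1 1, h1 2, h1 3, h1 4⟩]
    rw [h2]
    norm_num
  · unfold R5v
    split_ifs <;> norm_num

/-- A limit maximising the density of the carousel tournament on five vertices is the limit
of the carousel tournaments. -/
theorem five_unique (φ : (k : ℕ) → Tournament k → ℝ) (hφ : IsLimit φ)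
    (h : (1 / 4 : ℝ) ^ 2 ≤ φ 5 (carousel 2)) : φ = phiR := by
  obtain ⟨N, U, hN, hlim⟩ := hφ
  obtain ⟨N', U', hN', hlim'⟩ := phiR_isLimit
  have key : ∀ {N : ℕ → ℕ} (U : (m : ℕ) → Tournament (N m)) (_ : StrictMono N)
      (ψ : (k : ℕ) → Tournament k → ℝ)
      (_ : ∀ (k : ℕ) (T : Tournament k), Tendsto (fun m => density T (U m)) atTop (𝓝 (ψ k T)))
      (_ : (1 / 4 : ℝ) ^ 2 ≤ ψ 5 (carousel 2)),
      1 / 16 ≤ E U (fun M : Pt 5 => ((R5v M : ℤ) : ℝ)) := by
    intro N U hN ψ hψ h5
    have h1 := E_isoI U hN (carousel 2) (hψ 5 (carousel 2))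
    have h2 := E_le U hN (isoI (carousel 2)) (fun M : Pt 5 => ((R5v M : ℤ) : ℝ))
      fun M _ => isoI_le M
    rw [h1] at h2
    refine le_trans ?_ h2
    refine le_trans ?_ h5
    norm_num
  have a1 := key U hN φ hlim h
  have a2 := key U' hN' phiR hlim' (phiR_ge 2)
  funext k T
  rw [← E_isoI U hN T (hlim k T), ← E_isoI U' hN' T (hlim' k T)]
  exact E_unique U hN U' hN' a1 a2 _

end Pool.Agent.U991.Car
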