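import Pool.Agent.U991.Car.Sw

/-!
Locally transitive patterns all have the same weight.
-/

namespace Pool.Agent.U991.Car

open Finset Filter Topology

set_option linter.unusedSectionVars false

theorem swap_twice {n : ℕ} (a b x : Fin n) : Equiv.swap a b (Equiv.swap a b x) = x := by
  have := (Equiv.swap a b).symm_apply_apply x
  rwa [Equiv.symm_swap] at this

theorem sw_single {k : ℕ} (i : Fin (k + 1)) (M : Pt (k + 1)) :
    sw (fun j => decide (j = i)) M =
      Pt.perm (Equiv.swap 0 i) (sw e0 (Pt.perm (Equiv.swap 0 i) M)) := by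
  funext a b
  have h : ∀ a, decide (Equiv.swap 0 i a = 0) = decide (a = i) := by
    intro a
    rw [decide_eq_decide]
    constructor
    · intro h
      have h2 : Equiv.swap 0 i a = Equiv.swap 0 i i := by rw [h, Equiv.swap_apply_right]
      exact (Equiv.swap 0 i).injective h2
    · rintro rfl
      exact Equiv.swap_apply_right 0 a
  simp only [sw, Pt.perm, e0, swap_twice, h]

theorem sw_insert {k : ℕ} (a : Fin k) (A : Finset (Fin k)) (ha : a ∉ A) (M : Pt k) :
    sw (fun j => decide (j ∈ insert a A)) M =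
      sw (fun j => decide (j ∈ A)) (sw (fun j => decide (j = a)) M) := by
  have h : ∀ j, decide (j ∈ insert a A) = xor (decide (j = a)) (decide (j ∈ A)) := by
    intro j
    by_cases h1 : j = a
    · subst h1; simp [ha]
    · simp [h1]
  funext i j
  simp only [sw, h]
  cases M i j <;> cases decide (i = a) <;> cases decide (j = a) <;> cases decide (i ∈ A) <;>
    cases decide (j ∈ A) <;> rfl

theorem sw_empty {k : ℕ} (M : Pt k) : sw (fun j => decide (j ∈ (∅ : Finset (Fin k)))) M = M := by
  funext i j
  simp [sw]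

/-- Locally transitive patterns. -/
def LT {k : ℕ} (M : Pt k) : Prop :=
  IsT M ∧ ∀ ι : Fin 4 → Fin k, Function.Injective ι → nlt M (ι 0) (ι 1) (ι 2) (ι 3) = false

theorem LT.not_nlt {k : ℕ} {M : Pt k} (h : LT M) {a b c d : Fin k} (hab : a ≠ b) (hac : a ≠ c)
    (had : a ≠ d) (hbc : b ≠ c) (hbd : b ≠ d) (hcd : c ≠ d) : nlt M a b c d = false := by
  have := h.2 (fun i => match i with | 0 => a | 1 => b | 2 => c | 3 => d) (by
    intro i j hij
    fin_cases i <;> fin_cases j <;> simp_all)
  exact this

theorem IsT_sw {k : ℕ} {M : Pt k} (h : IsT M) (A : Fin k → Bool) : IsT (sw A M) := by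
  constructor
  · intro i
    simp [sw, h.1 i]
  · intro i j hij
    simp only [sw]
    rw [h.2 i j hij]
    cases M j i <;> cases A i <;> cases A j <;> rfl

theorem sM_sw {k : ℕ} {M : Pt k} (h : IsT M) (A : Fin k → Bool) {i j : Fin k} (hij : i ≠ j) :
    sM (sw A M) i j = S (!A i) * S (!A j) * sM M i j := by
  rw [sM_bool h hij, sM_bool (IsT_sw h A) hij]
  simp only [sw, S]
  rcases Bool.eq_false_or_eq_true (M i j) with h1 | h1 <;>
    rcases Bool.eq_false_or_eq_true (A i) with h2 | h2 <;>
    rcases Bool.eq_false_or_eq_true (A j) with h3 | h3 <;> simp [h1, h2, h3]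

theorem S_pm (b : Bool) : S b = 1 ∨ S b = -1 := by
  cases b <;> simp [S]

theorem LT_sw {k : ℕ} {M : Pt k} (h : LT M) (A : Fin k → Bool) : LT (sw A M) := by
  refine ⟨IsT_sw h.1 A, fun ι hι => ?_⟩
  have h0 := h.2 ι hι
  have d : ∀ a b : Fin 4, a ≠ b → ι a ≠ ι b := fun a b hab e => hab (hι e)
  unfold nlt at h0 ⊢
  rw [decide_eq_false_iff_not] at h0 ⊢
  rw [sM_sw h.1 A (d 0 1 (by decide)), sM_sw h.1 A (d 2 3 (by decide)),
    sM_sw h.1 A (d 0 2 (by decide)), sM_sw h.1 A (d 3 1 (by decide)),
    sM_sw h.1 A (d 0 3 (by decide)), sM_sw h.1 A (d 1 2 (by decide))]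
  intro hcon
  apply h0
  rcases S_pm (!A (ι 0)) with e0 | e0 <;> rcases S_pm (!A (ι 1)) with e1 | e1 <;>
    rcases S_pm (!A (ι 2)) with e2 | e2 <;> rcases S_pm (!A (ι 3)) with e3 | e3 <;>
    rw [e0, e1, e2, e3] at hcon <;> constructor <;> linarith [hcon.1, hcon.2]

theorem LT_perm {k : ℕ} {M : Pt k} (h : LT M) (τ : Equiv.Perm (Fin k)) : LT (Pt.perm τ M) := by
  refine ⟨⟨fun i => h.1.1 _, fun i j hij => h.1.2 _ _ fun e => hij (τ.injective e)⟩,
    fun ι hι => ?_⟩
  exact h.2 (fun i => τ (ι i)) (τ.injective.comp hι)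

/-- A pattern without cyclic triangles. -/
def Tr {k : ℕ} (M : Pt k) : Prop := IsT M ∧ ∀ a b c, M a b = true → M b c = true → M a c = true

/-- If the first vertex dominates, the rest is transitive. -/
theorem tr_of_dom {k : ℕ} {M : Pt (k + 1)} (h : LT M) (hd : ∀ j : Fin k, M 0 j.succ = true) :
    Tr M := by
  refine ⟨h.1, fun a b c hab hbc => ?_⟩
  have T := h.1
  have hne : ∀ x y, M x y = true → x ≠ y := by
    rintro x y hxy rfl
    rw [T.1] at hxy
    exact absurd hxy (by decide)
  have h0 : ∀ x, x ≠ 0 → M 0 x = true := by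
    intro x hx
    obtain ⟨y, rfl⟩ := Fin.exists_succ_eq.mpr hx
    exact hd y
  have hx0 : ∀ x, M x 0 = false := by
    intro x
    by_cases hx : x = 0
    · rw [hx]; exact T.1 0
    · rw [T.2 x 0 hx, h0 x hx]; rfl
  have hb0 : b ≠ 0 := by
    rintro rfl
    rw [hx0] at hab
    exact absurd hab (by decide)
  have hc0 : c ≠ 0 := by
    rintro rfl
    rw [hx0] at hbc
    exact absurd hbc (by decide)
  by_cases ha0 : a = 0
  · rw [ha0]; exact h0 c hc0
  · by_contra hac
    rw [Bool.not_eq_true] at hac
    have hac' : a ≠ c := by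
      rintro rfl
      have := T.2 a b (hne a b hab)
      rw [hab, hbc] at this
      exact absurd this (by decide)
    have hca : M c a = true := by
      rw [T.2 c a (Ne.symm hac'), hac]; rfl
    have hn := h.not_nlt (a := 0) (b := a) (c := b) (d := c) (Ne.symm ha0) (Ne.symm hb0)
      (Ne.symm hc0) (hne a b hab) hac' (hne b c hbc)
    unfold nlt at hn
    rw [decide_eq_false_iff_not] at hn
    apply hn
    rw [sM_bool T (Ne.symm ha0), sM_bool T (hne b c hbc), sM_bool T (Ne.symm hb0),
      sM_bool T (Ne.symm hac'), sM_bool T (Ne.symm hc0), sM_bool T (hne a b hab), h0 a ha0,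
      h0 b hb0, h0 c hc0, hab, hbc, hca]
    decide

/-- Out-degree. -/
def od {k : ℕ} (M : Pt k) (i : Fin k) : ℕ := (univ.filter fun j => M i j = true).card

theorem od_lt {k : ℕ} {M : Pt k} (h : Tr M) {i j : Fin k} (hij : M i j = true) :
    od M j < od M i := by
  unfold od
  apply Finset.card_lt_card
  rw [Finset.ssubset_iff_of_subset]
  · exact ⟨j, by simp [hij], by simp [h.1.1 j]⟩
  · intro c hc
    rw [Finset.mem_filter] at hc ⊢
    exact ⟨Finset.mem_univ _, h.2 i j c hij hc.2⟩

theorem exists_top {k : ℕ} {M : Pt k} (h : Tr M) (i0 : Fin k) :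
    ∃ i, ∀ j, j ≠ i → M i j = true := by
  obtain ⟨i, _, hi⟩ := Finset.exists_max_image univ (od M) ⟨i0, Finset.mem_univ _⟩
  refine ⟨i, fun j hj => ?_⟩
  by_contra hcon
  rw [Bool.not_eq_true] at hcon
  have h1 : M j i = true := by rw [h.1.2 j i hj, hcon]; rfl
  have h2 := od_lt h h1
  have h3 := hi j (Finset.mem_univ _)
  omega

theorem exists_bot {k : ℕ} {M : Pt k} (h : Tr M) (i0 : Fin k) :
    ∃ i, ∀ j, j ≠ i → M j i = true := by
  obtain ⟨i, _, hi⟩ := Finset.exists_min_image univ (od M) ⟨i0, Finset.mem_univ _⟩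
  refine ⟨i, fun j hj => ?_⟩
  by_contra hcon
  rw [Bool.not_eq_true] at hcon
  have h1 : M i j = true := by rw [h.1.2 i j (Ne.symm hj), hcon]; rfl
  have h2 := od_lt h h1
  have h3 := hi j (Finset.mem_univ _)
  omega

/-- The standard transitive pattern. -/
def TT (k : ℕ) : Pt k := fun i j => decide (i < j)

/-- In-degree as an element of `Fin k`. -/
theorem exists_perm {k : ℕ} {M : Pt k} (h : Tr M) :
    ∃ ρ : Equiv.Perm (Fin k), M = Pt.perm ρ (TT k) := by
  have hlt : ∀ i, k - 1 - od M i < k := fun i => by have := i.2; omega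
  have hod : ∀ i, od M i ≤ k - 1 := by
    intro i
    have : od M i < k := by
      calc od M i < (univ : Finset (Fin k)).card := by
            unfold od
            apply Finset.card_lt_card
            rw [Finset.ssubset_iff_of_subset (Finset.filter_subset _ _)]
            exact ⟨i, Finset.mem_univ _, by simp [h.1.1 i]⟩
        _ = k := by rw [Finset.card_univ, Fintype.card_fin]
    omega
  let ρ : Fin k → Fin k := fun i => ⟨k - 1 - od M i, hlt i⟩
  have hmono : ∀ i j, M i j = true → ρ i < ρ j := by
    intro i j hij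
    have := od_lt h hij
    rw [Fin.lt_def]
    show k - 1 - od M i < k - 1 - od M j
    have := hod i
    omega
  have hinj : Function.Injective ρ := by
    intro i j hij
    by_contra hne
    rcases Bool.eq_false_or_eq_true (M i j) with h1 | h1
    · have := hmono i j h1
      rw [hij] at this
      exact lt_irrefl _ this
    · have h2 : M j i = true := by rw [h.1.2 j i (Ne.symm hne), h1]; rfl
      have := hmono j i h2
      rw [hij] at this
      exact lt_irrefl _ this
  refine ⟨Equiv.ofBijective ρ (Finite.injective_iff_bijective.mp hinj), ?_⟩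
  funext i j
  show M i j = decide (ρ i < ρ j)
  by_cases hij : i = j
  · subst hij
    rw [h.1.1]
    simp
  · rcases Bool.eq_false_or_eq_true (M i j) with h1 | h1
    · rw [h1]
      symm
      exact decide_eq_true (hmono i j h1)
    · have h2 : M j i = true := by rw [h.1.2 j i (Ne.symm hij), h1]; rfl
      rw [h1]
      symm
      exact decide_eq_false (not_lt.mpr (hmono j i h2).le)

/-- The combinatorial core: two coordinates decide. -/
theorem two_coord {k : ℕ} (M : Pt (k + 1)) (hM : LT M) (i0 : Fin k) :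
    ∃ i j : Fin k, ∀ M' : Pt (k + 1), LT M' → Pt.tail M' = Pt.tail M →
      2 * ((if M' = M then 1 else 0) - (if M' = sw e0 M then 1 else 0) : ℤ) =
        S (M 0 i.succ) * S (M' 0 i.succ) + S (M 0 j.succ) * S (M' 0 j.succ) := by
  set D : Fin (k + 1) → Bool := Fin.cases false (fun j => !(M 0 j.succ)) with hD
  have hD0 : D 0 = false := rfl
  have hDs : ∀ j : Fin k, D j.succ = !(M 0 j.succ) := fun j => rfl
  set M1 := sw D M with hM1
  have hLT1 : LT M1 := LT_sw hM D
  have hdom : ∀ j : Fin k, M1 0 j.succ = true := by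
    intro j
    simp only [hM1, sw, hD0, hDs]
    cases M 0 j.succ <;> rfl
  have hTr := tr_of_dom hLT1 hdom
  have hTrt : Tr (Pt.tail M1) :=
    ⟨⟨fun i => hLT1.1.1 _, fun i j hij => hLT1.1.2 _ _ fun e => hij (Fin.succ_injective _ e)⟩,
      fun a b c h1 h2 => hTr.2 _ _ _ h1 h2⟩
  obtain ⟨i, hi⟩ := exists_top hTrt i0
  obtain ⟨j, hj⟩ := exists_bot hTrt i0
  refine ⟨i, j, fun M' hM' htail => ?_⟩
  set M2 := sw D M' with hM2
  have hLT2 : LT M2 := LT_sw hM' D
  have htail2 : ∀ a b : Fin k, M2 a.succ b.succ = M1 a.succ b.succ := by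
    intro a b
    have : M' a.succ b.succ = M a.succ b.succ := congrFun (congrFun htail a) b
    simp only [hM1, hM2, sw, this]
  have he : ∀ v : Fin k, S (M 0 v.succ) * S (M' 0 v.succ) = S (M2 0 v.succ) := by
    intro v
    simp only [hM2, sw, hD0, hDs]
    cases M 0 v.succ <;> cases M' 0 v.succ <;> rfl
  rw [he, he]
  -- all equal if the two ends agree
  have hall : M2 0 i.succ = M2 0 j.succ → ∀ v : Fin k, M2 0 v.succ = M2 0 i.succ := by
    intro hij v
    by_cases hvi : v = i
    · rw [hvi]
    by_cases hvj : v = j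
    · rw [hvj, hij]
    by_contra hcon
    have hij' : i ≠ j := by
      intro e
      have h1 := hi v hvi
      have h2 := hj v hvj
      rw [← e] at h2
      have h3 := hTrt.1.2 i v (Ne.symm hvi)
      rw [h1, h2] at h3
      exact absurd h3 (by decide)
    have sne : ∀ {a b : Fin k}, a ≠ b → a.succ ≠ b.succ := fun hab e =>
      hab (Fin.succ_injective _ e)
    have hn := hLT2.not_nlt (a := 0) (b := i.succ) (c := v.succ) (d := j.succ)
      (Fin.succ_ne_zero i).symm (Fin.succ_ne_zero v).symm (Fin.succ_ne_zero j).symm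
      (sne (Ne.symm hvi)) (sne hij') (sne hvj)
    unfold nlt at hn
    rw [decide_eq_false_iff_not] at hn
    apply hn
    have a1 : M2 v.succ j.succ = true := by rw [htail2]; exact hj v hvj
    have a2 : M2 i.succ j.succ = true := by rw [htail2]; exact hi j (Ne.symm hij')
    have a3 : M2 j.succ i.succ = false := by
      rw [hLT2.1.2 _ _ (sne (Ne.symm hij')), a2]; rfl
    have a4 : M2 i.succ v.succ = true := by rw [htail2]; exact hi v hvi
    rw [sM_bool hLT2.1 (Fin.succ_ne_zero i).symm, sM_bool hLT2.1 (sne hvj),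
      sM_bool hLT2.1 (Fin.succ_ne_zero v).symm, sM_bool hLT2.1 (sne (Ne.symm hij')),
      sM_bool hLT2.1 (Fin.succ_ne_zero j).symm, sM_bool hLT2.1 (sne (Ne.symm hvi)),
      a1, a3, a4, ← hij]
    revert hcon
    cases M2 0 v.succ <;> cases M2 0 i.succ <;> simp
  have hback : ∀ (X Y : Pt (k + 1)), sw D X = sw D Y → X = Y := by
    intro X Y hXY
    funext a b
    have := congrFun (congrFun hXY a) b
    simp only [sw] at this
    revert this
    cases X a b <;> cases Y a b <;> cases D a <;> cases D b <;> simp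
  have hM1mk := eq_mk M1 hLT1.1
  have hM2mk := eq_mk M2 hLT2.1
  have httt : Pt.tail M2 = Pt.tail M1 := by
    funext a b
    exact htail2 a b
  have hc1 : M' = M ↔ ∀ v : Fin k, M2 0 v.succ = true := by
    constructor
    · intro e v
      have : M2 = M1 := by rw [hM2, e]
      rw [this]
      exact hdom v
    · intro h
      apply hback
      rw [← hM1, ← hM2, hM1mk, hM2mk, httt]
      congr 1
      funext v
      rw [h v, hdom v]
  have hc2 : M' = sw e0 M ↔ ∀ v : Fin k, M2 0 v.succ = false := by
    have hsw : sw D (sw e0 M) = sw e0 M1 := by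
      funext a b
      simp only [hM1, sw]
      cases M a b <;> cases D a <;> cases D b <;> cases (e0 a) <;> cases (e0 b) <;> rfl
    have hmk := sw0_eq_mk M1 hLT1.1
    constructor
    · intro e v
      have h1 : M2 = sw e0 M1 := by rw [hM2, e, hsw]
      rw [h1]
      simp only [sw, e0, hdom v]
      simp [Fin.succ_ne_zero]
    · intro h
      apply hback
      rw [hsw, ← hM2, hmk, hM2mk, httt]
      congr 1
      funext v
      rw [h v, hdom v]
      rfl
  rcases Bool.eq_false_or_eq_true (M2 0 i.succ) with h1 | h1 <;>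
    rcases Bool.eq_false_or_eq_true (M2 0 j.succ) with h2 | h2
  · have hA := hall (by rw [h1, h2])
    have c1 : M' = M := hc1.mpr fun v => by rw [hA v, h1]
    have c2 : ¬ M' = sw e0 M := fun e => by
      have := hc2.mp e i
      rw [h1] at this
      exact absurd this (by decide)
    rw [if_pos c1, if_neg c2, h1, h2]
    decide
  · have c1 : ¬ M' = M := fun e => by
      have := hc1.mp e j
      rw [h2] at this
      exact absurd this (by decide)
    have c2 : ¬ M' = sw e0 M := fun e => by
      have := hc2.mp e i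
      rw [h1] at this
      exact absurd this (by decide)
    rw [if_neg c1, if_neg c2, h1, h2]
    decide
  · have c1 : ¬ M' = M := fun e => by
      have := hc1.mp e i
      rw [h1] at this
      exact absurd this (by decide)
    have c2 : ¬ M' = sw e0 M := fun e => by
      have := hc2.mp e j
      rw [h2] at this
      exact absurd this (by decide)
    rw [if_neg c1, if_neg c2, h1, h2]
    decide
  · have hA := hall (by rw [h1, h2])
    have c2 : M' = sw e0 M := hc2.mpr fun v => by rw [hA v, h1]
    have c1 : ¬ M' = M := fun e => by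
      have := hc1.mp e i
      rw [h1] at this
      exact absurd this (by decide)
    rw [if_neg c1, if_pos c2, h1, h2]
    decide

end Pool.Agent.U991.Car
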