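import Pool.Agent.U991.Car.Def

/-!
The carousel side: the parity model and the densities of the carousel limit.
-/

namespace Pool.Agent.U991.Car

open Finset Filter Topology

set_option linter.unusedSectionVars false

/-- The parity tournament. -/
def par (N : ℕ) : Tournament N where
  adj x y := ((x : ℕ) < y ∧ ((y : ℕ) - x) % 2 = 0) ∨ ((y : ℕ) < x ∧ ((x : ℕ) - y) % 2 = 1)
  irrefl x := by omega
  one_arc x y hxy := by
    have h : (x : ℕ) ≠ y := fun h => hxy (Fin.ext h)
    omega

/-- The tournament of a parity pattern. -/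
def pat {k : ℕ} (π : Fin k → Bool) : Tournament k where
  adj x y := (x < y ∧ π x = π y) ∨ (y < x ∧ π x ≠ π y)
  irrefl x := by simp
  one_arc x y hxy := by
    constructor
    · rintro (⟨a, b⟩ | ⟨a, b⟩) (⟨c, d⟩ | ⟨c, d⟩)
      · exact absurd a c.not_gt
      · exact d b.symm
      · exact b d.symm
      · exact absurd a c.not_gt
    · intro hn
      rcases lt_or_gt_of_ne hxy with h | h
      · left
        refine ⟨h, ?_⟩
        by_contra hne
        exact hn (Or.inr ⟨h, fun e => hne e.symm⟩)
      · right
        refine ⟨h, ?_⟩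
        intro e
        exact hn (Or.inl ⟨h, e.symm⟩)

/-- Doubling modulo `2n+1`. -/
def dbl (n : ℕ) (x : Fin (2 * n + 1)) : Fin (2 * n + 1) :=
  ⟨if (x : ℕ) ≤ n then 2 * x else 2 * x - (2 * n + 1), by have := x.2; split_ifs <;> omega⟩

theorem dbl_inj (n : ℕ) : Function.Injective (dbl n) := by
  intro x y h
  have h1 := congrArg Fin.val h
  simp only [dbl] at h1
  apply Fin.ext
  have := x.2
  have := y.2
  split_ifs at h1 <;> omega

theorem dbl_adj (n : ℕ) (x y : Fin (2 * n + 1)) :
    (carousel n).adj x y ↔ (par (2 * n + 1)).adj (dbl n x) (dbl n y) := by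
  rw [carousel_adj]
  have := x.2
  have := y.2
  simp only [par, dbl]
  split_ifs <;> omega

theorem induces_dbl {k n : ℕ} (T : Tournament k) (S : Finset (Fin (2 * n + 1))) :
    Induces T (carousel n) S ↔ Induces T (par (2 * n + 1)) (S.image (dbl n)) := by
  have hb : Function.Bijective (dbl n) :=
    Finite.injective_iff_bijective.mp (dbl_inj n)
  constructor
  · rintro ⟨f, hf, rfl, h⟩
    refine ⟨fun i => dbl n (f i), (dbl_inj n).comp hf, ?_, fun x y => ?_⟩
    · rw [Finset.image_image]; rfl
    · rw [h, dbl_adj]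
  · rintro ⟨f, hf, hS, h⟩
    let e := Equiv.ofBijective (dbl n) hb
    have he : ∀ x, dbl n (e.symm x) = x := fun x => e.apply_symm_apply x
    refine ⟨fun i => e.symm (f i), e.symm.injective.comp hf, ?_, fun x y => ?_⟩
    · apply Finset.image_injective (dbl_inj n)
      rw [← hS, Finset.image_image]
      congr 1
      funext i
      exact he (f i)
    · rw [dbl_adj, he, he, h]

open Classical in
theorem density_par {k n : ℕ} (T : Tournament k) :
    density T (carousel n) = density T (par (2 * n + 1)) := by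
  unfold density
  congr 2
  refine Finset.card_bij (fun S _ => S.image (dbl n)) ?_ ?_ ?_
  · intro S hS
    rw [Finset.mem_filter, Finset.mem_powersetCard] at hS ⊢
    refine ⟨⟨Finset.subset_univ _, ?_⟩, (induces_dbl T S).mp hS.2⟩
    rw [Finset.card_image_of_injective _ (dbl_inj n)]
    exact hS.1.2
  · intro S _ S' _ h
    exact Finset.image_injective (dbl_inj n) h
  · intro S hS
    rw [Finset.mem_filter, Finset.mem_powersetCard] at hS
    have hb : Function.Bijective (dbl n) :=
      Finite.injective_iff_bijective.mp (dbl_inj n)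
    obtain ⟨S', hS'⟩ : ∃ S' : Finset (Fin (2 * n + 1)), S'.image (dbl n) = S := by
      refine ⟨univ.filter (fun x => dbl n x ∈ S), ?_⟩
      ext y
      simp only [Finset.mem_image, Finset.mem_filter, Finset.mem_univ, true_and]
      constructor
      · rintro ⟨x, hx, rfl⟩; exact hx
      · intro hy
        obtain ⟨x, rfl⟩ := hb.2 y
        exact ⟨x, hy, rfl⟩
    refine ⟨S', ?_, hS'⟩
    rw [Finset.mem_filter, Finset.mem_powersetCard]
    refine ⟨⟨Finset.subset_univ _, ?_⟩, ?_⟩
    · rw [← hS.1.2, ← hS', Finset.card_image_of_injective _ (dbl_inj n)]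
    · rw [induces_dbl, hS']
      exact hS.2

/-- Subsets of size `k` and strictly increasing maps. -/
theorem card_strictMono {k N : ℕ} (P : Finset (Fin N) → Prop) [DecidablePred P]
    [DecidablePred fun f : Fin k → Fin N => StrictMono f ∧ P (univ.image f)] :
    ((univ.powersetCard k).filter P).card =
      (univ.filter fun f : Fin k → Fin N => StrictMono f ∧ P (univ.image f)).card := by
  symm
  refine Finset.card_bij (fun f _ => univ.image f) ?_ ?_ ?_
  · intro f hf
    obtain ⟨_, h1, h2⟩ := Finset.mem_filter.mp hf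
    rw [Finset.mem_filter, Finset.mem_powersetCard]
    refine ⟨⟨Finset.subset_univ _, ?_⟩, h2⟩
    rw [Finset.card_image_of_injective _ h1.injective, Finset.card_univ, Fintype.card_fin]
  · intro f hf g hg h
    obtain ⟨_, h1, _⟩ := Finset.mem_filter.mp hf
    obtain ⟨_, h2, _⟩ := Finset.mem_filter.mp hg
    have hc : (univ.image f).card = k := by
      rw [Finset.card_image_of_injective _ h1.injective, Finset.card_univ, Fintype.card_fin]
    have e1 := Finset.orderEmbOfFin_unique hc (f := f)
      (fun x => Finset.mem_image_of_mem f (Finset.mem_univ x)) h1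
    have e2 := Finset.orderEmbOfFin_unique hc (f := g)
      (fun x => h ▸ Finset.mem_image_of_mem g (Finset.mem_univ x)) h2
    rw [e1, e2]
  · intro S hS
    rw [Finset.mem_filter, Finset.mem_powersetCard] at hS
    refine ⟨S.orderEmbOfFin hS.1.2, ?_, ?_⟩
    · rw [Finset.mem_filter]
      refine ⟨Finset.mem_univ _, (S.orderEmbOfFin hS.1.2).strictMono, ?_⟩
      rw [Finset.image_orderEmbOfFin_univ]
      exact hS.2
    · exact Finset.image_orderEmbOfFin_univ S hS.1.2

/-- Parity pattern of a map. -/
def pr {k N : ℕ} (f : Fin k → Fin N) : Fin k → Bool := fun i => decide ((f i : ℕ) % 2 = 1)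

theorem pr_adj {k N : ℕ} (f : Fin k → Fin N) (hf : StrictMono f) (x y : Fin k) :
    (par N).adj (f x) (f y) ↔ (pat (pr f)).adj x y := by
  have hlt : ∀ a b, (f a : ℕ) < f b ↔ a < b := fun a b => by
    rw [← Fin.lt_def]; exact hf.lt_iff_lt
  have hpar : pr f x = pr f y ↔ (f x : ℕ) % 2 = (f y : ℕ) % 2 := by
    simp only [pr, decide_eq_decide]
    omega
  simp only [par, pat, hlt, ne_eq, hpar]
  constructor
  · rintro (⟨a, b⟩ | ⟨a, b⟩)
    · left; refine ⟨a, ?_⟩
      have := (hlt x y).mpr a
      omega
    · right; refine ⟨a, ?_⟩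
      have := (hlt y x).mpr a
      omega
  · rintro (⟨a, b⟩ | ⟨a, b⟩)
    · left; refine ⟨a, ?_⟩
      have := (hlt x y).mpr a
      omega
    · right; refine ⟨a, ?_⟩
      have := (hlt y x).mpr a
      omega

theorem induces_pat {k l N : ℕ} (T : Tournament k) (f : Fin l → Fin N) (hf : StrictMono f) :
    Induces T (par N) (univ.image f) ↔ Induces T (pat (pr f)) univ := by
  constructor
  · rintro ⟨g, hg, hS, h⟩
    have hex : ∀ x, ∃ i, f i = g x := fun x => by
      have : g x ∈ univ.image f := hS ▸ Finset.mem_image_of_mem g (Finset.mem_univ x)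
      obtain ⟨i, _, hi⟩ := Finset.mem_image.mp this
      exact ⟨i, hi⟩
    choose e he using hex
    refine ⟨e, fun x y hxy => hg (by rw [← he x, ← he y, hxy]), ?_, fun x y => ?_⟩
    · ext i
      simp only [Finset.mem_image, Finset.mem_univ, true_and, iff_true]
      have : f i ∈ univ.image g := hS ▸ Finset.mem_image_of_mem f (Finset.mem_univ i)
      obtain ⟨x, _, hx⟩ := Finset.mem_image.mp this
      exact ⟨x, hf.injective (by rw [he x, hx])⟩
    · rw [h, ← pr_adj f hf, he, he]
  · rintro ⟨e, he, hS, h⟩
    refine ⟨fun x => f (e x), hf.injective.comp he, ?_, fun x y => ?_⟩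
    · have : (fun x => f (e x)) = f ∘ e := rfl
      rw [this, ← Finset.image_image, hS]
    · rw [h, pr_adj f hf]

/-- Number of increasing maps with parity pattern `π`. -/
noncomputable def AN (N : ℕ) {k : ℕ} (π : Fin k → Bool) : ℕ := by
  classical
  exact (univ.filter fun f : Fin k → Fin N => StrictMono f ∧ pr f = π).card

open Classical in
theorem card_sm (k N : ℕ) :
    (univ.filter fun f : Fin k → Fin N => StrictMono f).card = N.choose k := by
  have h := card_strictMono (k := k) (N := N) (fun _ => True)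
  simp only [and_true, Finset.filter_true] at h
  rw [← h, Finset.card_powersetCard, Finset.card_univ, Fintype.card_fin]

open Classical in
theorem sum_AN (k N : ℕ) : ∑ π : Fin k → Bool, AN N π = N.choose k := by
  rw [← card_sm k N, Finset.card_eq_sum_card_fiberwise (f := pr) (t := univ) (fun _ _ => by simp)]
  refine Finset.sum_congr rfl fun π _ => ?_
  unfold AN
  rw [Finset.filter_filter]

open Classical in
theorem count_par {k N : ℕ} (T : Tournament k) :
    ((univ.powersetCard k).filter fun S : Finset (Fin N) => Induces T (par N) S).card =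
      ∑ π : Fin k → Bool, if Induces T (pat π) univ then AN N π else 0 := by
  rw [card_strictMono,
    Finset.card_eq_sum_card_fiberwise (f := pr) (t := univ) (fun _ _ => by simp)]
  refine Finset.sum_congr rfl fun π _ => ?_
  rw [Finset.filter_filter]
  split_ifs with h
  · unfold AN
    congr 1
    ext f
    simp only [Finset.mem_filter, Finset.mem_univ, true_and]
    constructor
    · rintro ⟨⟨a, _⟩, c⟩; exact ⟨a, c⟩
    · rintro ⟨a, c⟩
      refine ⟨⟨a, ?_⟩, c⟩
      rw [induces_pat T f a, c]
      exact h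
  · rw [Finset.card_eq_zero, Finset.filter_eq_empty_iff]
    rintro f _ ⟨⟨a, b⟩, c⟩
    rw [induces_pat T f a, c] at b
    exact h b

open Classical in
theorem AN_ge {k : ℕ} (n : ℕ) (π : Fin k → Bool) : n.choose k ≤ AN (2 * n + 1) π := by
  rw [← card_sm k n]
  unfold AN
  refine Finset.card_le_card_of_injOn
    (fun g i => (⟨2 * (g i : ℕ) + (if π i then 1 else 0), by
      have := (g i).2; split_ifs <;> omega⟩ : Fin (2 * n + 1))) ?_ ?_
  · intro g hg
    have hg' : StrictMono g := (Finset.mem_filter.mp hg).2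
    refine Finset.mem_coe.mpr (Finset.mem_filter.mpr ⟨Finset.mem_univ _, ?_, ?_⟩)
    · intro i j hij
      have h1 := hg' hij
      rw [Fin.lt_def] at h1 ⊢
      simp only
      split_ifs <;> omega
    · funext i
      simp only [pr]
      by_cases h : π i = true
      · simp only [h, if_true, decide_eq_true_eq]
        omega
      · rw [Bool.not_eq_true] at h
        simp only [h, Bool.false_eq_true, if_false, decide_eq_false_iff_not]
        omega
  · intro g _ g' _ h
    funext i
    have h1 := congrArg Fin.val (congrFun h i)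
    simp only at h1
    apply Fin.ext
    omega

/-- The carousel homomorphism. -/
noncomputable def phiR (k : ℕ) (T : Tournament k) : ℝ := by
  classical
  exact ((univ.filter fun π : Fin k → Bool => Induces T (pat π) univ).card : ℝ) / 2 ^ k

theorem desc_tendsto (k : ℕ) :
    Tendsto (fun n : ℕ => (n.descFactorial k : ℝ) / (n : ℝ) ^ k) atTop (𝓝 1) := by
  induction k with
  | zero => simp
  | succ k ih =>
    have h1 : Tendsto (fun n : ℕ => ((n - k : ℕ) : ℝ) / (n : ℝ)) atTop (𝓝 1) := by
      have h2 : Tendsto (fun n : ℕ => 1 - (k : ℝ) / (n : ℝ)) atTop (𝓝 (1 - 0)) :=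
        tendsto_const_nhds.sub (tendsto_const_div_atTop_nhds_zero_nat _)
      rw [sub_zero] at h2
      refine h2.congr' ?_
      filter_upwards [eventually_ge_atTop (k + 1)] with n hn
      rw [Nat.cast_sub (by omega)]
      have : (n : ℝ) ≠ 0 := by
        have : 0 < n := by omega
        positivity
      field_simp
    have h3 := h1.mul ih
    rw [mul_one] at h3
    refine h3.congr fun n => ?_
    rw [Nat.descFactorial_succ, pow_succ]
    push_cast
    rw [div_mul_div_comm, mul_comm ((n : ℝ)) _]

theorem choose_ratio (k : ℕ) :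
    Tendsto (fun n : ℕ => (n.choose k : ℝ) / ((2 * n + 1).choose k : ℝ)) atTop
      (𝓝 ((1 / 2 : ℝ) ^ k)) := by
  have h1 := desc_tendsto k
  have h2 : Tendsto (fun n : ℕ => ((2 * n + 1).descFactorial k : ℝ) / ((2 * n + 1 : ℕ) : ℝ) ^ k)
      atTop (𝓝 1) := by
    have h0 : Tendsto (fun n : ℕ => 2 * n + 1) atTop atTop :=
      tendsto_atTop_mono (fun n => by simp only [id]; omega) tendsto_id
    exact h1.comp h0
  have h3 : Tendsto (fun n : ℕ => (n : ℝ) / ((2 * n + 1 : ℕ) : ℝ)) atTop (𝓝 (1 / 2)) := by
    have h4 : Tendsto (fun n : ℕ => 1 / 2 - (1 / 2) / ((2 * n + 1 : ℕ) : ℝ)) atTop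
        (𝓝 (1 / 2 - 0)) := by
      refine tendsto_const_nhds.sub ?_
      have h0 : Tendsto (fun n : ℕ => 2 * n + 1) atTop atTop :=
        tendsto_atTop_mono (fun n => by simp only [id]; omega) tendsto_id
      exact (tendsto_const_div_atTop_nhds_zero_nat (1 / 2 : ℝ)).comp h0
    rw [sub_zero] at h4
    refine h4.congr fun n => ?_
    have : ((2 * n + 1 : ℕ) : ℝ) ≠ 0 := by positivity
    field_simp
    push_cast
    ring
  have h5 := (h1.mul (h3.pow k)).mul (h2.inv₀ one_ne_zero)
  rw [inv_one, mul_one, one_mul] at h5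
  refine h5.congr' ?_
  filter_upwards [eventually_ge_atTop (k + 1)] with n hn
  have e1 : (n.descFactorial k : ℝ) = k.factorial * n.choose k := by
    exact_mod_cast Nat.descFactorial_eq_factorial_mul_choose n k
  have e2 : ((2 * n + 1).descFactorial k : ℝ) = k.factorial * (2 * n + 1).choose k := by
    exact_mod_cast Nat.descFactorial_eq_factorial_mul_choose (2 * n + 1) k
  have hk : (k.factorial : ℝ) ≠ 0 := by positivity
  have hn0 : (n : ℝ) ≠ 0 := by
    have : 0 < n := by omega
    positivity
  have hc : ((2 * n + 1).choose k : ℝ) ≠ 0 := by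
    have : 0 < (2 * n + 1).choose k := Nat.choose_pos (by omega)
    positivity
  have h2n : ((2 * n + 1 : ℕ) : ℝ) ≠ 0 := by positivity
  rw [e1, e2, div_pow]
  field_simp

/-- Each pattern has asymptotic density `2^{-k}`. -/
theorem AN_tendsto {k : ℕ} (π : Fin k → Bool) :
    Tendsto (fun n : ℕ => (AN (2 * n + 1) π : ℝ) / ((2 * n + 1).choose k : ℝ)) atTop
      (𝓝 ((1 / 2 : ℝ) ^ k)) := by
  classical
  have hL := choose_ratio k
  have hU : Tendsto (fun n : ℕ => 1 - ((2 : ℝ) ^ k - 1) *
      ((n.choose k : ℝ) / ((2 * n + 1).choose k : ℝ))) atTop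
      (𝓝 (1 - ((2 : ℝ) ^ k - 1) * (1 / 2 : ℝ) ^ k)) :=
    tendsto_const_nhds.sub (hL.const_mul _)
  have hlim : 1 - ((2 : ℝ) ^ k - 1) * (1 / 2 : ℝ) ^ k = (1 / 2 : ℝ) ^ k := by
    have : (2 : ℝ) ^ k * (1 / 2 : ℝ) ^ k = 1 := by
      rw [← mul_pow]; norm_num
    linarith [this, sub_mul ((2 : ℝ) ^ k) 1 ((1 / 2 : ℝ) ^ k)]
  rw [hlim] at hU
  refine tendsto_of_tendsto_of_tendsto_of_le_of_le' hL hU ?_ ?_
  · filter_upwards with n
    exact div_le_div_of_nonneg_right (by exact_mod_cast AN_ge n π) (by positivity)
  · filter_upwards [eventually_ge_atTop (k + 1)] with n hn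
    have hc : (0 : ℝ) < ((2 * n + 1).choose k : ℝ) := by
      have : 0 < (2 * n + 1).choose k := Nat.choose_pos (by omega)
      positivity
    have h1 := sum_AN k (2 * n + 1)
    rw [← Finset.add_sum_erase univ _ (Finset.mem_univ π)] at h1
    have h2 : ((2 : ℝ) ^ k - 1) * (n.choose k : ℝ) ≤
        ∑ π' ∈ univ.erase π, (AN (2 * n + 1) π' : ℝ) := by
      have h3 : (∑ π' ∈ univ.erase π, (n.choose k : ℝ)) ≤
          ∑ π' ∈ univ.erase π, (AN (2 * n + 1) π' : ℝ) :=
        Finset.sum_le_sum fun π' _ => by exact_mod_cast AN_ge n π'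
      rw [Finset.sum_const, Finset.card_erase_of_mem (Finset.mem_univ _), Finset.card_univ,
        Fintype.card_fun, Fintype.card_bool, Fintype.card_fin, nsmul_eq_mul,
        Nat.cast_sub Nat.one_le_two_pow] at h3
      push_cast at h3
      exact h3
    have h4 : (AN (2 * n + 1) π : ℝ) + ∑ π' ∈ univ.erase π, (AN (2 * n + 1) π' : ℝ)
        = ((2 * n + 1).choose k : ℝ) := by exact_mod_cast h1
    rw [div_le_iff₀ hc, sub_mul, one_mul, mul_assoc, div_mul_cancel₀ _ hc.ne']
    linarith

theorem carousel_tendsto (k : ℕ) (T : Tournament k) :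
    Tendsto (fun n => density T (carousel n)) atTop (𝓝 (phiR k T)) := by
  classical
  have h1 : ∀ n, density T (carousel n) = ∑ π : Fin k → Bool,
      (if Induces T (pat π) univ then
        ((AN (2 * n + 1) π : ℝ) / ((2 * n + 1).choose k : ℝ)) else 0) := by
    intro n
    rw [density_par]
    unfold density
    have h2 := count_par (N := 2 * n + 1) T
    have h3 : (((univ.powersetCard k).filter fun S : Finset (Fin (2 * n + 1)) =>
        Induces T (par (2 * n + 1)) S).card : ℝ) = ∑ π : Fin k → Bool,
        if Induces T (pat π) univ then (AN (2 * n + 1) π : ℝ) else 0 := by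
      rw [h2]; push_cast; rfl
    rw [h3, Finset.sum_div]
    refine Finset.sum_congr rfl fun π _ => ?_
    split_ifs
    · rfl
    · simp
  simp_rw [h1]
  have h2 : phiR k T = ∑ π : Fin k → Bool,
      (if Induces T (pat π) univ then ((1 / 2 : ℝ) ^ k) else 0) := by
    unfold phiR
    rw [← Finset.sum_filter, Finset.sum_const, nsmul_eq_mul, one_div, inv_pow]
    rfl
  rw [h2]
  refine tendsto_finsetSum _ fun π _ => ?_
  split_ifs
  · exact AN_tendsto π
  · exact tendsto_const_nhds

theorem phiR_isLimit : IsLimit phiR :=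
  ⟨fun n => 2 * n + 1, fun n => carousel n, fun a b h => by simp only; omega, carousel_tendsto⟩

/-- The two alternating patterns give the carousel tournament. -/
theorem induces_alt (n : ℕ) (c : Bool) :
    Induces (carousel n) (pat fun i : Fin (2 * n + 1) => xor c (decide ((i : ℕ) % 2 = 1)))
      univ := by
  refine ⟨dbl n, dbl_inj n, ?_, fun x y => ?_⟩
  · exact Finset.image_univ_of_surjective (Finite.injective_iff_surjective.mp (dbl_inj n))
  · rw [dbl_adj]
    have h : ∀ a b : Fin (2 * n + 1), (xor c (decide ((a : ℕ) % 2 = 1)) =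
        xor c (decide ((b : ℕ) % 2 = 1))) ↔ (a : ℕ) % 2 = (b : ℕ) % 2 := by
      intro a b
      rw [Bool.xor_right_inj, decide_eq_decide]
      omega
    simp only [par, pat, ne_eq, h, Fin.lt_def]
    omega

theorem phiR_ge (n : ℕ) : (1 / 4 : ℝ) ^ n ≤ phiR (2 * n + 1) (carousel n) := by
  classical
  unfold phiR
  have h : 2 ≤ (univ.filter fun π : Fin (2 * n + 1) → Bool =>
      Induces (carousel n) (pat π) univ).card := by
    have h1 : ({(fun i : Fin (2 * n + 1) => xor false (decide ((i : ℕ) % 2 = 1))),
        (fun i : Fin (2 * n + 1) => xor true (decide ((i : ℕ) % 2 = 1)))} :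
        Finset (Fin (2 * n + 1) → Bool)).card = 2 := by
      apply Finset.card_pair
      intro h
      have := congrFun h ⟨0, by omega⟩
      simp at this
    refine h1.ge.trans ?_
    apply Finset.card_le_card
    intro π hπ
    rw [Finset.mem_insert, Finset.mem_singleton] at hπ
    rw [Finset.mem_filter]
    refine ⟨Finset.mem_univ _, ?_⟩
    rcases hπ with rfl | rfl
    · exact induces_alt n false
    · exact induces_alt n true
  rw [le_div_iff₀ (by positivity)]
  have h2 : (1 / 4 : ℝ) ^ n * 2 ^ (2 * n + 1) = 2 := by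
    rw [pow_succ, pow_mul, ← mul_assoc, ← mul_pow]
    norm_num
  rw [h2]
  exact_mod_cast h

end Pool.Agent.U991.Car
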