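import Pool.Agent.U991.Car.Ext

/-!
Switching invariance on five vertices, and vanishing of the non locally transitive quadruples.
-/

namespace Pool.Agent.U991.Car

open Finset Filter Topology

set_option linter.unusedSectionVars false

/-- Sign of a Boolean. -/
def S (b : Bool) : ℤ := if b then 1 else -1

/-- Pattern with first vertex of out-pattern `c`. -/
def mk {k : ℕ} (κ : Pt k) (c : Fin k → Bool) : Pt (k + 1) := fun i j =>
  Fin.cases (motive := fun _ => Bool) (Fin.cases (motive := fun _ => Bool) false c j)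
    (fun i' => Fin.cases (motive := fun _ => Bool) (!c i') (fun j' => κ i' j') j) i

/-- Indicator of the first vertex. -/
def e0 {k : ℕ} : Fin (k + 1) → Bool := fun i => decide (i = 0)

theorem eq_mk {k : ℕ} (M : Pt (k + 1)) (h : IsT M) : M = mk (Pt.tail M) (fun j => M 0 j.succ) := by
  funext i j
  refine Fin.cases ?_ (fun i' => ?_) i <;> refine Fin.cases ?_ (fun j' => ?_) j
  · simp only [mk, Fin.cases_zero]
    exact h.1 0
  · simp only [mk, Fin.cases_zero, Fin.cases_succ]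
  · simp only [mk, Fin.cases_zero, Fin.cases_succ]
    exact h.2 _ _ (Fin.succ_ne_zero i')
  · simp only [mk, Fin.cases_succ]
    rfl

theorem sw0_eq_mk {k : ℕ} (M : Pt (k + 1)) (h : IsT M) :
    sw e0 M = mk (Pt.tail M) (fun j => !M 0 j.succ) := by
  funext i j
  refine Fin.cases ?_ (fun i' => ?_) i <;> refine Fin.cases ?_ (fun j' => ?_) j
  · simp only [mk, Fin.cases_zero, sw, e0]
    rw [h.1 0]
    simp
  · simp only [mk, Fin.cases_zero, Fin.cases_succ, sw, e0, Fin.succ_ne_zero]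
    simp
  · simp only [mk, Fin.cases_zero, Fin.cases_succ, sw, e0, Fin.succ_ne_zero]
    rw [h.2 _ _ (Fin.succ_ne_zero i')]
    simp
  · simp only [mk, Fin.cases_succ, sw, e0, Fin.succ_ne_zero]
    simp [Pt.tail, Pt.perm]

theorem fourier (c c' : Fin 4 → Bool) :
    8 * ((if c' = c then 1 else 0) - (if c' = (fun j => !c j) then 1 else 0) : ℤ) =
      S (c' 0) * S (c 0) + S (c' 1) * S (c 1) + S (c' 2) * S (c 2) + S (c' 3) * S (c 3) +
      S (c' 1) * S (c' 2) * S (c' 3) * (S (c 1) * S (c 2) * S (c 3)) +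
      S (c' 0) * S (c' 2) * S (c' 3) * (S (c 0) * S (c 2) * S (c 3)) +
      S (c' 0) * S (c' 1) * S (c' 3) * (S (c 0) * S (c 1) * S (c 3)) +
      S (c' 0) * S (c' 1) * S (c' 2) * (S (c 0) * S (c 1) * S (c 2)) := by
  revert c c'
  decide

section
variable {N : ℕ → ℕ} (U : (m : ℕ) → Tournament (N m)) (hN : StrictMono N)
include hN

theorem E_tail {k : ℕ} (g : Pt k → ℝ) : E U (fun M : Pt (k + 1) => g (Pt.tail M)) = E U g := by
  refine tendsto_nhds_unique (tendsto_E U _) ((tendsto_E U g).congr' ?_)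
  filter_upwards [ev_pos hN] with m hm
  unfold av
  rw [sum_cons]
  have : ∀ (x : Fin k → Fin (N m)) (z : Fin (N m)),
      Pt.tail (pull (U m) (Fin.cons z x : Fin (k + 1) → Fin (N m))) = pull (U m) x := by
    intro x z
    rw [Pt.tail, pull_perm]
    congr 1
  simp_rw [this, Finset.sum_const, Finset.card_univ, Fintype.card_fin, nsmul_eq_mul,
    ← Finset.mul_sum]
  rw [pow_succ]
  field_simp

variable (hb : E U (fun M : Pt 3 => ((sM M 0 2 : ℤ) : ℝ) * ((sM M 1 2 : ℤ) : ℝ)) = 0)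
include hb

theorem E_one_vertex {l : ℕ} (g : Pt l → ℝ) (i : Fin l) :
    E U (fun M : Pt (l + 1) => g (Pt.tail M) * ((S (M 0 i.succ) : ℤ) : ℝ)) = 0 := by
  rw [← cs1 U hN hb g i]
  refine E_congr U hN _ _ fun M hM => ?_
  rw [sM_bool hM (Fin.succ_ne_zero i).symm]
  rfl

variable (hA : E U (fun M : Pt 5 => fA (Pt.perm d1 M) * fA (Pt.tail M)) = 0)
include hA

theorem E_triple (g : Pt 4 → ℝ) :
    E U (fun M : Pt 5 => g (Pt.tail M) *
      ((S (M 0 2) * S (M 0 3) * S (M 0 4) : ℤ) : ℝ)) = 0 := by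
  set w : Pt 4 → ℝ := fun κ => ((sM κ 2 3 * sM κ 3 1 * sM κ 1 2 : ℤ) : ℝ) with hw
  have h1 := cs3 U hN fA (fun κ => g κ * w κ) hA
  have h2 := cs1 U hN hb (fun κ => g κ * w κ * ((sM κ 2 3 : ℤ) : ℝ)) 1
  have h3 := cs1 U hN hb (fun κ => g κ * w κ * ((sM κ 3 1 : ℤ) : ℝ)) 2
  have h4 := cs1 U hN hb (fun κ => g κ * w κ * ((sM κ 1 2 : ℤ) : ℝ)) 3
  have key : E U (fun M : Pt 5 => g (Pt.tail M) *
      ((S (M 0 2) * S (M 0 3) * S (M 0 4) : ℤ) : ℝ)) =
      E U (fun M : Pt 5 =>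
        (g (Pt.tail M) * w (Pt.tail M) * ((sM (Pt.tail M) 2 3 : ℤ) : ℝ)) *
          ((sM M 0 (Fin.succ 1) : ℤ) : ℝ) +
        (g (Pt.tail M) * w (Pt.tail M) * ((sM (Pt.tail M) 3 1 : ℤ) : ℝ)) *
          ((sM M 0 (Fin.succ 2) : ℤ) : ℝ) +
        (g (Pt.tail M) * w (Pt.tail M) * ((sM (Pt.tail M) 1 2 : ℤ) : ℝ)) *
          ((sM M 0 (Fin.succ 3) : ℤ) : ℝ) +
        (-2) * ((g (Pt.tail M) * w (Pt.tail M)) * fA (Pt.perm d1 M))) := by
    refine E_congr U hN _ _ fun M hM => ?_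
    have e1 : fA (Pt.perm d1 M) = ((sig M 0 2 3 4 : ℤ) : ℝ) := rfl
    have e2 : sM (Pt.tail M) 2 3 = sM M 3 4 := rfl
    have e3 : sM (Pt.tail M) 3 1 = sM M 4 2 := rfl
    have e4 : sM (Pt.tail M) 1 2 = sM M 2 3 := rfl
    have f1 : sM M 0 (Fin.succ 1) = sM M 0 2 := rfl
    have f2 : sM M 0 (Fin.succ 2) = sM M 0 3 := rfl
    have f3 : sM M 0 (Fin.succ 3) = sM M 0 4 := rfl
    have g1 : S (M 0 2) = sM M 0 2 := (sM_bool hM (by decide)).symm
    have g2 : S (M 0 3) = sM M 0 3 := (sM_bool hM (by decide)).symm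
    have g3 : S (M 0 4) = sM M 0 4 := (sM_bool hM (by decide)).symm
    simp only [hw]
    rw [e1, e2, e3, e4, f1, f2, f3, g1, g2, g3]
    have p1 := sM_pm hM (i := 0) (j := 2) (by decide)
    have p2 := sM_pm hM (i := 0) (j := 3) (by decide)
    have p3 := sM_pm hM (i := 0) (j := 4) (by decide)
    have p4 := sM_pm hM (i := 3) (j := 4) (by decide)
    have p5 := sM_pm hM (i := 4) (j := 2) (by decide)
    have p6 := sM_pm hM (i := 2) (j := 3) (by decide)
    have hz : sM M 0 2 * sM M 0 3 * sM M 0 4 =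
        (sM M 3 4 * sM M 4 2 * sM M 2 3) * sM M 3 4 * sM M 0 2 +
        (sM M 3 4 * sM M 4 2 * sM M 2 3) * sM M 4 2 * sM M 0 3 +
        (sM M 3 4 * sM M 4 2 * sM M 2 3) * sM M 2 3 * sM M 0 4 +
        (-2) * ((sM M 3 4 * sM M 4 2 * sM M 2 3) * sig M 0 2 3 4) := by
      unfold sig
      rcases p1 with p1 | p1 <;> rcases p2 with p2 | p2 <;> rcases p3 with p3 | p3 <;>
        rcases p4 with p4 | p4 <;> rcases p5 with p5 | p5 <;> rcases p6 with p6 | p6 <;>
        rw [p1, p2, p3, p4, p5, p6] <;> decide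
    have hz' : ((sM M 0 2 * sM M 0 3 * sM M 0 4 : ℤ) : ℝ) =
        (((sM M 3 4 * sM M 4 2 * sM M 2 3) * sM M 3 4 * sM M 0 2 +
        (sM M 3 4 * sM M 4 2 * sM M 2 3) * sM M 4 2 * sM M 0 3 +
        (sM M 3 4 * sM M 4 2 * sM M 2 3) * sM M 2 3 * sM M 0 4 +
        (-2) * ((sM M 3 4 * sM M 4 2 * sM M 2 3) * sig M 0 2 3 4) : ℤ) : ℝ) := by rw [hz]
    rw [hz']
    push_cast
    ring
  rw [key]
  simp only [E_add, E_smul]
  rw [h2, h3, h4, h1]
  ring

/-- All four triples. -/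
theorem E_triple' (g : Pt 4 → ℝ) (a b c : Fin 4) (τ : Equiv.Perm (Fin 4))
    (h1 : τ 1 = a) (h2 : τ 2 = b) (h3 : τ 3 = c) :
    E U (fun M : Pt 5 => g (Pt.tail M) *
      ((S (M 0 a.succ) * S (M 0 b.succ) * S (M 0 c.succ) : ℤ) : ℝ)) = 0 := by
  -- the permutation of five points extending `τ`
  let σ : Equiv.Perm (Fin 5) := (Equiv.Perm.decomposeFin.symm (0, τ))
  have hσ0 : σ 0 = 0 := by simp [σ]
  have hσs : ∀ j : Fin 4, σ j.succ = (τ j).succ := by
    intro j
    simp [σ]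
  have h := E_triple U hN hb hA (fun κ => g (Pt.perm τ.symm κ))
  rw [← E_perm U σ] at h
  rw [← h]
  congr 1
  funext M
  have e1 : Pt.perm τ.symm (Pt.tail (Pt.perm σ M)) = Pt.tail M := by
    funext i j
    show M (σ (Fin.succ (τ.symm i))) (σ (Fin.succ (τ.symm j))) = M i.succ j.succ
    rw [hσs, hσs]
    simp
  have e2 : Pt.perm σ M 0 2 = M 0 a.succ := by
    show M (σ 0) (σ 2) = _
    rw [hσ0, show (2 : Fin 5) = Fin.succ 1 from rfl, hσs, h1]
  have e3 : Pt.perm σ M 0 3 = M 0 b.succ := by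
    show M (σ 0) (σ 3) = _
    rw [hσ0, show (3 : Fin 5) = Fin.succ 2 from rfl, hσs, h2]
  have e4 : Pt.perm σ M 0 4 = M 0 c.succ := by
    show M (σ 0) (σ 4) = _
    rw [hσ0, show (4 : Fin 5) = Fin.succ 3 from rfl, hσs, h3]
  rw [e1, e2, e3, e4]

/-- Switching invariance at the first of five vertices. -/
theorem E_sw0 (g : Pt 5 → ℝ) : E U (fun M => g (sw e0 M)) = E U g := by
  have hdiff : E U (fun M => 8 * (g M + (-1) * g (sw e0 M))) = 0 := by
    have h1 : E U (fun M => 8 * (g M + (-1) * g (sw e0 M))) =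
        E U (fun M : Pt 5 => ∑ c' : Fin 4 → Bool,
          ((g (mk (Pt.tail M) c') * S (c' 0)) * ((S (M 0 (Fin.succ 0)) : ℤ) : ℝ) +
           (g (mk (Pt.tail M) c') * S (c' 1)) * ((S (M 0 (Fin.succ 1)) : ℤ) : ℝ) +
           (g (mk (Pt.tail M) c') * S (c' 2)) * ((S (M 0 (Fin.succ 2)) : ℤ) : ℝ) +
           (g (mk (Pt.tail M) c') * S (c' 3)) * ((S (M 0 (Fin.succ 3)) : ℤ) : ℝ) +
           (g (mk (Pt.tail M) c') * (S (c' 1) * S (c' 2) * S (c' 3) : ℤ)) *
             ((S (M 0 (Fin.succ 1)) * S (M 0 (Fin.succ 2)) * S (M 0 (Fin.succ 3)) : ℤ) : ℝ) +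
           (g (mk (Pt.tail M) c') * (S (c' 0) * S (c' 2) * S (c' 3) : ℤ)) *
             ((S (M 0 (Fin.succ 0)) * S (M 0 (Fin.succ 2)) * S (M 0 (Fin.succ 3)) : ℤ) : ℝ) +
           (g (mk (Pt.tail M) c') * (S (c' 0) * S (c' 1) * S (c' 3) : ℤ)) *
             ((S (M 0 (Fin.succ 0)) * S (M 0 (Fin.succ 1)) * S (M 0 (Fin.succ 3)) : ℤ) : ℝ) +
           (g (mk (Pt.tail M) c') * (S (c' 0) * S (c' 1) * S (c' 2) : ℤ)) *
             ((S (M 0 (Fin.succ 0)) * S (M 0 (Fin.succ 1)) * S (M 0 (Fin.succ 2)) : ℤ) : ℝ))) := by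
      refine E_congr U hN _ _ fun M hM => ?_
      set c : Fin 4 → Bool := fun j => M 0 j.succ with hc
      have hM1 : g M = ∑ c' : Fin 4 → Bool,
          g (mk (Pt.tail M) c') * (if c' = c then 1 else 0) := by
        simp only [mul_ite, mul_one, mul_zero, Finset.sum_ite_eq', Finset.mem_univ, if_true]
        rw [hc, ← eq_mk M hM]
      have hM2 : g (sw e0 M) = ∑ c' : Fin 4 → Bool,
          g (mk (Pt.tail M) c') * (if c' = (fun j => !c j) then 1 else 0) := by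
        simp only [mul_ite, mul_one, mul_zero, Finset.sum_ite_eq', Finset.mem_univ, if_true]
        rw [hc, ← sw0_eq_mk M hM]
      rw [hM1, hM2, Finset.mul_sum, ← Finset.sum_add_distrib, Finset.mul_sum]
      refine Finset.sum_congr rfl fun c' _ => ?_
      have hf := fourier c c'
      have hf' : (8 : ℝ) * ((if c' = c then 1 else 0) - (if c' = (fun j => !c j) then 1 else 0)) =
        ((S (c' 0) * S (c 0) + S (c' 1) * S (c 1) + S (c' 2) * S (c 2) + S (c' 3) * S (c 3) +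
      S (c' 1) * S (c' 2) * S (c' 3) * (S (c 1) * S (c 2) * S (c 3)) +
      S (c' 0) * S (c' 2) * S (c' 3) * (S (c 0) * S (c 2) * S (c 3)) +
      S (c' 0) * S (c' 1) * S (c' 3) * (S (c 0) * S (c 1) * S (c 3)) +
      S (c' 0) * S (c' 1) * S (c' 2) * (S (c 0) * S (c 1) * S (c 2)) : ℤ) : ℝ) := by
        rw [← hf]
        push_cast
        rfl
      have e : (8 : ℝ) * (g (mk (Pt.tail M) c') * (if c' = c then 1 else 0) +
          (-1) * (g (mk (Pt.tail M) c') * (if c' = (fun j => !c j) then 1 else 0))) =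
          g (mk (Pt.tail M) c') * (8 * ((if c' = c then 1 else 0) -
            (if c' = (fun j => !c j) then 1 else 0))) := by ring
      rw [e, hf']
      simp only [hc]
      push_cast
      ring
    rw [h1, E_sum]
    refine Finset.sum_eq_zero fun c' _ => ?_
    simp only [E_add]
    rw [E_one_vertex U hN hb (fun κ => g (mk κ c') * S (c' 0)) 0,
      E_one_vertex U hN hb (fun κ => g (mk κ c') * S (c' 1)) 1,
      E_one_vertex U hN hb (fun κ => g (mk κ c') * S (c' 2)) 2,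
      E_one_vertex U hN hb (fun κ => g (mk κ c') * S (c' 3)) 3,
      E_triple' U hN hb hA (fun κ => g (mk κ c') * (S (c' 1) * S (c' 2) * S (c' 3) : ℤ)) 1 2 3
        (Equiv.refl _) rfl rfl rfl,
      E_triple' U hN hb hA (fun κ => g (mk κ c') * (S (c' 0) * S (c' 2) * S (c' 3) : ℤ)) 0 2 3
        (Equiv.swap 0 1) (by decide) (by decide) (by decide),
      E_triple' U hN hb hA (fun κ => g (mk κ c') * (S (c' 0) * S (c' 1) * S (c' 3) : ℤ)) 0 1 3
        (Equiv.swap 0 1 * Equiv.swap 0 2) (by decide) (by decide) (by decide),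
      E_triple' U hN hb hA (fun κ => g (mk κ c') * (S (c' 0) * S (c' 1) * S (c' 2) : ℤ)) 0 1 2
        (Equiv.swap 0 1 * Equiv.swap 0 2 * Equiv.swap 0 3) (by decide) (by decide) (by decide)]
    ring
  have h2 := E_smul U 8 (fun M => g M + (-1) * g (sw e0 M))
  rw [hdiff] at h2
  have h3 := E_add U g (fun M => (-1) * g (sw e0 M))
  rw [E_smul] at h3
  linarith

end

end Pool.Agent.U991.Car
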