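import Pool.Agent.U991.Car.Wt

/-!
The universal formula for the limits of the averages in the extremal case.
-/

namespace Pool.Agent.U991.Car

open Finset Filter Topology

set_option linter.unusedSectionVars false

/-- Weight of a pattern. -/
noncomputable def wt {N : ℕ → ℕ} (U : (m : ℕ) → Tournament (N m)) {k : ℕ} (M : Pt k) : ℝ :=
  E U (fun M' : Pt k => if M' = M then (1 : ℝ) else 0)

section
variable {N : ℕ → ℕ} (U : (m : ℕ) → Tournament (N m))

theorem E_eq_sum {k : ℕ} (g : Pt k → ℝ) : E U g = ∑ M, g M * wt U M := by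
  have h : g = fun M' => ∑ M, g M * (if M' = M then (1 : ℝ) else 0) := by
    funext M'
    simp
  conv_lhs => rw [h]
  rw [E_sum]
  exact Finset.sum_congr rfl fun M _ => E_smul U (g M) _

theorem wt_perm {k : ℕ} (τ : Equiv.Perm (Fin k)) (M : Pt k) :
    wt U (Pt.perm τ M) = wt U M := by
  unfold wt
  rw [← E_perm U τ]
  congr 1
  funext M'
  have h : Pt.perm τ M' = Pt.perm τ M ↔ M' = M := by
    constructor
    · intro h
      funext i j
      have := congrFun (congrFun h (τ.symm i)) (τ.symm j)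
      simpa [Pt.perm] using this
    · rintro rfl
      rfl
  simp only [h]

variable (hN : StrictMono N)
include hN

theorem wt_notT {k : ℕ} (M : Pt k) (h : ¬ IsT M) : wt U M = 0 := by
  refine (E_congr U hN _ (fun _ => (0 : ℝ)) fun M' hM' => ?_).trans (E_zero U)
  rw [if_neg]
  rintro rfl
  exact h hM'

theorem wt_sum {k : ℕ} : ∑ M : Pt k, wt U M = 1 := by
  rw [← E_one U hN (k := k), E_eq_sum U (fun _ => (1 : ℝ))]
  simp

variable (hb : E U (fun M : Pt 3 => ((sM M 0 2 : ℤ) : ℝ) * ((sM M 1 2 : ℤ) : ℝ)) = 0)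
  (hA : E U (fun M : Pt 5 => fA (Pt.perm d1 M) * fA (Pt.tail M)) = 0)
  (hG : E U (fun M : Pt 5 => ((G4v M : ℤ) : ℝ)) = 0)
include hb hA hG

theorem wt_notLT {k : ℕ} (M : Pt k) (h : ¬ LT M) : wt U M = 0 := by
  by_cases hT : IsT M
  · have h1 : ∃ ι : Fin 4 → Fin k, Function.Injective ι ∧
        nlt M (ι 0) (ι 1) (ι 2) (ι 3) = true := by
      by_contra hcon
      push Not at hcon
      exact h ⟨hT, fun ι hι => by simpa using hcon ι hι⟩
    obtain ⟨ι, hι, hn⟩ := h1
    apply le_antisymm
    · rw [← nlt4 U hN hb hA hG, ← E_marg U hN ι hι]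
      refine E_le U hN _ _ fun M' _ => ?_
      by_cases hM : M' = M
      · subst hM
        rw [if_pos rfl, if_pos]
        exact hn
      · rw [if_neg hM]
        split_ifs <;> norm_num
    · exact E_nonneg U hN _ fun M' _ => by split_ifs <;> norm_num
  · exact wt_notT U hN M hT

theorem E_congrLT {k : ℕ} (f g : Pt k → ℝ) (h : ∀ M, LT M → f M = g M) : E U f = E U g := by
  rw [E_eq_sum, E_eq_sum]
  refine Finset.sum_congr rfl fun M _ => ?_
  by_cases hM : LT M
  · rw [h M hM]
  · rw [wt_notLT U hN hb hA hG M hM, mul_zero, mul_zero]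

theorem wt_sw0 {k : ℕ} (M : Pt (k + 1)) (hM : LT M) : wt U (sw e0 M) = wt U M := by
  rcases Nat.eq_zero_or_pos k with hk | hk
  · subst hk
    congr 1
    funext a b
    have ha : a = b := Fin.ext (by omega)
    subst ha
    simp [sw]
  · obtain ⟨i, j, hij⟩ := two_coord M hM ⟨0, hk⟩
    have htail : Pt.tail (sw e0 M) = Pt.tail M := by
      funext a b
      show sw e0 M a.succ b.succ = M a.succ b.succ
      simp [sw, e0, Fin.succ_ne_zero]
    set g : Pt k → ℝ := fun κ => if κ = Pt.tail M then 1 else 0 with hg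
    have h1 := E_one_vertex U hN hb (fun κ => g κ * ((S (M 0 i.succ) : ℤ) : ℝ)) i
    have h2 := E_one_vertex U hN hb (fun κ => g κ * ((S (M 0 j.succ) : ℤ) : ℝ)) j
    have h3 : E U (fun M' : Pt (k + 1) => 2 * ((if M' = M then (1 : ℝ) else 0) +
          (-1) * (if M' = sw e0 M then 1 else 0))) =
        E U (fun M' : Pt (k + 1) =>
          (g (Pt.tail M') * ((S (M 0 i.succ) : ℤ) : ℝ)) * ((S (M' 0 i.succ) : ℤ) : ℝ) +
          (g (Pt.tail M') * ((S (M 0 j.succ) : ℤ) : ℝ)) * ((S (M' 0 j.succ) : ℤ) : ℝ)) := by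
      refine E_congrLT U hN hb hA hG _ _ fun M' hM' => ?_
      by_cases ht : Pt.tail M' = Pt.tail M
      · have h0 := hij M' hM' ht
        have h' : (2 : ℝ) * ((if M' = M then 1 else 0) - (if M' = sw e0 M then 1 else 0)) =
            ((S (M 0 i.succ) * S (M' 0 i.succ) + S (M 0 j.succ) * S (M' 0 j.succ) : ℤ) : ℝ) := by
          rw [← h0]
          push_cast
          rfl
        simp only [hg, if_pos ht]
        push_cast at h'
        linarith
      · have n1 : M' ≠ M := fun e => ht (by rw [e])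
        have n2 : M' ≠ sw e0 M := fun e => ht (by rw [e, htail])
        simp only [hg, if_neg ht, if_neg n1, if_neg n2]
        ring
    rw [E_smul, E_add, E_smul, E_add, h1, h2] at h3
    unfold wt
    linarith

theorem wt_swi {k : ℕ} (M : Pt (k + 1)) (hM : LT M) (i : Fin (k + 1)) :
    wt U (sw (fun j => decide (j = i)) M) = wt U M := by
  rw [sw_single, wt_perm, wt_sw0 U hN hb hA hG _ (LT_perm hM _), wt_perm]

theorem wt_swA {k : ℕ} (A : Finset (Fin (k + 1))) : ∀ (M : Pt (k + 1)) (_ : LT M),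
    wt U (sw (fun j => decide (j ∈ A)) M) = wt U M := by
  induction A using Finset.induction_on with
  | empty => intro M _; rw [sw_empty]
  | insert a A ha ih =>
    intro M hM
    rw [sw_insert a A ha, ih _ (LT_sw hM _), wt_swi U hN hb hA hG M hM a]

theorem wt_TT {k : ℕ} (M : Pt k) (hM : LT M) : wt U M = wt U (TT k) := by
  rcases k with _ | k
  · congr 1
    funext a
    exact a.elim0
  · set A : Finset (Fin (k + 1)) :=
      univ.filter fun j => (Fin.cases false (fun j => !(M 0 j.succ)) j : Bool) = true with hA'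
    have h0 : decide ((0 : Fin (k + 1)) ∈ A) = false := by simp [hA']
    have hs : ∀ j : Fin k, decide (j.succ ∈ A) = !(M 0 j.succ) := by
      intro j
      simp [hA']
    have hdom : ∀ j : Fin k, sw (fun j => decide (j ∈ A)) M 0 j.succ = true := by
      intro j
      simp only [sw, h0, hs]
      cases M 0 j.succ <;> rfl
    obtain ⟨ρ, hρ⟩ := exists_perm (tr_of_dom (LT_sw hM _) hdom)
    rw [← wt_swA U hN hb hA hG A M hM, hρ, wt_perm]

open Classical in
theorem wt_formula {k : ℕ} (M : Pt k) :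
    wt U M = if LT M then 1 / ((univ.filter fun M : Pt k => LT M).card : ℝ) else 0 := by
  by_cases hM : LT M
  · rw [if_pos hM, wt_TT U hN hb hA hG M hM]
    have h1 := wt_sum U hN (k := k)
    have h2 : ∑ M : Pt k, wt U M = ∑ M : Pt k, if LT M then wt U (TT k) else 0 := by
      refine Finset.sum_congr rfl fun M' _ => ?_
      split_ifs with h
      · exact wt_TT U hN hb hA hG M' h
      · exact wt_notLT U hN hb hA hG M' h
    rw [h2, ← Finset.sum_filter, Finset.sum_const, nsmul_eq_mul] at h1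
    exact eq_one_div_of_mul_eq_one_right h1
  · rw [if_neg hM]
    exact wt_notLT U hN hb hA hG M hM

end

/-- Two extremal sequences have the same limits of averages. -/
theorem E_unique {N N' : ℕ → ℕ} (U : (m : ℕ) → Tournament (N m)) (hN : StrictMono N)
    (U' : (m : ℕ) → Tournament (N' m)) (hN' : StrictMono N')
    (hR : 1 / 16 ≤ E U (fun M : Pt 5 => ((R5v M : ℤ) : ℝ)))
    (hR' : 1 / 16 ≤ E U' (fun M : Pt 5 => ((R5v M : ℤ) : ℝ))) {k : ℕ} (g : Pt k → ℝ) :
    E U g = E U' g := by
  obtain ⟨h1, h2, h3⟩ := extremal U hN hR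
  obtain ⟨h1', h2', h3'⟩ := extremal U' hN' hR'
  rw [E_eq_sum, E_eq_sum]
  refine Finset.sum_congr rfl fun M _ => ?_
  rw [wt_formula U hN (bal_of_P1 U hN h1) h3 h2, wt_formula U' hN' (bal_of_P1 U' hN' h1') h3' h2']

end Pool.Agent.U991.Car
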