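import Pool.Agent.U991.Car.Count
import Pool.Agent.U991.Car.Par

/-!
The upper bound for the density of a carousel tournament.
-/

namespace Pool.Agent.U991.Car

open Finset Filter Topology

set_option linter.unusedSectionVars false

open Classical in
/-- The sign matrix of a tournament. -/
noncomputable def sg {N : ℕ} (U : Tournament N) (u v : Fin N) : ℤ :=
  if u = v then 0 else if U.adj u v then 1 else -1

theorem sg_isSgn {N : ℕ} (U : Tournament N) : IsSgn (sg U) := by
  constructor
  · intro u v
    unfold sg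
    by_cases h : u = v
    · subst h; simp
    · have h2 : ¬ v = u := fun e => h e.symm
      have h3 := U.one_arc u v h
      rw [if_neg h, if_neg h2]
      by_cases h4 : U.adj v u
      · rw [if_neg (fun h5 => (h3.mp h5) h4), if_pos h4]
      · rw [if_pos (h3.mpr h4), if_neg h4]
        norm_num
  · intro u v h
    unfold sg
    rw [if_neg h]
    split_ifs <;> simp

/-- The reflection of `Fin (2n+1)` about `a`. -/
def refl (n : ℕ) (a b : Fin (2 * n + 1)) : Fin (2 * n + 1) :=
  ⟨if (b : ℕ) ≤ 2 * a then (if 2 * (a : ℕ) - b < 2 * n + 1 then 2 * (a : ℕ) - b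
      else 2 * (a : ℕ) - b - (2 * n + 1)) else 2 * (a : ℕ) + (2 * n + 1) - b, by
    have := a.2
    have := b.2
    split_ifs <;> omega⟩

theorem carousel_reg (n : ℕ) (x : Fin (2 * n + 1)) : ∑ y, sg (carousel n) x y = 0 := by
  classical
  have hx := x.2
  refine Finset.sum_involution (fun y _ => refl n x y) ?_ ?_ ?_ ?_
  · intro y _
    have hy := y.2
    by_cases h : x = y
    · subst h
      have : refl n x x = x := by
        apply Fin.ext
        simp only [refl]
        split_ifs <;> omega
      rw [this]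
      simp [sg]
    · have hne : (x : ℕ) ≠ y := fun e => h (Fin.ext e)
      have hne2 : ¬ x = refl n x y := by
        intro e
        have := congrArg Fin.val e
        simp only [refl] at this
        split_ifs at this <;> omega
      unfold sg
      rw [if_neg h, if_neg hne2]
      have hadj : (carousel n).adj x (refl n x y) ↔ ¬ (carousel n).adj x y := by
        rw [carousel_adj, carousel_adj]
        simp only [refl]
        split_ifs <;> omega
      by_cases h4 : (carousel n).adj x y
      · rw [if_pos h4, if_neg (fun h5 => (hadj.mp h5) h4)]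
        norm_num
      · rw [if_neg h4, if_pos (hadj.mpr h4)]
        norm_num
  · intro y _ h0 h1
    have hy := y.2
    apply h0
    have : x = y := by
      apply Fin.ext
      have := congrArg Fin.val h1
      simp only [refl] at this
      split_ifs at this <;> omega
    rw [this]
    simp [sg]
  · intro y _
    exact Finset.mem_univ _
  · intro y _
    have hy := y.2
    apply Fin.ext
    simp only [refl]
    split_ifs <;> omega

theorem pos_of_induces {n N : ℕ} (U : Tournament N) (S : Finset (Fin N))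
    (h : Induces (carousel n) U S) : Pos (sg U) S := by
  classical
  obtain ⟨f, hf, rfl, hadj⟩ := h
  refine ⟨⟨f ⟨0, by omega⟩, Finset.mem_image_of_mem f (Finset.mem_univ _)⟩, fun _ => 1,
    fun _ _ => one_pos, ?_⟩
  intro u hu
  obtain ⟨i, _, rfl⟩ := Finset.mem_image.mp hu
  rw [Finset.sum_image (fun a _ b _ h => hf h)]
  have h1 : ∀ j, sg U (f i) (f j) = sg (carousel n) i j := by
    intro j
    unfold sg
    by_cases hij : i = j
    · subst hij; simp
    · rw [if_neg hij, if_neg (fun e => hij (hf e))]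
      by_cases h4 : (carousel n).adj i j
      · rw [if_pos h4, if_pos ((hadj i j).mp h4)]
      · rw [if_neg h4, if_neg (fun h5 => h4 ((hadj i j).mpr h5))]
  have h2 := carousel_reg n i
  simp_rw [h1, mul_one]
  exact_mod_cast h2

theorem density_bound {n N : ℕ} (U : Tournament N) (hN : 2 * n + 1 ≤ N) :
    (2 : ℝ) ^ (2 * n + 1) * density (carousel n) U ≤
      2 + 3 ^ (2 * n + 1) * (((N.descFactorial (2 * n + 1) : ℝ) / (N : ℝ) ^ (2 * n + 1))⁻¹ - 1)
      := by
  classical
  have hm : Odd (2 * n + 1) := ⟨n, rfl⟩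
  set F := (univ.powersetCard (2 * n + 1)).filter fun S : Finset (Fin N) =>
    Induces (carousel n) U S with hF
  have h1 := count_sets (m := 2 * n + 1) (sg_isSgn U) hm F (fun S hS => by
    rw [hF, Finset.mem_filter, Finset.mem_powersetCard] at hS
    exact ⟨hS.1.2, pos_of_induces U S hS.2⟩)
  rw [Fintype.card_fin] at h1
  have hD : 0 < N.descFactorial (2 * n + 1) := Nat.pos_of_ne_zero (by
    rw [Ne, Nat.descFactorial_eq_zero_iff_lt]; omega)
  have hDr : (0 : ℝ) < (N.descFactorial (2 * n + 1) : ℝ) := by exact_mod_cast hD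
  have hDc : (N.descFactorial (2 * n + 1) : ℝ) = (2 * n + 1).factorial * N.choose (2 * n + 1) := by
    exact_mod_cast Nat.descFactorial_eq_factorial_mul_choose N (2 * n + 1)
  have h2 : (2 : ℝ) ^ (2 * n + 1) * ((2 * n + 1).factorial * F.card) ≤
      2 * (N.descFactorial (2 * n + 1) : ℝ) +
        3 ^ (2 * n + 1) * ((N : ℝ) ^ (2 * n + 1) - (N.descFactorial (2 * n + 1) : ℝ)) := by
    exact_mod_cast h1
  have hfac : (0 : ℝ) < ((2 * n + 1).factorial : ℝ) := by positivity
  have hch : (0 : ℝ) < (N.choose (2 * n + 1) : ℝ) := by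
    have : 0 < N.choose (2 * n + 1) := Nat.choose_pos hN
    exact_mod_cast this
  have h3 : (2 : ℝ) ^ (2 * n + 1) * density (carousel n) U =
      (2 : ℝ) ^ (2 * n + 1) * ((2 * n + 1).factorial * F.card) /
        (N.descFactorial (2 * n + 1) : ℝ) := by
    unfold density
    rw [hDc, ← hF]
    field_simp
  rw [h3, inv_div]
  rw [div_le_iff₀ hDr]
  refine h2.trans (le_of_eq ?_)
  field_simp

theorem limit_bound (φ : (k : ℕ) → Tournament k → ℝ) (hφ : IsLimit φ) (n : ℕ) :
    φ (2 * n + 1) (carousel n) ≤ (1 / 4 : ℝ) ^ n := by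
  obtain ⟨N, U, hN, hlim⟩ := hφ
  have h1 := (hlim (2 * n + 1) (carousel n)).const_mul ((2 : ℝ) ^ (2 * n + 1))
  have hNt : Tendsto N atTop atTop := hN.tendsto_atTop
  have h2 : Tendsto (fun m => 2 + 3 ^ (2 * n + 1) *
      ((((N m).descFactorial (2 * n + 1) : ℝ) / ((N m : ℕ) : ℝ) ^ (2 * n + 1))⁻¹ - 1)) atTop
      (𝓝 (2 + 3 ^ (2 * n + 1) * ((1 : ℝ)⁻¹ - 1))) :=
    tendsto_const_nhds.add ((((desc_tendsto (2 * n + 1)).comp hNt).inv₀ one_ne_zero).sub_const 1
      |>.const_mul _)
  have h3 := le_of_tendsto_of_tendsto h1 h2 (by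
    filter_upwards [hNt.eventually_ge_atTop (2 * n + 1)] with m hm
    exact density_bound (U m) hm)
  rw [inv_one, sub_self, mul_zero, add_zero] at h3
  have h4 : (1 / 4 : ℝ) ^ n * 2 ^ (2 * n + 1) = 2 := by
    rw [pow_succ, pow_mul, ← mul_assoc, ← mul_pow]
    norm_num
  have h5 : (0 : ℝ) < 2 ^ (2 * n + 1) := by positivity
  nlinarith

end Pool.Agent.U991.Car
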