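import Pool.Agent.U991.Car.Lt

/-!
Weights of patterns in the extremal case, and the universal formula.
-/

namespace Pool.Agent.U991.Car

open Finset Filter Topology

set_option linter.unusedSectionVars false

theorem sw_testBit {k : ℕ} (c : ℕ) (M : Pt k) :
    sw (fun i : Fin k => Nat.testBit c i.val) M =
      sw (fun j => decide (j ∈ univ.filter fun i : Fin k => Nat.testBit c i.val = true)) M := by
  congr 1
  funext i
  simp

section
variable {N : ℕ → ℕ} (U : (m : ℕ) → Tournament (N m)) (hN : StrictMono N)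
include hN

theorem E_marg {l : ℕ} : ∀ {k : ℕ} (ι : Fin l → Fin k) (_ : Function.Injective ι) (g : Pt l → ℝ),
    E U (fun M : Pt k => g (Pt.perm ι M)) = E U g := by
  intro k
  induction k with
  | zero =>
    intro ι hι g
    have hl : l = 0 := by
      have := Fintype.card_le_of_injective ι hι
      simpa using this
    subst hl
    exact E_perm U (Equiv.ofBijective ι ⟨hι, fun x => x.elim0⟩) g
  | succ k ih =>
    intro ι hι g
    by_cases hs : Function.Surjective ι
    · have hl : l = k + 1 := by
        have := Fintype.card_of_bijective (f := ι) ⟨hι, hs⟩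
        simpa using this
      subst hl
      exact E_perm U (Equiv.ofBijective ι ⟨hι, hs⟩) g
    · rw [Function.Surjective] at hs
      push Not at hs
      obtain ⟨a, ha⟩ := hs
      have h0 : ∀ i, Equiv.swap 0 a (ι i) ≠ 0 := by
        intro i hi
        have h2 : Equiv.swap 0 a (ι i) = Equiv.swap 0 a a := by rw [hi, Equiv.swap_apply_right]
        exact ha i ((Equiv.swap 0 a).injective h2)
      let ι2 : Fin l → Fin k := fun i => (Equiv.swap 0 a (ι i)).pred (h0 i)
      have hι2 : Function.Injective ι2 := by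
        intro i j hij
        have : Equiv.swap 0 a (ι i) = Equiv.swap 0 a (ι j) := by
          have h3 := congrArg Fin.succ hij
          simpa [ι2] using h3
        exact hι ((Equiv.swap 0 a).injective this)
      rw [← E_perm U (Equiv.swap 0 a)]
      have : (fun M : Pt (k + 1) => g (Pt.perm ι (Pt.perm (Equiv.swap 0 a) M))) =
          fun M => g (Pt.perm ι2 (Pt.tail M)) := by
        funext M
        congr 1
        funext i j
        show M (Equiv.swap 0 a (ι i)) (Equiv.swap 0 a (ι j)) = M (ι2 i).succ (ι2 j).succ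
        simp [ι2]
      rw [this, E_tail U hN (fun κ => g (Pt.perm ι2 κ))]
      exact ih ι2 hι2 g

variable (hb : E U (fun M : Pt 3 => ((sM M 0 2 : ℤ) : ℝ) * ((sM M 1 2 : ℤ) : ℝ)) = 0)
  (hA : E U (fun M : Pt 5 => fA (Pt.perm d1 M) * fA (Pt.tail M)) = 0)
include hb hA

theorem E_swi (g : Pt 5 → ℝ) (i : Fin 5) :
    E U (fun M => g (sw (fun j => decide (j = i)) M)) = E U g := by
  simp_rw [sw_single]
  have h1 := E_perm U (Equiv.swap 0 i) (fun M => g (Pt.perm (Equiv.swap 0 i) (sw e0 M)))
  rw [h1]
  have h2 := E_sw0 U hN hb hA (fun M => g (Pt.perm (Equiv.swap 0 i) M))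
  rw [h2]
  exact E_perm U (Equiv.swap 0 i) g

theorem E_swA (A : Finset (Fin 5)) : ∀ g : Pt 5 → ℝ,
    E U (fun M => g (sw (fun j => decide (j ∈ A)) M)) = E U g := by
  induction A using Finset.induction_on with
  | empty => intro g; simp_rw [sw_empty]
  | insert a A ha ih =>
    intro g
    simp_rw [sw_insert a A ha]
    rw [E_swi U hN hb hA (fun M => g (sw (fun j => decide (j ∈ A)) M)) a]
    exact ih g

variable (hG : E U (fun M : Pt 5 => ((G4v M : ℤ) : ℝ)) = 0)
include hG

theorem nlt4 : E U (fun M : Pt 4 => if nlt M 0 1 2 3 = true then (1 : ℝ) else 0) = 0 := by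
  have h1 := E_tail U hN (fun M : Pt 4 => if nlt M 0 1 2 3 = true then (1 : ℝ) else 0)
  rw [← h1]
  apply le_antisymm
  · have h2 : E U (fun M : Pt 5 => if nlt (Pt.tail M) 0 1 2 3 = true then (1 : ℝ) else 0) ≤
        E U (fun M : Pt 5 => ∑ c ∈ Finset.range 16,
          ((G4v (sw (fun i : Fin 5 => Nat.testBit c i.val) M) : ℤ) : ℝ)) := by
      refine E_le U hN _ _ fun M hM => ?_
      have hnn : ∀ c ∈ Finset.range 16,
          (0 : ℝ) ≤ ((G4v (sw (fun i : Fin 5 => Nat.testBit c i.val) M) : ℤ) : ℝ) := by
        intro c _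
        unfold G4v
        split_ifs <;> simp
      split_ifs with h
      · obtain ⟨c, hc, h2⟩ := k3 M hM h
        have h3 : (1 : ℝ) ≤ ((G4v (sw (fun i : Fin 5 => Nat.testBit c i.val) M) : ℤ) : ℝ) := by
          unfold G4v
          rw [if_pos h2]
          simp
        exact h3.trans (Finset.single_le_sum hnn (Finset.mem_range.mpr hc))
      · exact Finset.sum_nonneg hnn
    refine h2.trans (le_of_eq ?_)
    rw [E_sum]
    refine Finset.sum_eq_zero fun c _ => ?_
    simp_rw [sw_testBit]
    rw [E_swA U hN hb hA _ (fun M => ((G4v M : ℤ) : ℝ))]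
    exact hG
  · exact E_nonneg U hN _ fun M _ => by split_ifs <;> norm_num

end

end Pool.Agent.U991.Car
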